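import Mathlib

/-!
Definitions for the theorem that supersolvable groups are flawed: reductive linear groups over
the complex numbers, their character varieties with the analytic topology, and strong
deformation retractions.
-/

set_option autoImplicit false

noncomputable section

namespace Pool.Agent.Lib.MP_a9945b_al

open Matrix

/-- The algebra of regular functions on the general linear group over the complex numbers: the
functions that are polynomials in the entries of `g` and of the inverse of `g`. -/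
def regGL (n : ℕ) : Subalgebra ℂ (GL (Fin n) ℂ → ℂ) :=
  Algebra.adjoin ℂ
    {f | ∃ i j, f = (fun g : GL (Fin n) ℂ => (g : Matrix (Fin n) (Fin n) ℂ) i j) ∨
      f = (fun g : GL (Fin n) ℂ => ((g⁻¹ : GL (Fin n) ℂ) : Matrix (Fin n) (Fin n) ℂ) i j)}

/-- `G` is Zariski closed: it contains every `g` at which all regular functions vanishing on `G`
vanish. -/
def ZariskiClosed {n : ℕ} (G : Subgroup (GL (Fin n) ℂ)) : Prop :=
  ∀ g : GL (Fin n) ℂ, (∀ f ∈ regGL n, (∀ x ∈ G, f x = 0) → f g = 0) → g ∈ G

/-- `G` is reductive: some compact subgroup of `G` is Zariski dense in `G`. -/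
def Reductive {n : ℕ} (G : Subgroup (GL (Fin n) ℂ)) : Prop :=
  ∃ C : Subgroup (GL (Fin n) ℂ), C ≤ G ∧ IsCompact (C : Set (GL (Fin n) ℂ)) ∧
    ∀ f ∈ regGL n, (∀ c ∈ C, f c = 0) → ∀ g ∈ G, f g = 0

/-- `K` is a maximal compact subgroup of `G`. -/
def MaximalCompact {n : ℕ} (K G : Subgroup (GL (Fin n) ℂ)) : Prop :=
  K ≤ G ∧ IsCompact (K : Set (GL (Fin n) ℂ)) ∧
    ∀ K' : Subgroup (GL (Fin n) ℂ), K ≤ K' → K' ≤ G → IsCompact (K' : Set (GL (Fin n) ℂ)) →
      K' = K

section CharVar

variable (Γ : Type) [Group Γ] {n : ℕ} (G : Subgroup (GL (Fin n) ℂ))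

/-- The coordinate ring of `Hom(Γ, G)`: polynomials in the matrix entries of the `ρ γ`. -/
def regHom : Subalgebra ℂ ((Γ →* G) → ℂ) :=
  Algebra.adjoin ℂ
    {f | ∃ (γ : Γ) (i j : Fin n),
      f = fun ρ => ((ρ γ : GL (Fin n) ℂ) : Matrix (Fin n) (Fin n) ℂ) i j}

/-- The algebra of the regular functions on `Hom(Γ, G)` invariant under conjugation by `G`. -/
def invHom : Subalgebra ℂ ((Γ →* G) → ℂ) where
  carrier := {f | f ∈ regHom Γ G ∧
    ∀ (g : G) (ρ : Γ →* G), f ((MulAut.conj g).toMonoidHom.comp ρ) = f ρ}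
  mul_mem' := by
    rintro a b ⟨ha, ha'⟩ ⟨hb, hb'⟩
    exact ⟨mul_mem ha hb, fun g ρ => by simp only [Pi.mul_apply, ha', hb']⟩
  add_mem' := by
    rintro a b ⟨ha, ha'⟩ ⟨hb, hb'⟩
    exact ⟨add_mem ha hb, fun g ρ => by simp only [Pi.add_apply, ha', hb']⟩
  algebraMap_mem' := fun r => ⟨Subalgebra.algebraMap_mem _ r, fun g ρ => rfl⟩

/-- The character variety: the complex points of the affine GIT quotient of `Hom(Γ, G)` by
conjugation, that is, the algebra homomorphisms from the ring of invariants to `ℂ`. -/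
def CharVar : Type := invHom Γ G →ₐ[ℂ] ℂ

/-- The analytic topology on the character variety: the coarsest one for which all invariant
regular functions are continuous. -/
instance : TopologicalSpace (CharVar Γ G) :=
  TopologicalSpace.induced (fun (χ : invHom Γ G →ₐ[ℂ] ℂ) (f : invHom Γ G) => χ f) inferInstance

variable {Γ} {G}

/-- The point of the character variety given by a homomorphism. -/
def point (ρ : Γ →* G) : CharVar Γ G :=
  (Pi.evalAlgHom ℂ (fun _ : Γ →* G => ℂ) ρ).comp (invHom Γ G).val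

end CharVar

/-- `X` strong deformation retracts onto its subset `A`. -/
def StrongDeformationRetract {X : Type} [TopologicalSpace X] (A : Set X) : Prop :=
  ∃ H : X × unitInterval → X, Continuous H ∧ (∀ x, H (x, 0) = x) ∧ (∀ x, H (x, 1) ∈ A) ∧
    ∀ a ∈ A, ∀ t, H (a, t) = a

/-- `Γ` is flawed: for every reductive `G` and every maximal compact subgroup `K` of `G`, the
`G`-character variety of `Γ` strong deformation retracts onto the set of classes of the
homomorphisms with values in `K`. -/
def Flawed (Γ : Type) [Group Γ] : Prop :=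
  ∀ (n : ℕ) (G K : Subgroup (GL (Fin n) ℂ)), ZariskiClosed G → Reductive G →
    MaximalCompact K G →
    StrongDeformationRetract
      {x : CharVar Γ G | ∃ ρ : Γ →* G, (∀ γ, (ρ γ : GL (Fin n) ℂ) ∈ K) ∧ x = point ρ}

/-- `Γ` is supersolvable: it has a finite chain of normal subgroups from the trivial group to
`Γ` with cyclic successive quotients. -/
def Supersolvable (Γ : Type) [Group Γ] : Prop :=
  ∃ (m : ℕ) (s : ℕ → Subgroup Γ), s 0 = ⊥ ∧ s m = ⊤ ∧
    ∀ i < m, s i ≤ s (i + 1) ∧ (s i).Normal ∧
      ∃ g ∈ s (i + 1), ∀ x ∈ s (i + 1), ∃ k : ℤ, x * g ^ k ∈ s i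

end Pool.Agent.Lib.MP_a9945b_al
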