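import Mathlib
import Pool.Agent.Lib.MP_a9945b_al.Defs

/-!
Basic facts on matrices belonging to a Zariski closed subgroup of the general linear group, on
limits of homomorphisms and on minimal homomorphisms in a fibre of the quotient map.
-/

set_option autoImplicit false

noncomputable section

namespace Pool.Agent.Lib.MP_a9945b_al

open Matrix Filter Topology
open scoped ComplexOrder

/-- A matrix belongs to (the image of) the subgroup `G` of the general linear group. -/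
def InG {n : ℕ} (G : Subgroup (GL (Fin n) ℂ)) (A : Matrix (Fin n) (Fin n) ℂ) : Prop :=
  ∃ g ∈ G, (g : Matrix (Fin n) (Fin n) ℂ) = A

section

variable {n : ℕ} {G : Subgroup (GL (Fin n) ℂ)}

lemma InG.one : InG G 1 := ⟨1, G.one_mem, rfl⟩

lemma InG.mul {A B : Matrix (Fin n) (Fin n) ℂ} (hA : InG G A) (hB : InG G B) :
    InG G (A * B) := by
  obtain ⟨g, hg, rfl⟩ := hA
  obtain ⟨h, hh, rfl⟩ := hB
  exact ⟨g * h, G.mul_mem hg hh, rfl⟩

lemma InG.coe {g : GL (Fin n) ℂ} (hg : g ∈ G) : InG G (g : Matrix (Fin n) (Fin n) ℂ) :=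
  ⟨g, hg, rfl⟩

lemma InG.of_mul_eq_one {A B : Matrix (Fin n) (Fin n) ℂ} (hA : InG G A) (h : A * B = 1) :
    InG G B := by
  obtain ⟨g, hg, rfl⟩ := hA
  refine ⟨g⁻¹, G.inv_mem hg, ?_⟩
  have : ((g⁻¹ : GL (Fin n) ℂ) : Matrix (Fin n) (Fin n) ℂ) * (g : Matrix (Fin n) (Fin n) ℂ) = 1 := by
    rw [← Units.val_mul, inv_mul_cancel, Units.val_one]
  calc ((g⁻¹ : GL (Fin n) ℂ) : Matrix (Fin n) (Fin n) ℂ)
      = ((g⁻¹ : GL (Fin n) ℂ) : Matrix (Fin n) (Fin n) ℂ) * ((g : Matrix (Fin n) (Fin n) ℂ) * B) := by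
        rw [h, mul_one]
    _ = B := by rw [← mul_assoc, this, one_mul]

lemma InG.mem {g : GL (Fin n) ℂ} (hg : InG G (g : Matrix (Fin n) (Fin n) ℂ)) : g ∈ G := by
  obtain ⟨h, hh, h'⟩ := hg
  rwa [Units.ext h'] at hh

lemma InG.inv_coe {g : GL (Fin n) ℂ} (hg : g ∈ G) :
    InG G ((g⁻¹ : GL (Fin n) ℂ) : Matrix (Fin n) (Fin n) ℂ) := ⟨g⁻¹, G.inv_mem hg, rfl⟩

/-- Regular functions on the general linear group are continuous functions of `g` and its
inverse. -/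
lemma regGL_cont {f : GL (Fin n) ℂ → ℂ} (hf : f ∈ regGL n) :
    ∃ F : Matrix (Fin n) (Fin n) ℂ × Matrix (Fin n) (Fin n) ℂ → ℂ, Continuous F ∧
      ∀ g : GL (Fin n) ℂ, f g = F ((g : Matrix (Fin n) (Fin n) ℂ),
        ((g⁻¹ : GL (Fin n) ℂ) : Matrix (Fin n) (Fin n) ℂ)) := by
  induction hf using Algebra.adjoin_induction with
  | mem f hf =>
    obtain ⟨i, j, rfl | rfl⟩ := hf
    · exact ⟨fun p => p.1 i j, by fun_prop, fun g => rfl⟩
    · exact ⟨fun p => p.2 i j, by fun_prop, fun g => rfl⟩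
  | algebraMap r => exact ⟨fun _ => r, continuous_const, fun g => rfl⟩
  | add f g _ _ h1 h2 =>
    obtain ⟨F1, h1, h1'⟩ := h1
    obtain ⟨F2, h2, h2'⟩ := h2
    exact ⟨fun p => F1 p + F2 p, h1.add h2, fun g => by simp only [Pi.add_apply, h1', h2']⟩
  | mul f g _ _ h1 h2 =>
    obtain ⟨F1, h1, h1'⟩ := h1
    obtain ⟨F2, h2, h2'⟩ := h2
    exact ⟨fun p => F1 p * F2 p, h1.mul h2, fun g => by simp only [Pi.mul_apply, h1', h2']⟩

/-- A Zariski closed group is closed under limits. -/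
lemma InG.of_tendsto (hZ : ZariskiClosed G) {ι : Type*} {l : Filter ι} [l.NeBot]
    {g : ι → GL (Fin n) ℂ} (hg : ∀ i, g i ∈ G) {A B : Matrix (Fin n) (Fin n) ℂ}
    (hA : Tendsto (fun i => (g i : Matrix (Fin n) (Fin n) ℂ)) l (𝓝 A))
    (hB : Tendsto (fun i => (((g i)⁻¹ : GL (Fin n) ℂ) : Matrix (Fin n) (Fin n) ℂ)) l (𝓝 B)) :
    InG G A := by
  have hAB : A * B = 1 := by
    have h1 : Tendsto (fun i => (g i : Matrix (Fin n) (Fin n) ℂ) *
        (((g i)⁻¹ : GL (Fin n) ℂ) : Matrix (Fin n) (Fin n) ℂ)) l (𝓝 (A * B)) := hA.mul hB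
    have h2 : (fun i => (g i : Matrix (Fin n) (Fin n) ℂ) *
        (((g i)⁻¹ : GL (Fin n) ℂ) : Matrix (Fin n) (Fin n) ℂ)) = fun _ => 1 := by
      funext i
      rw [← Units.val_mul, mul_inv_cancel, Units.val_one]
    rw [h2] at h1
    exact tendsto_nhds_unique h1 tendsto_const_nhds
  have hBA : B * A = 1 := mul_eq_one_comm.mp hAB
  refine ⟨⟨A, B, hAB, hBA⟩, ?_, rfl⟩
  apply hZ
  intro f hf hf0
  obtain ⟨F, hF, hFf⟩ := regGL_cont hf
  rw [hFf]
  have h1 : Tendsto (fun i => F ((g i : Matrix (Fin n) (Fin n) ℂ),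
      (((g i)⁻¹ : GL (Fin n) ℂ) : Matrix (Fin n) (Fin n) ℂ))) l (𝓝 (F (A, B))) :=
    (hF.tendsto (A, B)).comp (hA.prodMk_nhds hB)
  have h2 : (fun i => F ((g i : Matrix (Fin n) (Fin n) ℂ),
      (((g i)⁻¹ : GL (Fin n) ℂ) : Matrix (Fin n) (Fin n) ℂ))) = fun _ => 0 := by
    funext i
    rw [← hFf, hf0 _ (hg i)]
  rw [h2] at h1
  exact tendsto_nhds_unique h1 tendsto_const_nhds

end

section

variable {Γ : Type} [Group Γ] {n : ℕ} {G : Subgroup (GL (Fin n) ℂ)}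

/-- The matrix of `ρ γ`. -/
abbrev mat (ρ : Γ →* G) (γ : Γ) : Matrix (Fin n) (Fin n) ℂ := ((ρ γ : GL (Fin n) ℂ) :
  Matrix (Fin n) (Fin n) ℂ)

lemma mat_mul (ρ : Γ →* G) (γ δ : Γ) : mat ρ (γ * δ) = mat ρ γ * mat ρ δ := by
  simp [mat]

lemma mat_one (ρ : Γ →* G) : mat ρ 1 = 1 := by
  simp [mat]

lemma mat_inv_mul (ρ : Γ →* G) (γ : Γ) : mat ρ γ⁻¹ * mat ρ γ = 1 := by
  rw [← mat_mul, inv_mul_cancel, mat_one]

lemma mat_mul_inv (ρ : Γ →* G) (γ : Γ) : mat ρ γ * mat ρ γ⁻¹ = 1 := by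
  rw [← mat_mul, mul_inv_cancel, mat_one]

lemma inG_mat (ρ : Γ →* G) (γ : Γ) : InG G (mat ρ γ) := ⟨_, (ρ γ).2, rfl⟩

/-- Construct a homomorphism from its matrices. -/
lemma exists_hom {A : Γ → Matrix (Fin n) (Fin n) ℂ} (hG : ∀ γ, InG G (A γ))
    (hmul : ∀ γ δ, A (γ * δ) = A γ * A δ) : ∃ ρ : Γ →* G, ∀ γ, mat ρ γ = A γ := by
  choose g hg hg' using hG
  have hm : ∀ γ δ, g (γ * δ) = g γ * g δ := by
    intro γ δ
    apply Units.ext
    rw [hg', hmul, Units.val_mul, hg', hg']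
  refine ⟨MonoidHom.mk' (fun γ => (⟨g γ, hg γ⟩ : G)) ?_, ?_⟩
  · intro γ δ
    apply Subtype.ext
    exact hm γ δ
  · intro γ
    exact hg' γ

lemma hom_ext {ρ ρ' : Γ →* G} (h : ∀ γ, mat ρ γ = mat ρ' γ) : ρ = ρ' := by
  ext γ : 1
  apply Subtype.ext
  exact Units.ext (h γ)

lemma mat_conj (g : G) (ρ : Γ →* G) (γ : Γ) :
    mat ((MulAut.conj g).toMonoidHom.comp ρ) γ =
      ((g : GL (Fin n) ℂ) : Matrix (Fin n) (Fin n) ℂ) * mat ρ γ *
        (((g : GL (Fin n) ℂ)⁻¹ : GL (Fin n) ℂ) : Matrix (Fin n) (Fin n) ℂ) := by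
  simp [mat, MulAut.conj_apply]

/-- The value of an invariant at a point of the character variety. -/
def CharVar.val (x : CharVar Γ G) (f : invHom Γ G) : ℂ := (show invHom Γ G →ₐ[ℂ] ℂ from x) f

lemma point_val (ρ : Γ →* G) (f : invHom Γ G) : (point ρ).val f = f.1 ρ := rfl

lemma point_conj (g : G) (ρ : Γ →* G) :
    point ((MulAut.conj g).toMonoidHom.comp ρ) = point ρ := by
  apply AlgHom.ext
  intro f
  exact f.2.2 g ρ

lemma point_eq_iff (ρ ρ' : Γ →* G) : point ρ = point ρ' ↔ ∀ f ∈ invHom Γ G, f ρ = f ρ' := by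
  constructor
  · intro h f hf
    have := congrArg (fun χ : invHom Γ G →ₐ[ℂ] ℂ => χ ⟨f, hf⟩) h
    exact this
  · intro h
    apply AlgHom.ext
    intro f
    exact h f.1 f.2

/-- regular functions are continuous for pointwise convergence -/
lemma regHom_tendsto {f : (Γ →* G) → ℂ} (hf : f ∈ regHom Γ G) {ι : Type*} {l : Filter ι}
    {ρ : ι → (Γ →* G)} {ρ₀ : Γ →* G}
    (h : ∀ γ, Tendsto (fun i => mat (ρ i) γ) l (𝓝 (mat ρ₀ γ))) :
    Tendsto (fun i => f (ρ i)) l (𝓝 (f ρ₀)) := by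
  induction hf using Algebra.adjoin_induction with
  | mem f hf =>
    obtain ⟨γ, i, j, rfl⟩ := hf
    have h1 := h γ
    have h2 : Continuous (fun A : Matrix (Fin n) (Fin n) ℂ => A i j) := by fun_prop
    exact (h2.tendsto _).comp h1
  | algebraMap r => exact tendsto_const_nhds
  | add f g _ _ h1 h2 => exact h1.add h2
  | mul f g _ _ h1 h2 => exact h1.mul h2

/-- boundedness along a filter, entrywise -/
def BddAlong {ι : Type*} (l : Filter ι) (A : ι → Matrix (Fin n) (Fin n) ℂ) : Prop :=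
  ∃ B : ℝ, ∀ᶠ i in l, ∀ a b, ‖A i a b‖ ≤ B

lemma BddAlong.exists_lim {ι : Type*} {l : Ultrafilter ι}
    {A : ι → Matrix (Fin n) (Fin n) ℂ} (h : BddAlong (l : Filter ι) A) :
    ∃ A₀, Tendsto A l (𝓝 A₀) := by
  obtain ⟨B, hB⟩ := h
  have hK : IsCompact (Set.univ.pi (fun _ : Fin n => Set.univ.pi
      (fun _ : Fin n => Metric.closedBall (0 : ℂ) B))) :=
    isCompact_univ_pi (fun _ => isCompact_univ_pi (fun _ => isCompact_closedBall _ _))
  let A' : ι → (Fin n → Fin n → ℂ) := A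
  have h1 := hK.ultrafilter_le_nhds (l.map A')
  have h2 : ((l.map A' : Ultrafilter (Fin n → Fin n → ℂ)) : Filter (Fin n → Fin n → ℂ)) ≤
      𝓟 (Set.univ.pi (fun _ : Fin n => Set.univ.pi
      (fun _ : Fin n => Metric.closedBall (0 : ℂ) B))) := by
    rw [le_principal_iff, Ultrafilter.coe_map, Filter.mem_map]
    filter_upwards [hB] with i hi
    simp only [Set.mem_preimage, Set.mem_pi, Set.mem_univ, forall_true_left,
      Metric.mem_closedBall, dist_zero_right]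
    exact hi
  obtain ⟨x, -, hx⟩ := h1 h2
  exact ⟨x, hx⟩

lemma BddAlong.mul {ι : Type*} {l : Filter ι} {A B : ι → Matrix (Fin n) (Fin n) ℂ}
    (hA : BddAlong l A) (hB : BddAlong l B) : BddAlong l (fun i => A i * B i) := by
  obtain ⟨C, hC⟩ := hA
  obtain ⟨D, hD⟩ := hB
  refine ⟨∑ _ : Fin n, |C| * |D|, ?_⟩
  filter_upwards [hC, hD] with i h1 h2 a b
  rw [Matrix.mul_apply]
  refine (norm_sum_le _ _).trans (Finset.sum_le_sum fun c _ => ?_)
  rw [norm_mul]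
  exact mul_le_mul ((h1 a c).trans (le_abs_self _)) ((h2 c b).trans (le_abs_self _))
    (norm_nonneg _) (abs_nonneg _)

/-- A family of homomorphisms that is pointwise bounded along an ultrafilter converges. -/
lemma exists_lim_hom (hZ : ZariskiClosed G) {ι : Type*} (l : Ultrafilter ι)
    (ρ : ι → (Γ →* G)) (hb : ∀ γ, BddAlong (l : Filter ι) (fun i => mat (ρ i) γ)) :
    ∃ ρ₀ : Γ →* G, ∀ γ, Tendsto (fun i => mat (ρ i) γ) l (𝓝 (mat ρ₀ γ)) := by
  choose A hA using fun γ => (hb γ).exists_lim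
  have hmul : ∀ γ δ, A (γ * δ) = A γ * A δ := by
    intro γ δ
    have h1 := (hA γ).mul (hA δ)
    have h2 : (fun i => mat (ρ i) γ * mat (ρ i) δ) = fun i => mat (ρ i) (γ * δ) := by
      funext i
      rw [mat_mul]
    rw [h2] at h1
    exact tendsto_nhds_unique (hA _) h1
  have hG : ∀ γ, InG G (A γ) := by
    intro γ
    refine InG.of_tendsto hZ (g := fun i => (ρ i γ : GL (Fin n) ℂ)) (fun i => (ρ i γ).2) (hA γ)
      (B := A γ⁻¹) ?_
    have h1 := hA γ⁻¹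
    refine h1.congr (fun i => ?_)
    simp [mat]
  obtain ⟨ρ₀, h₀⟩ := exists_hom hG hmul
  exact ⟨ρ₀, fun γ => by rw [h₀]; exact hA γ⟩

end

end Pool.Agent.Lib.MP_a9945b_al
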