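import Mathlib
import Pool.Agent.Lib.MP_a9945b_al.Basic

set_option autoImplicit false
set_option linter.unusedSectionVars false

noncomputable section

namespace Pool.Agent.Lib.MP_a9945b_al

open Matrix
open scoped ComplexOrder

/-- closure under multiplicative functional calculus -/
def DiagClosed {n : ℕ} (G : Subgroup (GL (Fin n) ℂ)) : Prop :=
  ∀ (P : GL (Fin n) ℂ) (d : Fin n → ℂˣ),
    InG G ((P : Matrix (Fin n) (Fin n) ℂ) * diagonal (fun i => (d i : ℂ)) *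
      ((P⁻¹ : GL (Fin n) ℂ) : Matrix (Fin n) (Fin n) ℂ)) → ∀ h : ℂˣ →* ℂˣ,
    InG G ((P : Matrix (Fin n) (Fin n) ℂ) * diagonal (fun i => (h (d i) : ℂ)) *
      ((P⁻¹ : GL (Fin n) ℂ) : Matrix (Fin n) (Fin n) ℂ))

section Cartan

variable {n : ℕ}

/-- the square root of the modulus, as a multiplicative map -/
def sqrtAbsHom : ℂˣ →* ℂˣ where
  toFun z := Units.mk0 ((Real.sqrt ‖(z : ℂ)‖ : ℝ) : ℂ) (by
    have : 0 < ‖(z : ℂ)‖ := norm_pos_iff.2 z.ne_zero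
    exact_mod_cast (Real.sqrt_pos.2 this).ne')
  map_one' := by ext; simp
  map_mul' a b := by
    ext
    simp only [Units.val_mk0, Units.val_mul, norm_mul]
    rw [Real.sqrt_mul (norm_nonneg _)]
    push_cast
    rfl

theorem sqrtAbsHom_coe (z : ℂˣ) : (sqrtAbsHom z : ℂ) = ((Real.sqrt ‖(z : ℂ)‖ : ℝ) : ℂ) := rfl

/-- square roots of positive definite elements -/
theorem exists_sqrt_aux {G : Subgroup (GL (Fin n) ℂ)} (hdc : DiagClosed G)
    (x : GL (Fin n) ℂ) (hxG : x ∈ G) (hx : (x : Matrix (Fin n) (Fin n) ℂ).PosDef) :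
    ∃ g : GL (Fin n) ℂ, g ∈ G ∧ (g : Matrix (Fin n) (Fin n) ℂ).PosDef ∧ g * g = x ∧
      ∀ a : Matrix (Fin n) (Fin n) ℂ, Commute a (x : Matrix (Fin n) (Fin n) ℂ) →
        Commute a (g : Matrix (Fin n) (Fin n) ℂ) := by
  classical
  have hH := hx.isHermitian
  set U := hH.eigenvectorUnitary with hU
  set ev := hH.eigenvalues with hev
  have hpos : ∀ i, 0 < ev i := hx.eigenvalues_pos
  have hUU : (U : Matrix (Fin n) (Fin n) ℂ) * star (U : Matrix (Fin n) (Fin n) ℂ) = 1 :=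
    Unitary.mul_star_self_of_mem U.2
  have hUU' : star (U : Matrix (Fin n) (Fin n) ℂ) * (U : Matrix (Fin n) (Fin n) ℂ) = 1 :=
    Unitary.star_mul_self_of_mem U.2
  let P : GL (Fin n) ℂ := ⟨U, star (U : Matrix (Fin n) (Fin n) ℂ), hUU, hUU'⟩
  have hPi : ((P⁻¹ : GL (Fin n) ℂ) : Matrix (Fin n) (Fin n) ℂ) =
      star (U : Matrix (Fin n) (Fin n) ℂ) := rfl
  have hPv : (P : Matrix (Fin n) (Fin n) ℂ) = (U : Matrix (Fin n) (Fin n) ℂ) := rfl
  let d : Fin n → ℂˣ := fun i => Units.mk0 ((ev i : ℝ) : ℂ) (by exact_mod_cast (hpos i).ne')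
  have hspec : (x : Matrix (Fin n) (Fin n) ℂ) = (P : Matrix (Fin n) (Fin n) ℂ) *
      diagonal (fun i => (d i : ℂ)) * ((P⁻¹ : GL (Fin n) ℂ) : Matrix (Fin n) (Fin n) ℂ) := by
    have h1 := hH.spectral_theorem
    rw [hPi, hPv]
    exact h1
  have hin := hdc P d ⟨x, hxG, hspec⟩ sqrtAbsHom
  obtain ⟨g, hgG, hg⟩ := hin
  have hsq : ∀ i, ((sqrtAbsHom (d i) : ℂˣ) : ℂ) = ((Real.sqrt (ev i) : ℝ) : ℂ) := by
    intro i
    rw [sqrtAbsHom_coe]
    congr 2
    simp only [d, Units.val_mk0, Complex.norm_real, Real.norm_eq_abs]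
    rw [abs_of_pos (hpos i)]
  have hg' : (g : Matrix (Fin n) (Fin n) ℂ) = (U : Matrix (Fin n) (Fin n) ℂ) *
      diagonal (fun i => ((Real.sqrt (ev i) : ℝ) : ℂ)) *
        star (U : Matrix (Fin n) (Fin n) ℂ) := by
    rw [hg, hPi, hPv]
    congr 3
    funext i
    exact hsq i
  refine ⟨g, hgG, ?_, ?_, ?_⟩
  · rw [hg']
    have hD : (diagonal (fun i => ((Real.sqrt (ev i) : ℝ) : ℂ)) :
        Matrix (Fin n) (Fin n) ℂ).PosDef := by
      refine PosDef.diagonal fun i => ?_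
      exact_mod_cast Real.sqrt_pos.2 (hpos i)
    exact (IsUnit.posDef_star_right_conjugate_iff (U := (U : Matrix (Fin n) (Fin n) ℂ))
      ⟨P, hPv⟩).2 hD
  · apply Units.ext
    rw [Units.val_mul, hg', hspec, hPi, hPv]
    calc (U : Matrix (Fin n) (Fin n) ℂ) * diagonal (fun i => ((Real.sqrt (ev i) : ℝ) : ℂ)) *
        star (U : Matrix (Fin n) (Fin n) ℂ) *
        ((U : Matrix (Fin n) (Fin n) ℂ) * diagonal (fun i => ((Real.sqrt (ev i) : ℝ) : ℂ)) *
        star (U : Matrix (Fin n) (Fin n) ℂ)) =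
        (U : Matrix (Fin n) (Fin n) ℂ) * diagonal (fun i => ((Real.sqrt (ev i) : ℝ) : ℂ)) *
        (star (U : Matrix (Fin n) (Fin n) ℂ) * (U : Matrix (Fin n) (Fin n) ℂ)) *
        diagonal (fun i => ((Real.sqrt (ev i) : ℝ) : ℂ)) *
        star (U : Matrix (Fin n) (Fin n) ℂ) := by simp only [Matrix.mul_assoc]
      _ = (U : Matrix (Fin n) (Fin n) ℂ) * (diagonal (fun i => ((Real.sqrt (ev i) : ℝ) : ℂ)) *
        diagonal (fun i => ((Real.sqrt (ev i) : ℝ) : ℂ))) *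
        star (U : Matrix (Fin n) (Fin n) ℂ) := by rw [hUU']; simp only [Matrix.mul_assoc,
          Matrix.mul_one]
      _ = _ := by
        rw [diagonal_mul_diagonal]
        congr 3
        funext i
        simp only [d, Units.val_mk0]
        rw [← Complex.ofReal_mul, Real.mul_self_sqrt (hpos i).le]
  · intro a ha
    set b := star (U : Matrix (Fin n) (Fin n) ℂ) * a * (U : Matrix (Fin n) (Fin n) ℂ) with hb
    have hab : a = (U : Matrix (Fin n) (Fin n) ℂ) * b *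
        star (U : Matrix (Fin n) (Fin n) ℂ) := by
      rw [hb]
      calc a = 1 * a * 1 := by simp
        _ = _ := by rw [← hUU]; simp only [Matrix.mul_assoc]
    have hcomm : b * diagonal (fun i => (d i : ℂ)) = diagonal (fun i => (d i : ℂ)) * b := by
      have h1 : a * (x : Matrix (Fin n) (Fin n) ℂ) = (x : Matrix (Fin n) (Fin n) ℂ) * a := ha
      rw [hspec, hPi, hPv] at h1
      have h2 : star (U : Matrix (Fin n) (Fin n) ℂ) *
          (a * ((U : Matrix (Fin n) (Fin n) ℂ) * diagonal (fun i => (d i : ℂ)) *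
            star (U : Matrix (Fin n) (Fin n) ℂ))) * (U : Matrix (Fin n) (Fin n) ℂ) =
          star (U : Matrix (Fin n) (Fin n) ℂ) *
          (((U : Matrix (Fin n) (Fin n) ℂ) * diagonal (fun i => (d i : ℂ)) *
            star (U : Matrix (Fin n) (Fin n) ℂ)) * a) * (U : Matrix (Fin n) (Fin n) ℂ) := by
        rw [h1]
      have h3 : star (U : Matrix (Fin n) (Fin n) ℂ) *
          (a * ((U : Matrix (Fin n) (Fin n) ℂ) * diagonal (fun i => (d i : ℂ)) *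
            star (U : Matrix (Fin n) (Fin n) ℂ))) * (U : Matrix (Fin n) (Fin n) ℂ) =
          b * diagonal (fun i => (d i : ℂ)) *
            (star (U : Matrix (Fin n) (Fin n) ℂ) * (U : Matrix (Fin n) (Fin n) ℂ)) := by
        rw [hb]; simp only [Matrix.mul_assoc]
      have h4 : star (U : Matrix (Fin n) (Fin n) ℂ) *
          (((U : Matrix (Fin n) (Fin n) ℂ) * diagonal (fun i => (d i : ℂ)) *
            star (U : Matrix (Fin n) (Fin n) ℂ)) * a) * (U : Matrix (Fin n) (Fin n) ℂ) =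
          (star (U : Matrix (Fin n) (Fin n) ℂ) * (U : Matrix (Fin n) (Fin n) ℂ)) *
            diagonal (fun i => (d i : ℂ)) * b := by
        rw [hb]; simp only [Matrix.mul_assoc]
      rw [h3, h4, hUU'] at h2
      simpa using h2
    have hcomm2 : b * diagonal (fun i => ((Real.sqrt (ev i) : ℝ) : ℂ)) =
        diagonal (fun i => ((Real.sqrt (ev i) : ℝ) : ℂ)) * b := by
      ext i j
      have h1 := congrFun (congrFun hcomm i) j
      rw [mul_diagonal, diagonal_mul] at h1 ⊢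
      simp only [d, Units.val_mk0] at h1
      by_cases hij : ev i = ev j
      · rw [hij, mul_comm]
      · have h2 : b i j * (((ev j : ℝ) : ℂ) - ((ev i : ℝ) : ℂ)) = 0 := by
          rw [mul_sub, h1]; ring
        have h3 : ((ev j : ℝ) : ℂ) - ((ev i : ℝ) : ℂ) ≠ 0 := by
          rw [sub_ne_zero]
          intro h
          exact hij (by exact_mod_cast h.symm)
        have h4 : b i j = 0 := by
          rcases mul_eq_zero.1 h2 with h | h
          · exact h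
          · exact absurd h h3
        rw [h4]; ring
    show a * (g : Matrix (Fin n) (Fin n) ℂ) = (g : Matrix (Fin n) (Fin n) ℂ) * a
    rw [hg']
    calc a * ((U : Matrix (Fin n) (Fin n) ℂ) *
          diagonal (fun i => ((Real.sqrt (ev i) : ℝ) : ℂ)) *
          star (U : Matrix (Fin n) (Fin n) ℂ)) =
        (U : Matrix (Fin n) (Fin n) ℂ) * b * (star (U : Matrix (Fin n) (Fin n) ℂ) *
          (U : Matrix (Fin n) (Fin n) ℂ)) *
          diagonal (fun i => ((Real.sqrt (ev i) : ℝ) : ℂ)) *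
          star (U : Matrix (Fin n) (Fin n) ℂ) := by
          conv_lhs => rw [hab]
          simp only [Matrix.mul_assoc]
      _ = (U : Matrix (Fin n) (Fin n) ℂ) *
          (b * diagonal (fun i => ((Real.sqrt (ev i) : ℝ) : ℂ))) *
          star (U : Matrix (Fin n) (Fin n) ℂ) := by
          rw [hUU']; simp only [Matrix.mul_assoc, Matrix.one_mul]
      _ = (U : Matrix (Fin n) (Fin n) ℂ) *
          (diagonal (fun i => ((Real.sqrt (ev i) : ℝ) : ℂ)) * b) *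
          star (U : Matrix (Fin n) (Fin n) ℂ) := by rw [hcomm2]
      _ = (U : Matrix (Fin n) (Fin n) ℂ) *
          diagonal (fun i => ((Real.sqrt (ev i) : ℝ) : ℂ)) *
          (star (U : Matrix (Fin n) (Fin n) ℂ) * (U : Matrix (Fin n) (Fin n) ℂ)) * b *
          star (U : Matrix (Fin n) (Fin n) ℂ) := by
          rw [hUU']; simp only [Matrix.mul_assoc, Matrix.one_mul]
      _ = _ := by
          conv_rhs => rw [hab]
          simp only [Matrix.mul_assoc]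

/-- a Zariski closed subgroup is closed -/
theorem isClosed_aux {G : Subgroup (GL (Fin n) ℂ)} (hZ : ZariskiClosed G) :
    IsClosed (G : Set (GL (Fin n) ℂ)) := by
  have hcont : ∀ f ∈ regGL n, Continuous f := by
    intro f hf
    induction hf using Algebra.adjoin_induction with
    | mem f hf =>
      obtain ⟨i, j, h | h⟩ := hf
      · rw [h]
        exact (Units.continuous_val.matrix_elem i j)
      · rw [h]
        exact (Units.continuous_coe_inv.matrix_elem i j)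
    | algebraMap r => exact continuous_const
    | add f g _ _ hf hg => exact hf.add hg
    | mul f g _ _ hf hg => exact hf.mul hg
  have : (G : Set (GL (Fin n) ℂ)) =
      ⋂ f ∈ {f | f ∈ regGL n ∧ ∀ x ∈ G, f x = 0}, {g | f g = 0} := by
    ext g
    simp only [SetLike.mem_coe, Set.mem_ofPred_eq, Set.mem_iInter]
    constructor
    · intro hg f hf
      exact hf.2 g hg
    · intro h
      exact hZ g fun f hf hf' => h f ⟨hf, hf'⟩
  rw [this]
  refine isClosed_biInter fun f hf => ?_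
  exact isClosed_eq (hcont f hf.1) continuous_const

/-- entries of a positive definite matrix are bounded by the trace -/
theorem entry_le_trace_aux (g : Matrix (Fin n) (Fin n) ℂ) (hg : g.IsHermitian) (i j : Fin n) :
    ‖(g * g) i j‖ ≤ (trace (g * g)).re := by
  have hsymm : ∀ i j, ‖g i j‖ = ‖g j i‖ := by
    intro i j
    have := congrFun (congrFun hg i) j
    rw [conjTranspose_apply] at this
    rw [← this, norm_star]
  have htr : (trace (g * g)).re = ∑ i, ∑ k, ‖g i k‖ ^ 2 := by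
    rw [trace, Complex.re_sum]
    refine Finset.sum_congr rfl fun i _ => ?_
    rw [diag_apply, mul_apply, Complex.re_sum]
    refine Finset.sum_congr rfl fun k _ => ?_
    have h1 := congrFun (congrFun hg i) k
    rw [conjTranspose_apply] at h1
    have h2 := congrFun (congrFun hg k) i
    rw [conjTranspose_apply] at h2
    rw [← h2, Complex.star_def, Complex.mul_conj, Complex.ofReal_re, Complex.normSq_eq_norm_sq]
  have hrow : ∀ i, ∑ k, ‖g i k‖ ^ 2 ≤ (trace (g * g)).re := by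
    intro i
    rw [htr]
    exact Finset.single_le_sum (f := fun i => ∑ k, ‖g i k‖ ^ 2)
      (fun _ _ => Finset.sum_nonneg fun _ _ => sq_nonneg _) (Finset.mem_univ i)
  calc ‖(g * g) i j‖ = ‖∑ k, g i k * g k j‖ := by rw [mul_apply]
    _ ≤ ∑ k, ‖g i k * g k j‖ := norm_sum_le _ _
    _ = ∑ k, ‖g i k‖ * ‖g j k‖ := by
        refine Finset.sum_congr rfl fun k _ => ?_
        rw [norm_mul, hsymm k j]
    _ ≤ ∑ k, ((‖g i k‖ ^ 2 + ‖g j k‖ ^ 2) / 2) := by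
        refine Finset.sum_le_sum fun k _ => ?_
        nlinarith [sq_nonneg (‖g i k‖ - ‖g j k‖)]
    _ = (∑ k, ‖g i k‖ ^ 2 + ∑ k, ‖g j k‖ ^ 2) / 2 := by
        rw [← Finset.sum_add_distrib, Finset.sum_div]
    _ ≤ _ := by
        have := hrow i
        have := hrow j
        linarith

/-- the functional -/
def Fc (φ x : GL (Fin n) ℂ) : ℝ :=
  (trace ((φ : Matrix (Fin n) (Fin n) ℂ) * (x : Matrix (Fin n) (Fin n) ℂ) *
      (φ : Matrix (Fin n) (Fin n) ℂ)ᴴ)).re +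
    (trace (((φ⁻¹ : GL (Fin n) ℂ) : Matrix (Fin n) (Fin n) ℂ)ᴴ *
      ((x⁻¹ : GL (Fin n) ℂ) : Matrix (Fin n) (Fin n) ℂ) *
      ((φ⁻¹ : GL (Fin n) ℂ) : Matrix (Fin n) (Fin n) ℂ))).re

theorem Fc_continuous (φ : GL (Fin n) ℂ) : Continuous (Fc φ) := by
  unfold Fc
  refine Continuous.add ?_ ?_
  · refine Complex.continuous_re.comp (Continuous.matrix_trace ?_)
    exact (continuous_const.matrix_mul Units.continuous_val).matrix_mul continuous_const
  · refine Complex.continuous_re.comp (Continuous.matrix_trace ?_)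
    exact (continuous_const.matrix_mul Units.continuous_coe_inv).matrix_mul continuous_const

theorem trace_bound_aux (P M Q : Matrix (Fin n) (Fin n) ℂ) (B : ℝ) (hB : 0 ≤ B)
    (hP : ∀ i j, ‖P i j‖ ≤ B) (hQ : ∀ i j, ‖Q i j‖ ≤ B) :
    (trace (P * M * Q)).re ≤ n * (B * B * ∑ l, ∑ k, ‖M k l‖) := by
  have h1 : (trace (P * M * Q)).re ≤ ‖trace (P * M * Q)‖ := Complex.re_le_norm _
  refine h1.trans ?_
  have h2 : ∀ i, ‖(P * M * Q) i i‖ ≤ B * B * ∑ l, ∑ k, ‖M k l‖ := by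
    intro i
    rw [mul_apply]
    calc ‖∑ l, (P * M) i l * Q l i‖ ≤ ∑ l, ‖(P * M) i l * Q l i‖ := norm_sum_le _ _
      _ ≤ ∑ l, (B * B * ∑ k, ‖M k l‖) := by
          refine Finset.sum_le_sum fun l _ => ?_
          rw [norm_mul, mul_apply]
          have h3 : ‖∑ k, P i k * M k l‖ ≤ B * ∑ k, ‖M k l‖ := by
            rw [Finset.mul_sum]
            refine (norm_sum_le _ _).trans (Finset.sum_le_sum fun k _ => ?_)
            rw [norm_mul]
            exact mul_le_mul_of_nonneg_right (hP i k) (norm_nonneg _)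
          calc ‖∑ k, P i k * M k l‖ * ‖Q l i‖ ≤ (B * ∑ k, ‖M k l‖) * B :=
                mul_le_mul h3 (hQ l i) (norm_nonneg _)
                  (mul_nonneg hB (Finset.sum_nonneg fun _ _ => norm_nonneg _))
            _ = _ := by ring
      _ = _ := by rw [← Finset.mul_sum]
  rw [trace]
  calc ‖∑ i, (P * M * Q).diag i‖ ≤ ∑ i : Fin n, ‖(P * M * Q).diag i‖ := norm_sum_le _ _
    _ ≤ ∑ i : Fin n, (B * B * ∑ l, ∑ k, ‖M k l‖) := Finset.sum_le_sum fun i _ => h2 i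
    _ = _ := by rw [Finset.sum_const, Finset.card_univ, Fintype.card_fin, nsmul_eq_mul]

/-- Frobenius square -/
theorem frob_aux (A : Matrix (Fin n) (Fin n) ℂ) : (trace (Aᴴ * A)).re = ∑ j, ∑ i, ‖A i j‖ ^ 2 := by
  rw [trace, Complex.re_sum]
  refine Finset.sum_congr rfl fun i _ => ?_
  rw [diag_apply, mul_apply, Complex.re_sum]
  refine Finset.sum_congr rfl fun k _ => ?_
  rw [conjTranspose_apply, Complex.star_def, mul_comm, Complex.mul_conj, Complex.ofReal_re,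
    Complex.normSq_eq_norm_sq]

/-- the midpoint inequality -/
theorem midpoint_aux (φ g w : GL (Fin n) ℂ) (hg : (g : Matrix (Fin n) (Fin n) ℂ).IsHermitian)
    (hw : (w : Matrix (Fin n) (Fin n) ℂ).IsHermitian) :
    Fc φ (g * g) + Fc φ (g * (w * w) * g) - 2 * Fc φ (g * w * g) =
      (∑ j, ∑ i, ‖((1 - (w : Matrix (Fin n) (Fin n) ℂ)) * (g : Matrix (Fin n) (Fin n) ℂ) *
        (φ : Matrix (Fin n) (Fin n) ℂ)ᴴ) i j‖ ^ 2) +
      (∑ j, ∑ i, ‖((1 - ((w⁻¹ : GL (Fin n) ℂ) : Matrix (Fin n) (Fin n) ℂ)) *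
        ((g⁻¹ : GL (Fin n) ℂ) : Matrix (Fin n) (Fin n) ℂ) *
        ((φ⁻¹ : GL (Fin n) ℂ) : Matrix (Fin n) (Fin n) ℂ)) i j‖ ^ 2) := by
  have key : ∀ (P Q g w : Matrix (Fin n) (Fin n) ℂ), g.IsHermitian → w.IsHermitian → P = Qᴴ →
      (trace (P * (g * g) * Q)).re + (trace (P * (g * (w * w) * g) * Q)).re -
        2 * (trace (P * (g * w * g) * Q)).re = ∑ j, ∑ i, ‖((1 - w) * g * Q) i j‖ ^ 2 := by
    intro P Q g w hg hw hPQ
    rw [← frob_aux]
    have h1 : ((1 - w) * g * Q)ᴴ = P * g * (1 - w) := by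
      rw [conjTranspose_mul, conjTranspose_mul, hg.eq, conjTranspose_sub, conjTranspose_one,
        hw.eq, hPQ, Matrix.mul_assoc]
    rw [h1]
    have h2 : P * g * (1 - w) * ((1 - w) * g * Q) =
        P * (g * g) * Q + P * (g * (w * w) * g) * Q - 2 • (P * (g * w * g) * Q) := by
      noncomm_ring
    rw [h2, trace_sub, trace_add, trace_smul]
    simp
  have h1 := key (φ : Matrix (Fin n) (Fin n) ℂ) ((φ : Matrix (Fin n) (Fin n) ℂ)ᴴ) g w hg hw
    (by rw [conjTranspose_conjTranspose])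
  have hgi : ((g⁻¹ : GL (Fin n) ℂ) : Matrix (Fin n) (Fin n) ℂ).IsHermitian := by
    rw [Matrix.coe_units_inv]
    exact hg.inv
  have hwi : ((w⁻¹ : GL (Fin n) ℂ) : Matrix (Fin n) (Fin n) ℂ).IsHermitian := by
    rw [Matrix.coe_units_inv]
    exact hw.inv
  have h2 := key (((φ⁻¹ : GL (Fin n) ℂ) : Matrix (Fin n) (Fin n) ℂ)ᴴ)
    ((φ⁻¹ : GL (Fin n) ℂ) : Matrix (Fin n) (Fin n) ℂ) _ _ hgi hwi rfl
  rw [← h1, ← h2]
  unfold Fc
  simp only [_root_.mul_inv_rev, Units.val_mul, Matrix.mul_assoc]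
  ring

theorem lower_aux (D Q R : Matrix (Fin n) (Fin n) ℂ) (B : ℝ) (hB : 0 < B) (hQR : Q * R = 1)
    (hR : ∀ i j, ‖R i j‖ ≤ B) (i j : Fin n) :
    ‖D i j‖ ^ 2 / (n * B ^ 2) ≤ ∑ j, ∑ i, ‖(D * Q) i j‖ ^ 2 := by
  have hn : (0 : ℝ) < n := by
    have := i.pos
    exact_mod_cast this
  have h1 : D i j = ∑ k, (D * Q) i k * R k j := by
    rw [← mul_apply, Matrix.mul_assoc, hQR, Matrix.mul_one]
  have h2 : ‖D i j‖ ≤ B * ∑ k, ‖(D * Q) i k‖ := by
    rw [h1, Finset.mul_sum]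
    refine (norm_sum_le _ _).trans (Finset.sum_le_sum fun k _ => ?_)
    rw [norm_mul, mul_comm]
    exact mul_le_mul_of_nonneg_right (hR k j) (norm_nonneg _)
  have h3 : (∑ k, ‖(D * Q) i k‖) ^ 2 ≤ n * ∑ k, ‖(D * Q) i k‖ ^ 2 := by
    have := sq_sum_le_card_mul_sum_sq (s := (Finset.univ : Finset (Fin n)))
      (f := fun k => ‖(D * Q) i k‖)
    rwa [Finset.card_univ, Fintype.card_fin] at this
  have h4 : ∑ k, ‖(D * Q) i k‖ ^ 2 ≤ ∑ j, ∑ i, ‖(D * Q) i j‖ ^ 2 := by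
    refine Finset.sum_le_sum fun k _ => ?_
    exact Finset.single_le_sum (f := fun i => ‖(D * Q) i k‖ ^ 2) (fun _ _ => sq_nonneg _)
      (Finset.mem_univ i)
  have h5 : ‖D i j‖ ^ 2 ≤ B ^ 2 * (n * ∑ k, ‖(D * Q) i k‖ ^ 2) := by
    calc ‖D i j‖ ^ 2 ≤ (B * ∑ k, ‖(D * Q) i k‖) ^ 2 := pow_le_pow_left₀ (norm_nonneg _) h2 2
      _ = B ^ 2 * (∑ k, ‖(D * Q) i k‖) ^ 2 := by ring
      _ ≤ _ := mul_le_mul_of_nonneg_left h3 (sq_nonneg _)
  rw [div_le_iff₀ (by positivity)]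
  calc ‖D i j‖ ^ 2 ≤ B ^ 2 * (n * ∑ k, ‖(D * Q) i k‖ ^ 2) := h5
    _ ≤ B ^ 2 * (n * ∑ j, ∑ i, ‖(D * Q) i j‖ ^ 2) := by
        refine mul_le_mul_of_nonneg_left ?_ (sq_nonneg _)
        exact mul_le_mul_of_nonneg_left h4 hn.le
    _ = _ := by ring

/-- the admissible positive elements -/
def Xset (G : Subgroup (GL (Fin n) ℂ)) (S : Set (Matrix (Fin n) (Fin n) ℂ)) :
    Set (GL (Fin n) ℂ) :=
  {x | x ∈ G ∧ (x : Matrix (Fin n) (Fin n) ℂ).PosDef ∧
    ∀ a ∈ S, Commute a (x : Matrix (Fin n) (Fin n) ℂ)}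

theorem compact_aux {G : Subgroup (GL (Fin n) ℂ)} (hZ : ZariskiClosed G) (hdc : DiagClosed G)
    (S : Set (Matrix (Fin n) (Fin n) ℂ)) (c : ℝ) :
    IsCompact {x | x ∈ Xset G S ∧ (trace (x : Matrix (Fin n) (Fin n) ℂ)).re ≤ c ∧
      (trace ((x⁻¹ : GL (Fin n) ℂ) : Matrix (Fin n) (Fin n) ℂ)).re ≤ c} := by
  have hK : IsCompact {A : Matrix (Fin n) (Fin n) ℂ | ∀ i j, ‖A i j‖ ≤ c} := by
    have h1 : IsCompact (Set.pi Set.univ fun _ : Fin n => Set.pi Set.univ fun _ : Fin n =>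
        Metric.closedBall (0 : ℂ) c) :=
      isCompact_univ_pi fun _ => isCompact_univ_pi fun _ => isCompact_closedBall 0 c
    have h2 : (Set.pi Set.univ fun _ : Fin n => Set.pi Set.univ fun _ : Fin n =>
        Metric.closedBall (0 : ℂ) c) = {A : Fin n → Fin n → ℂ | ∀ i j, ‖A i j‖ ≤ c} := by
      ext A
      simp [Set.mem_pi]
    rw [h2] at h1
    exact h1
  have hcl : Topology.IsClosedEmbedding (Units.embedProduct (Matrix (Fin n) (Fin n) ℂ)) := by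
    refine ⟨Units.isEmbedding_embedProduct, ?_⟩
    have : Set.range (Units.embedProduct (Matrix (Fin n) (Fin n) ℂ)) =
        {p | p.1 * p.2.unop = 1 ∧ p.2.unop * p.1 = 1} := by
      ext p
      constructor
      · rintro ⟨u, rfl⟩
        exact ⟨u.mul_inv, u.inv_mul⟩
      · rintro ⟨h1, h2⟩
        exact ⟨⟨p.1, p.2.unop, h1, h2⟩, rfl⟩
    rw [this]
    refine IsClosed.inter ?_ ?_
    · exact isClosed_eq (continuous_fst.matrix_mul
        (MulOpposite.continuous_unop.comp continuous_snd)) continuous_const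
    · exact isClosed_eq ((MulOpposite.continuous_unop.comp continuous_snd).matrix_mul
        continuous_fst) continuous_const
  have hK2 : IsCompact ({A : Matrix (Fin n) (Fin n) ℂ | ∀ i j, ‖A i j‖ ≤ c} ×ˢ
      (MulOpposite.op '' {A : Matrix (Fin n) (Fin n) ℂ | ∀ i j, ‖A i j‖ ≤ c})) :=
    hK.prod (hK.image MulOpposite.continuous_op)
  refine IsCompact.of_isClosed_subset (hcl.isCompact_preimage hK2) ?_ ?_
  · have hpd : {x : GL (Fin n) ℂ | x ∈ Xset G S ∧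
        (trace (x : Matrix (Fin n) (Fin n) ℂ)).re ≤ c ∧
        (trace ((x⁻¹ : GL (Fin n) ℂ) : Matrix (Fin n) (Fin n) ℂ)).re ≤ c} =
        (G : Set (GL (Fin n) ℂ)) ∩
        {x : GL (Fin n) ℂ | (x : Matrix (Fin n) (Fin n) ℂ)ᴴ = x} ∩
        (⋂ v : Fin n → ℂ, {x : GL (Fin n) ℂ |
          0 ≤ star v ⬝ᵥ ((x : Matrix (Fin n) (Fin n) ℂ) *ᵥ v)}) ∩
        (⋂ a ∈ S, {x : GL (Fin n) ℂ | a * (x : Matrix (Fin n) (Fin n) ℂ) = x * a}) ∩
        {x : GL (Fin n) ℂ | (trace (x : Matrix (Fin n) (Fin n) ℂ)).re ≤ c} ∩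
        {x : GL (Fin n) ℂ |
          (trace ((x⁻¹ : GL (Fin n) ℂ) : Matrix (Fin n) (Fin n) ℂ)).re ≤ c} := by
      ext x
      simp only [Xset, Set.mem_ofPred_eq, Set.mem_inter_iff, SetLike.mem_coe, Set.mem_iInter]
      constructor
      · rintro ⟨⟨h1, h2, h3⟩, h4, h5⟩
        exact ⟨⟨⟨⟨⟨h1, h2.isHermitian⟩, h2.posSemidef.dotProduct_mulVec_nonneg⟩,
          fun a ha => h3 a ha⟩, h4⟩, h5⟩
      · rintro ⟨⟨⟨⟨⟨h1, h2⟩, h3⟩, h4⟩, h5⟩, h6⟩
        refine ⟨⟨h1, ?_, fun a ha => h4 a ha⟩, h5, h6⟩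
        exact (PosSemidef.of_dotProduct_mulVec_nonneg h2 h3).posDef_iff_isUnit.2 x.isUnit
    rw [hpd]
    refine ((((((isClosed_aux hZ).inter ?_).inter ?_).inter ?_).inter ?_).inter ?_)
    · exact isClosed_eq Units.continuous_val.matrix_conjTranspose Units.continuous_val
    · refine isClosed_iInter fun v => ?_
      refine isClosed_le continuous_const ?_
      exact continuous_const.dotProduct (Units.continuous_val.matrix_mulVec continuous_const)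
    · refine isClosed_biInter fun a _ => ?_
      exact isClosed_eq (continuous_const.matrix_mul Units.continuous_val)
        (Units.continuous_val.matrix_mul continuous_const)
    · exact isClosed_le (Complex.continuous_re.comp Units.continuous_val.matrix_trace)
        continuous_const
    · exact isClosed_le (Complex.continuous_re.comp Units.continuous_coe_inv.matrix_trace)
        continuous_const
  · rintro x ⟨⟨hxG, hxp, -⟩, hx1, hx2⟩
    obtain ⟨g, hgG, hgp, hgg, -⟩ := exists_sqrt_aux hdc x hxG hxp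
    have hi : (x⁻¹ : GL (Fin n) ℂ) = g⁻¹ * g⁻¹ := by rw [← hgg, _root_.mul_inv_rev]
    have hgi : ((g⁻¹ : GL (Fin n) ℂ) : Matrix (Fin n) (Fin n) ℂ).IsHermitian := by
      rw [Matrix.coe_units_inv]
      exact hgp.isHermitian.inv
    refine ⟨?_, ?_⟩
    · intro i j
      rw [← hgg] at hx1
      rw [← hgg]
      exact (entry_le_trace_aux _ hgp.isHermitian i j).trans hx1
    · refine ⟨((x⁻¹ : GL (Fin n) ℂ) : Matrix (Fin n) (Fin n) ℂ), ?_, rfl⟩
      intro i j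
      rw [hi] at hx2 ⊢
      exact (entry_le_trace_aux _ hgi i j).trans hx2

theorem congr_posDef_aux (g x : GL (Fin n) ℂ) (hx : (x : Matrix (Fin n) (Fin n) ℂ).PosDef) :
    ((g : Matrix (Fin n) (Fin n) ℂ) * (x : Matrix (Fin n) (Fin n) ℂ) *
      (g : Matrix (Fin n) (Fin n) ℂ)ᴴ).PosDef :=
  (IsUnit.posDef_star_right_conjugate_iff (U := (g : Matrix (Fin n) (Fin n) ℂ)) g.isUnit).2 hx

theorem midpoint_exists_aux {G : Subgroup (GL (Fin n) ℂ)} (hdc : DiagClosed G)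
    (S : Set (Matrix (Fin n) (Fin n) ℂ)) (x y : GL (Fin n) ℂ) (hx : x ∈ Xset G S)
    (hy : y ∈ Xset G S) :
    ∃ g w : GL (Fin n) ℂ, (g : Matrix (Fin n) (Fin n) ℂ).IsHermitian ∧
      (w : Matrix (Fin n) (Fin n) ℂ).IsHermitian ∧ g * g = x ∧ g * (w * w) * g = y ∧
      g * w * g ∈ Xset G S := by
  obtain ⟨hxG, hxp, hxS⟩ := hx
  obtain ⟨hyG, hyp, hyS⟩ := hy
  obtain ⟨g, hgG, hgp, hgg, hgS⟩ := exists_sqrt_aux hdc x hxG hxp
  have hgh : (g : Matrix (Fin n) (Fin n) ℂ)ᴴ = g := hgp.isHermitian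
  have hgih : ((g⁻¹ : GL (Fin n) ℂ) : Matrix (Fin n) (Fin n) ℂ)ᴴ =
      ((g⁻¹ : GL (Fin n) ℂ) : Matrix (Fin n) (Fin n) ℂ) := by
    rw [Matrix.coe_units_inv]
    exact hgp.isHermitian.inv
  have hy'p : ((g⁻¹ * y * g⁻¹ : GL (Fin n) ℂ) : Matrix (Fin n) (Fin n) ℂ).PosDef := by
    have := congr_posDef_aux g⁻¹ y hyp
    rw [hgih] at this
    simpa [Units.val_mul] using this
  obtain ⟨w, hwG, hwp, hww, hwS⟩ := exists_sqrt_aux hdc (g⁻¹ * y * g⁻¹)
    (G.mul_mem (G.mul_mem (G.inv_mem hgG) hyG) (G.inv_mem hgG)) hy'p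
  refine ⟨g, w, hgp.isHermitian, hwp.isHermitian, hgg, ?_, ?_, ?_, ?_⟩
  · rw [hww]; group
  · exact G.mul_mem (G.mul_mem hgG hwG) hgG
  · have := congr_posDef_aux g w hwp
    rw [hgh] at this
    simpa [Units.val_mul] using this
  · intro a ha
    have h1 : Commute a (g : Matrix (Fin n) (Fin n) ℂ) := hgS a (hxS a ha)
    have h1i : Commute a ((g⁻¹ : GL (Fin n) ℂ) : Matrix (Fin n) (Fin n) ℂ) :=
      h1.units_inv_right
    have h2 : Commute a (w : Matrix (Fin n) (Fin n) ℂ) := by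
      refine hwS a ?_
      rw [Units.val_mul, Units.val_mul]
      exact (h1i.mul_right (hyS a ha)).mul_right h1i
    rw [Units.val_mul, Units.val_mul]
    exact (h1.mul_right h2).mul_right h1

theorem Fc_mul_aux (φ φ' x : GL (Fin n) ℂ) : Fc φ (φ' * x * star φ') = Fc (φ * φ') x := by
  unfold Fc
  have h1 : ((φ' * x * star φ' : GL (Fin n) ℂ)⁻¹ : GL (Fin n) ℂ) =
      star (φ'⁻¹) * x⁻¹ * φ'⁻¹ := by
    rw [_root_.mul_inv_rev, _root_.mul_inv_rev, mul_assoc]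
    rfl
  rw [h1]
  congr 2
  · congr 1
    rw [Units.val_mul, Units.val_mul, Units.val_mul, Units.coe_star, star_eq_conjTranspose,
      conjTranspose_mul]
    simp only [Matrix.mul_assoc]
  · congr 1
    rw [_root_.mul_inv_rev, Units.val_mul, Units.val_mul, Units.val_mul, Units.coe_star,
      star_eq_conjTranspose, conjTranspose_mul]
    simp only [Matrix.mul_assoc]

/-- fixed points of bounded subgroups -/
theorem cartan_aux {G : Subgroup (GL (Fin n) ℂ)} (hZ : ZariskiClosed G) (hdc : DiagClosed G)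
    (hstar : ∀ g ∈ G, star g ∈ G) (S : Set (Matrix (Fin n) (Fin n) ℂ))
    (Φ : Subgroup (GL (Fin n) ℂ)) (hΦ : Φ ≤ G) (B : ℝ)
    (hB : ∀ φ ∈ Φ, ∀ i j, ‖(φ : Matrix (Fin n) (Fin n) ℂ) i j‖ ≤ B)
    (hY : ∀ φ ∈ Φ, ∀ x : Matrix (Fin n) (Fin n) ℂ, x.PosDef → (∀ a ∈ S, Commute a x) →
      ∀ a ∈ S, Commute a ((φ : Matrix (Fin n) (Fin n) ℂ) * x *
        (φ : Matrix (Fin n) (Fin n) ℂ)ᴴ)) :
    ∃ x ∈ Xset G S, ∀ φ ∈ Φ, φ * x * star φ = x := by
  classical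
  set B' : ℝ := max B 1 with hB'
  have hB'0 : 0 < B' := lt_of_lt_of_le one_pos (le_max_right _ _)
  have hB1 : ∀ φ ∈ Φ, ∀ i j, ‖(φ : Matrix (Fin n) (Fin n) ℂ) i j‖ ≤ B' :=
    fun φ hφ i j => (hB φ hφ i j).trans (le_max_left _ _)
  have hB2 : ∀ φ ∈ Φ, ∀ i j, ‖((φ : Matrix (Fin n) (Fin n) ℂ)ᴴ) i j‖ ≤ B' := by
    intro φ hφ i j
    rw [conjTranspose_apply, norm_star]
    exact hB1 φ hφ j i
  have hbdd : ∀ x : GL (Fin n) ℂ, BddAbove (Set.range fun φ : Φ => Fc (φ : GL (Fin n) ℂ) x) := by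
    intro x
    refine ⟨n * (B' * B' * ∑ l, ∑ k, ‖(x : Matrix (Fin n) (Fin n) ℂ) k l‖) +
      n * (B' * B' * ∑ l, ∑ k, ‖((x⁻¹ : GL (Fin n) ℂ) : Matrix (Fin n) (Fin n) ℂ) k l‖), ?_⟩
    rintro _ ⟨φ, rfl⟩
    exact add_le_add (trace_bound_aux _ _ _ B' hB'0.le (hB1 _ φ.2) (hB2 _ φ.2))
      (trace_bound_aux _ _ _ B' hB'0.le (hB2 _ (Φ.inv_mem φ.2)) (hB1 _ (Φ.inv_mem φ.2)))
  set ψ : GL (Fin n) ℂ → ℝ := fun x => ⨆ φ : Φ, Fc (φ : GL (Fin n) ℂ) x with hψ
  have hle : ∀ φ ∈ Φ, ∀ x, Fc φ x ≤ ψ x := fun φ hφ x => le_ciSup (hbdd x) ⟨φ, hφ⟩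
  have hFc1 : ∀ x : GL (Fin n) ℂ, Fc 1 x = (trace (x : Matrix (Fin n) (Fin n) ℂ)).re +
      (trace ((x⁻¹ : GL (Fin n) ℂ) : Matrix (Fin n) (Fin n) ℂ)).re := by
    intro x
    simp [Fc]
  have h1X : (1 : GL (Fin n) ℂ) ∈ Xset G S :=
    ⟨G.one_mem, by simpa using PosDef.one, fun a _ => by simp⟩
  have hpos : ∀ x ∈ Xset G S, 0 ≤ (trace (x : Matrix (Fin n) (Fin n) ℂ)).re ∧
      0 ≤ (trace ((x⁻¹ : GL (Fin n) ℂ) : Matrix (Fin n) (Fin n) ℂ)).re := by
    intro x hx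
    refine ⟨(Complex.nonneg_iff.1 hx.2.1.posSemidef.trace_nonneg).1, ?_⟩
    rw [Matrix.coe_units_inv]
    exact (Complex.nonneg_iff.1 hx.2.1.inv.posSemidef.trace_nonneg).1
  have hmem : ∀ x ∈ Xset G S, ψ x ≤ ψ 1 →
      x ∈ {x | x ∈ Xset G S ∧ (trace (x : Matrix (Fin n) (Fin n) ℂ)).re ≤ ψ 1 ∧
      (trace ((x⁻¹ : GL (Fin n) ℂ) : Matrix (Fin n) (Fin n) ℂ)).re ≤ ψ 1} := by
    intro x hx hxc
    have h1 := hle 1 Φ.one_mem x
    rw [hFc1] at h1
    obtain ⟨h2, h3⟩ := hpos x hx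
    exact ⟨hx, by linarith, by linarith⟩
  obtain ⟨x₀, hx₀, hmin⟩ := LowerSemicontinuousOn.exists_isMinOn (f := ψ)
    ⟨1, hmem 1 h1X le_rfl⟩ (compact_aux hZ hdc S (ψ 1))
    (lowerSemicontinuousOn_ciSup (fun x _ => hbdd x)
      fun φ => (Fc_continuous _).lowerSemicontinuous.lowerSemicontinuousOn _)
  have hx₀X : x₀ ∈ Xset G S := hx₀.1
  have hx₀1 : ψ x₀ ≤ ψ 1 := hmin (hmem 1 h1X le_rfl)
  have hminX : ∀ x ∈ Xset G S, ψ x₀ ≤ ψ x := by
    intro x hx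
    by_cases hxc : ψ x ≤ ψ 1
    · exact hmin (hmem x hx hxc)
    · exact hx₀1.trans (not_le.1 hxc).le
  refine ⟨x₀, hx₀X, fun φ' hφ' => ?_⟩
  set y : GL (Fin n) ℂ := φ' * x₀ * star φ' with hy
  have hyX : y ∈ Xset G S := by
    refine ⟨G.mul_mem (G.mul_mem (hΦ hφ') hx₀X.1) (hstar _ (hΦ hφ')), ?_, ?_⟩
    · have := congr_posDef_aux φ' x₀ hx₀X.2.1
      simpa [hy, Units.val_mul, star_eq_conjTranspose] using this
    · intro a ha
      have := hY φ' hφ' x₀ hx₀X.2.1 hx₀X.2.2 a ha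
      simpa [hy, Units.val_mul, star_eq_conjTranspose] using this
  have hψy : ψ y ≤ ψ x₀ := by
    have : Nonempty Φ := ⟨1⟩
    refine ciSup_le fun φ => ?_
    rw [hy, Fc_mul_aux]
    exact hle _ (Φ.mul_mem φ.2 hφ') x₀
  by_contra hne
  obtain ⟨g, w, hg, hw, hgg, hgwg, hzX⟩ := midpoint_exists_aux hdc S x₀ y hx₀X hyX
  have hD : (1 - (w : Matrix (Fin n) (Fin n) ℂ)) * (g : Matrix (Fin n) (Fin n) ℂ) ≠ 0 := by
    intro h
    apply hne
    have h1 : (1 - (w : Matrix (Fin n) (Fin n) ℂ)) = 0 := by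
      have : (1 - (w : Matrix (Fin n) (Fin n) ℂ)) * (g : Matrix (Fin n) (Fin n) ℂ) *
          ((g⁻¹ : GL (Fin n) ℂ) : Matrix (Fin n) (Fin n) ℂ) = 0 := by rw [h, Matrix.zero_mul]
      rwa [Matrix.mul_assoc, Units.mul_inv, Matrix.mul_one] at this
    have h2 : w = 1 := by
      apply Units.ext
      rw [Units.val_one]
      exact (sub_eq_zero.1 h1).symm
    rw [h2] at hgwg
    rw [← hgwg, ← hgg]
    group
  obtain ⟨i, j, hij⟩ : ∃ i j, ((1 - (w : Matrix (Fin n) (Fin n) ℂ)) *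
      (g : Matrix (Fin n) (Fin n) ℂ)) i j ≠ 0 := by
    by_contra h
    push Not at h
    exact hD (Matrix.ext h)
  set D := (1 - (w : Matrix (Fin n) (Fin n) ℂ)) * (g : Matrix (Fin n) (Fin n) ℂ) with hDdef
  have hn : (0 : ℝ) < n := by
    have := i.pos
    exact_mod_cast this
  set c₀ : ℝ := ‖D i j‖ ^ 2 / (n * B' ^ 2) with hc₀
  have hc₀pos : 0 < c₀ := by
    have : 0 < ‖D i j‖ := norm_pos_iff.2 hij
    positivity
  have hz : ψ (g * w * g) ≤ ψ x₀ - c₀ / 2 := by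
    have : Nonempty Φ := ⟨1⟩
    refine ciSup_le fun φ => ?_
    have h1 := midpoint_aux (φ : GL (Fin n) ℂ) g w hg hw
    rw [hgg, hgwg] at h1
    have h2 : c₀ ≤ ∑ j, ∑ i, ‖(D * ((φ : GL (Fin n) ℂ) : Matrix (Fin n) (Fin n) ℂ)ᴴ) i j‖ ^ 2 := by
      refine lower_aux D _ (((φ⁻¹ : Φ) : GL (Fin n) ℂ) : Matrix (Fin n) (Fin n) ℂ)ᴴ B' hB'0 ?_
        (hB2 _ (φ⁻¹).2) i j
      rw [← conjTranspose_mul, Subgroup.coe_inv, Units.inv_mul, conjTranspose_one]
    have h3 : 0 ≤ ∑ j, ∑ i, ‖((1 - ((w⁻¹ : GL (Fin n) ℂ) : Matrix (Fin n) (Fin n) ℂ)) *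
        ((g⁻¹ : GL (Fin n) ℂ) : Matrix (Fin n) (Fin n) ℂ) *
        (((φ : GL (Fin n) ℂ)⁻¹ : GL (Fin n) ℂ) : Matrix (Fin n) (Fin n) ℂ)) i j‖ ^ 2 :=
      Finset.sum_nonneg fun _ _ => Finset.sum_nonneg fun _ _ => sq_nonneg _
    have h4 := hle φ φ.2 x₀
    have h5 := hle φ φ.2 y
    linarith
  have := hminX _ hzX
  linarith

theorem cartan_of_diag {G : Subgroup (GL (Fin n) ℂ)} (hZ : ZariskiClosed G)
    (hdc : DiagClosed G) (hstar : ∀ A, InG G A → InG G Aᴴ)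
    (S : Set (Matrix (Fin n) (Fin n) ℂ))
    (Φ : Subgroup (GL (Fin n) ℂ)) (hΦ : Φ ≤ G) (B : ℝ)
    (hB : ∀ φ ∈ Φ, ∀ i j, ‖(φ : Matrix (Fin n) (Fin n) ℂ) i j‖ ≤ B)
    (hY : ∀ φ ∈ Φ, ∀ x : Matrix (Fin n) (Fin n) ℂ, x.PosDef → (∀ a ∈ S, Commute a x) →
      ∀ a ∈ S, Commute a ((φ : Matrix (Fin n) (Fin n) ℂ) * x *
        (φ : Matrix (Fin n) (Fin n) ℂ)ᴴ)) :
    ∃ r : Matrix (Fin n) (Fin n) ℂ, InG G r ∧ r.PosDef ∧ (∀ a ∈ S, Commute a r) ∧
      ∀ φ ∈ Φ, (φ : Matrix (Fin n) (Fin n) ℂ) * (r * r) *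
        (φ : Matrix (Fin n) (Fin n) ℂ)ᴴ = r * r := by
  have hstar' : ∀ g ∈ G, star g ∈ G := by
    intro g hg
    obtain ⟨g', hg', he⟩ := hstar _ ⟨g, hg, rfl⟩
    have : g' = star g := by
      apply Units.ext
      rw [he, Units.coe_star, star_eq_conjTranspose]
    rwa [this] at hg'
  obtain ⟨x, hx, hfix⟩ := cartan_aux hZ hdc hstar' S Φ hΦ B hB hY
  obtain ⟨g, hgG, hgp, hgg, hgS⟩ := exists_sqrt_aux hdc x hx.1 hx.2.1
  refine ⟨g, ⟨g, hgG, rfl⟩, hgp, fun a ha => hgS a (hx.2.2 a ha), fun φ hφ => ?_⟩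
  have h1 := congrArg (fun u : GL (Fin n) ℂ => (u : Matrix (Fin n) (Fin n) ℂ)) (hfix φ hφ)
  simp only [Units.val_mul, Units.coe_star, star_eq_conjTranspose] at h1
  rw [← Units.val_mul, hgg]
  exact h1

end Cartan

end Pool.Agent.Lib.MP_a9945b_al
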