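import Mathlib
import Pool.Agent.Lib.MP_a9945b_al.Basic

set_option autoImplicit false

noncomputable section

namespace Pool.Agent.Lib.MP_a9945b_al

open Matrix
open scoped ComplexOrder

namespace EP

/-! ### Exponential polynomials -/

/-- the shift on sequences -/
def shift : Module.End ℂ (ℕ → ℂ) where
  toFun v k := v (k + 1)
  map_add' _ _ := rfl
  map_smul' _ _ := rfl

/-- the sequence `μ ^ k * p k` -/
def seq (μ : ℂ) (p : Polynomial ℂ) : ℕ → ℂ := fun k => μ ^ k * p.eval (k : ℂ)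

lemma shift_sub_seq (μ : ℂ) (p : Polynomial ℂ) :
    (shift - μ • (1 : Module.End ℂ (ℕ → ℂ))) (seq μ p) =
      seq μ (Polynomial.C μ * (Polynomial.taylor 1 p - p)) := by
  funext k
  simp only [LinearMap.sub_apply, LinearMap.smul_apply, Module.End.one_apply, Pi.sub_apply,
    Pi.smul_apply, smul_eq_mul, seq, shift, LinearMap.coe_mk, AddHom.coe_mk,
    Polynomial.eval_mul, Polynomial.eval_C, Polynomial.eval_sub, Polynomial.taylor_eval]
  push_cast
  ring

lemma degree_step (μ : ℂ) (p : Polynomial ℂ) (n : ℕ) (h : p.degree < (n + 1 : ℕ)) :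
    (Polynomial.C μ * (Polynomial.taylor 1 p - p)).degree < (n : ℕ) := by
  have h1 : (Polynomial.taylor 1 p - p).degree < (n : ℕ) := by
    by_cases hp : p = 0
    · simp [hp]
    · have h2 := Polynomial.degree_sub_lt_left (p := Polynomial.taylor 1 p) (q := p)
        (Polynomial.degree_taylor p 1) (by simpa using hp) (by simp)
      rw [Polynomial.degree_taylor] at h2
      have h3 : p.degree ≤ (n : ℕ) := by
        rw [Polynomial.degree_eq_natDegree hp] at h ⊢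
        exact_mod_cast Nat.lt_succ_iff.mp (by exact_mod_cast h)
      exact lt_of_lt_of_le h2 h3
  by_cases hμ : μ = 0
  · simp [hμ]
  · rwa [Polynomial.degree_C_mul hμ]

lemma pow_seq (μ : ℂ) (n : ℕ) : ∀ p : Polynomial ℂ, p.degree < (n : ℕ) →
    ((shift - μ • (1 : Module.End ℂ (ℕ → ℂ))) ^ n) (seq μ p) = 0 := by
  induction n with
  | zero =>
    intro p hp
    have : p = 0 := by
      rw [← Polynomial.degree_eq_bot]
      exact Nat.WithBot.lt_zero_iff.mp (by exact_mod_cast hp)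
    funext k
    simp [this, seq]
  | succ n ih =>
    intro p hp
    rw [pow_succ, Module.End.mul_apply, shift_sub_seq]
    exact ih _ (degree_step μ p n hp)

lemma seq_mem (μ : ℂ) (p : Polynomial ℂ) : seq μ p ∈ shift.maxGenEigenspace μ := by
  rw [Module.End.mem_maxGenEigenspace]
  refine ⟨p.natDegree + 1, pow_seq μ _ p ?_⟩
  exact lt_of_le_of_lt Polynomial.degree_le_natDegree (by exact_mod_cast Nat.lt_succ_self _)

lemma sum_seq_eq_zero (s : Finset ℂ) (p : ℂ → Polynomial ℂ) (hs : (0 : ℂ) ∉ s)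
    (h : ∀ k : ℕ, ∑ μ ∈ s, μ ^ k * (p μ).eval (k : ℂ) = 0) : ∀ μ ∈ s, p μ = 0 := by
  have hind := Module.End.independent_maxGenEigenspace shift
  rw [iSupIndep_iff_finsetSum_eq_zero_imp_eq_zero] at hind
  have h1 := hind s (fun μ => seq μ (p μ)) (fun μ _ => seq_mem μ (p μ)) (by
    funext k
    rw [Finset.sum_apply]
    exact h k)
  intro μ hμ
  have h2 := h1 μ hμ
  have hμ0 : μ ≠ 0 := fun h0 => hs (h0 ▸ hμ)
  refine Polynomial.eq_zero_of_infinite_isRoot _ ?_
  refine Set.Infinite.mono (s := Set.range (fun k : ℕ => (k : ℂ))) ?_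
    (Set.infinite_range_of_injective Nat.cast_injective)
  rintro _ ⟨k, rfl⟩
  have h3 := congrFun h2 k
  simp only [seq, Pi.zero_apply, mul_eq_zero] at h3
  rcases h3 with h3 | h3
  · exact absurd h3 (pow_ne_zero _ hμ0)
  · exact h3

/-- evaluation of an exponential polynomial at `(h, z)` -/
def ev (h : ℂˣ →* ℂˣ) (z : ℂ) : MonoidAlgebra (Polynomial ℂ) ℂˣ →+* ℂ :=
  MonoidAlgebra.liftNCRingHom (Polynomial.evalRingHom z) ((Units.coeHom ℂ).comp h)
    (fun _ _ => Commute.all _ _)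

lemma ev_single (h : ℂˣ →* ℂˣ) (z : ℂ) (μ : ℂˣ) (p : Polynomial ℂ) :
    ev h z (MonoidAlgebra.single μ p) = p.eval z * (h μ : ℂ) := by
  simp [ev]

lemma ev_eq_sum (h : ℂˣ →* ℂˣ) (z : ℂ) (a : MonoidAlgebra (Polynomial ℂ) ℂˣ) :
    ev h z a = ∑ μ ∈ a.coeff.support, (a.coeff μ).eval z * (h μ : ℂ) := by
  conv_lhs => rw [← MonoidAlgebra.sum_coeff_single a]
  rw [Finsupp.sum, map_sum]
  exact Finset.sum_congr rfl (fun μ _ => ev_single h z μ _)

lemma vanish (a : MonoidAlgebra (Polynomial ℂ) ℂˣ)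
    (h : ∀ k : ℕ, ev (powMonoidHom k) (k : ℂ) a = 0) : a = 0 := by
  classical
  have h1 := sum_seq_eq_zero (a.coeff.support.image (fun μ : ℂˣ => (μ : ℂ)))
    (fun c => if hc : c = 0 then 0 else a.coeff (Units.mk0 c hc)) (by simp) (by
    intro k
    rw [Finset.sum_image (fun x _ y _ hxy => Units.ext hxy)]
    refine Eq.trans ?_ (h k)
    rw [ev_eq_sum]
    refine Finset.sum_congr rfl (fun μ _ => ?_)
    simp [mul_comm])
  have h2 : a.coeff = 0 := by
    ext1 μ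
    by_contra hne
    have hmem : μ ∈ a.coeff.support := Finsupp.mem_support_iff.mpr hne
    have h3 := h1 (μ : ℂ) (Finset.mem_image_of_mem _ hmem)
    simp at h3
    exact hne h3
  ext1
  exact h2

/-! ### Exponential polynomial functions and matrices -/

/-- evaluation at all points -/
def Ev : MonoidAlgebra (Polynomial ℂ) ℂˣ →+* ((ℂˣ →* ℂˣ) × ℂ → ℂ) :=
  RingHom.pi (fun q => ev q.1 q.2)

/-- the ring of exponential polynomial functions -/
def W : Subring ((ℂˣ →* ℂˣ) × ℂ → ℂ) := Ev.range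

lemma W_single (μ : ℂˣ) (p : Polynomial ℂ) :
    (fun q : (ℂˣ →* ℂˣ) × ℂ => p.eval q.2 * (q.1 μ : ℂ)) ∈ W :=
  ⟨MonoidAlgebra.single μ p, by
    funext q
    exact ev_single q.1 q.2 μ p⟩

lemma W_const (c : ℂ) : (fun _ : (ℂˣ →* ℂˣ) × ℂ => c) ∈ W := by
  simpa using W_single 1 (Polynomial.C c)

/-- all entries are exponential polynomials -/
def MW {n : ℕ} (A : (ℂˣ →* ℂˣ) × ℂ → Matrix (Fin n) (Fin n) ℂ) : Prop :=
  ∀ i j, (fun q => A q i j) ∈ W

variable {n : ℕ}

lemma MW.mul {A B : (ℂˣ →* ℂˣ) × ℂ → Matrix (Fin n) (Fin n) ℂ} (hA : MW A) (hB : MW B) :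
    MW (fun q => A q * B q) := by
  intro i j
  have : (fun q => (A q * B q) i j) = ∑ k, (fun q => A q i k) * (fun q => B q k j) := by
    funext q
    simp [Matrix.mul_apply, Finset.sum_apply]
  rw [this]
  exact Subring.sum_mem _ (fun k _ => Subring.mul_mem _ (hA i k) (hB k j))

lemma MW.const (A : Matrix (Fin n) (Fin n) ℂ) : MW (fun _ => A) := fun i j => W_const (A i j)

lemma MW.diag (d : Fin n → ℂˣ) :
    MW (fun q => diagonal (fun i => ((q.1 (d i) : ℂˣ) : ℂ))) := by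
  intro i j
  by_cases hij : i = j
  · subst hij
    simpa using W_single (d i) 1
  · simpa [diagonal_apply_ne _ hij] using W_const 0

lemma exp_nilpotent {A : Matrix (Fin n) (Fin n) ℂ} {N : ℕ} (h : A ^ N = 0) :
    NormedSpace.exp A = ∑ m ∈ Finset.range N, ((m.factorial : ℂ)⁻¹) • A ^ m := by
  rw [NormedSpace.exp_eq_tsum ℂ]
  refine tsum_eq_sum (fun m hm => ?_)
  rw [Finset.mem_range, not_lt] at hm
  rw [pow_eq_zero_of_le hm h, smul_zero]

lemma MW.exp (L : Matrix (Fin n) (Fin n) ℂ) (hL : IsNilpotent L) (c : ℂ) :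
    MW (fun q => NormedSpace.exp ((c * q.2) • L)) := by
  obtain ⟨N, hN⟩ := hL
  intro i j
  have h1 : (fun q : (ℂˣ →* ℂˣ) × ℂ => NormedSpace.exp ((c * q.2) • L) i j) =
      fun q : (ℂˣ →* ℂˣ) × ℂ => (∑ m ∈ Finset.range N,
        Polynomial.C (((m.factorial : ℂ)⁻¹) * c ^ m * (L ^ m) i j) *
          (Polynomial.X : Polynomial ℂ) ^ m).eval q.2 * ((q.1 1 : ℂˣ) : ℂ) := by
    funext q
    have h2 : ((c * q.2) • L) ^ N = 0 := by rw [smul_pow, hN, smul_zero]
    rw [exp_nilpotent h2, Matrix.sum_apply, Polynomial.eval_finsetSum]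
    simp only [map_one, Units.val_one, mul_one, smul_pow, Matrix.smul_apply, smul_eq_mul,
      Polynomial.eval_mul, Polynomial.eval_C, Polynomial.eval_pow, Polynomial.eval_X]
    refine Finset.sum_congr rfl (fun m _ => ?_)
    ring
  rw [h1]
  exact W_single 1 _

lemma mem_of_MW {G : Subgroup (GL (Fin n) ℂ)} (hZ : ZariskiClosed G)
    (g : (ℂˣ →* ℂˣ) × ℂ → GL (Fin n) ℂ)
    (h1 : MW (fun q => (g q : Matrix (Fin n) (Fin n) ℂ)))
    (h2 : MW (fun q => (((g q)⁻¹ : GL (Fin n) ℂ) : Matrix (Fin n) (Fin n) ℂ)))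
    (h3 : ∀ k : ℕ, g (powMonoidHom k, (k : ℂ)) ∈ G) : ∀ q, g q ∈ G := by
  intro q
  refine hZ (g q) (fun f hf hvan => ?_)
  have h4 : (fun q => f (g q)) ∈ W := by
    refine Algebra.adjoin_induction (p := fun f _ => (fun q => f (g q)) ∈ W) ?_ ?_ ?_ ?_ hf
    · rintro f ⟨i, j, hij | hij⟩
      · rw [hij]; exact h1 i j
      · rw [hij]; exact h2 i j
    · intro r
      exact W_const r
    · intro a b _ _ ha hb
      exact Subring.add_mem _ ha hb
    · intro a b _ _ ha hb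
      exact Subring.mul_mem _ ha hb
  obtain ⟨a, ha⟩ := h4
  have h5 : a = 0 := by
    refine vanish a (fun k => ?_)
    have := congrFun ha (powMonoidHom k, (k : ℂ))
    rw [hvan _ (h3 k)] at this
    exact this
  have h6 := congrFun ha q
  rw [h5, map_zero] at h6
  exact h6.symm

/-- diagonal matrices as elements of `GL_n` -/
def diagGL (d : Fin n → ℂˣ) : GL (Fin n) ℂ where
  val := diagonal (fun i => (d i : ℂ))
  inv := diagonal (fun i => (((d i)⁻¹ : ℂˣ) : ℂ))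
  val_inv := by rw [diagonal_mul_diagonal]; simp
  inv_val := by rw [diagonal_mul_diagonal]; simp

lemma diagGL_pow (d : Fin n → ℂˣ) (k : ℕ) : diagGL (fun i => d i ^ k) = diagGL d ^ k := by
  ext1
  rw [Units.val_pow_eq_pow_val]
  simp [diagGL, Matrix.diagonal_pow]

/-- exponentials as elements of `GL_n` -/
def expGL (L : Matrix (Fin n) (Fin n) ℂ) (z : ℂ) : GL (Fin n) ℂ where
  val := NormedSpace.exp (z • L)
  inv := NormedSpace.exp ((-z) • L)
  val_inv := by
    rw [← Matrix.exp_add_of_commute _ _ ((Commute.refl L).smul_left z |>.smul_right (-z)),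
      ← add_smul, add_neg_cancel, zero_smul, NormedSpace.exp_zero]
  inv_val := by
    rw [← Matrix.exp_add_of_commute _ _ ((Commute.refl L).smul_left (-z) |>.smul_right z),
      ← add_smul, neg_add_cancel, zero_smul, NormedSpace.exp_zero]

lemma expGL_natCast (L : Matrix (Fin n) (Fin n) ℂ) (k : ℕ) :
    expGL L (k : ℂ) = expGL L 1 ^ k := by
  ext1
  rw [Units.val_pow_eq_pow_val]
  show NormedSpace.exp ((k : ℂ) • L) = NormedSpace.exp ((1 : ℂ) • L) ^ k
  rw [one_smul, ← Matrix.exp_nsmul, Nat.cast_smul_eq_nsmul]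

/-- the main density statement -/
lemma mem_general {G : Subgroup (GL (Fin n) ℂ)} (hZ : ZariskiClosed G)
    (P : GL (Fin n) ℂ) (d : Fin n → ℂˣ) (L : Matrix (Fin n) (Fin n) ℂ) (hL : IsNilpotent L)
    (hc : Commute (P * diagGL d * P⁻¹) (expGL L 1))
    (hA : P * diagGL d * P⁻¹ * expGL L 1 ∈ G) (h : ℂˣ →* ℂˣ) (z : ℂ) :
    P * diagGL (fun i => h (d i)) * P⁻¹ * expGL L z ∈ G := by
  refine mem_of_MW hZ (fun q => P * diagGL (fun i => q.1 (d i)) * P⁻¹ * expGL L q.2)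
    ?_ ?_ ?_ (h, z)
  · have := (((MW.const (P : Matrix (Fin n) (Fin n) ℂ)).mul (MW.diag d)).mul
      (MW.const ((P⁻¹ : GL (Fin n) ℂ) : Matrix (Fin n) (Fin n) ℂ))).mul (MW.exp L hL 1)
    have h2 : (fun q : (ℂˣ →* ℂˣ) × ℂ => ((P * diagGL (fun i => q.1 (d i)) * P⁻¹ *
        expGL L q.2 : GL (Fin n) ℂ) : Matrix (Fin n) (Fin n) ℂ)) =
        fun q : (ℂˣ →* ℂˣ) × ℂ => ((P : Matrix (Fin n) (Fin n) ℂ) *
          diagonal (fun i => ((q.1 (d i) : ℂˣ) : ℂ)) *
          ((P⁻¹ : GL (Fin n) ℂ) : Matrix (Fin n) (Fin n) ℂ)) *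
          NormedSpace.exp ((1 * q.2) • L) := by
      funext q
      rw [one_mul]
      rfl
    rw [h2]
    exact this
  · have := (MW.exp L hL (-1)).mul (((MW.const (P : Matrix (Fin n) (Fin n) ℂ)).mul
      (MW.diag (fun i => (d i)⁻¹))).mul
      (MW.const ((P⁻¹ : GL (Fin n) ℂ) : Matrix (Fin n) (Fin n) ℂ)))
    have h2 : (fun q : (ℂˣ →* ℂˣ) × ℂ => (((P * diagGL (fun i => q.1 (d i)) * P⁻¹ *
        expGL L q.2)⁻¹ : GL (Fin n) ℂ) : Matrix (Fin n) (Fin n) ℂ)) =
        fun q : (ℂˣ →* ℂˣ) × ℂ => NormedSpace.exp ((-1 * q.2) • L) *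
          ((P : Matrix (Fin n) (Fin n) ℂ) * diagonal (fun i => ((q.1 (d i)⁻¹ : ℂˣ) : ℂ)) *
          ((P⁻¹ : GL (Fin n) ℂ) : Matrix (Fin n) (Fin n) ℂ)) := by
      funext q
      rw [_root_.mul_inv_rev, _root_.mul_inv_rev, _root_.mul_inv_rev, inv_inv,
        ← mul_assoc P]
      simp only [Units.val_mul]
      have e1 : (((expGL L q.2)⁻¹ : GL (Fin n) ℂ) : Matrix (Fin n) (Fin n) ℂ) =
        NormedSpace.exp ((-1 * q.2) • L) := by rw [neg_one_mul]; rfl
      have e2 : (((diagGL (fun i => q.1 (d i)))⁻¹ : GL (Fin n) ℂ) : Matrix (Fin n) (Fin n) ℂ) =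
        diagonal (fun i => ((q.1 (d i)⁻¹ : ℂˣ) : ℂ)) := by simp only [map_inv]; rfl
      rw [e1, e2]
    rw [h2]
    exact this
  · intro k
    have h3 : P * diagGL (fun i => (powMonoidHom k) (d i)) * P⁻¹ * expGL L (k : ℂ) =
        (P * diagGL d * P⁻¹ * expGL L 1) ^ k := by
      rw [hc.mul_pow, expGL_natCast]
      congr 1
      rw [conj_pow]
      congr 2
      exact diagGL_pow d k
    simp only
    rw [h3]
    exact pow_mem hA k

/-! ### Logarithms of unipotent elements -/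

lemma exp_neg_expand {R : Type*} [CommRing R] [Algebra ℚ R] (w : R) (hw : IsNilpotent w) :
    ∃ r : R, IsNilpotent.exp (-w) = 1 - w + w ^ 2 * r := by
  obtain ⟨N, hN⟩ := hw
  have h1 : (-w) ^ (N + 2) = 0 := by
    rw [pow_add, neg_pow, hN]
    simp
  refine ⟨∑ i ∈ Finset.range N, ((i + 2).factorial : ℚ)⁻¹ • (-w) ^ i, ?_⟩
  rw [IsNilpotent.exp_eq_sum h1, Finset.sum_range_succ', Finset.sum_range_succ', Finset.mul_sum]
  simp only [Nat.factorial, pow_zero]
  have h2 : ∀ i : ℕ, ((-w) ^ (i + 1 + 1) : R) = w ^ 2 * (-w) ^ i := by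
    intro i
    rw [pow_add, pow_add]
    ring
  simp only [h2]
  simp
  ring

lemma exists_log {R : Type*} [CommRing R] [Algebra ℚ R] (x : R) (hx : IsNilpotent x) :
    ∃ l : R, IsNilpotent l ∧ IsNilpotent.exp l = 1 + x := by
  have hdvd : ∀ l : R, x ∣ l → IsNilpotent l := by
    rintro l ⟨y, rfl⟩
    exact (Commute.all x y).isNilpotent_mul_right hx
  have key : ∀ k : ℕ, ∃ l : R, x ∣ l ∧ x ^ (k + 1) ∣ (1 + x) * IsNilpotent.exp (-l) - 1 := by
    intro k
    induction k with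
    | zero =>
      refine ⟨0, dvd_zero _, ?_⟩
      rw [neg_zero, IsNilpotent.exp_zero]
      exact ⟨1, by ring⟩
    | succ k ih =>
      obtain ⟨l, hl, y, hy⟩ := ih
      have hw : x ∣ x ^ (k + 1) * y := Dvd.dvd.mul_right (dvd_pow_self x (Nat.succ_ne_zero k)) y
      refine ⟨l + x ^ (k + 1) * y, dvd_add hl hw, ?_⟩
      obtain ⟨r, hr⟩ := exp_neg_expand (x ^ (k + 1) * y) (hdvd _ hw)
      rw [neg_add, IsNilpotent.exp_add_of_commute (Commute.all _ _) (hdvd _ hl).neg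
        (hdvd _ hw).neg, ← mul_assoc, eq_add_of_sub_eq hy, hr]
      have h3 : (x ^ (k + 1) * y + 1) * (1 - x ^ (k + 1) * y + (x ^ (k + 1) * y) ^ 2 * r) - 1 =
          x ^ (k + 1 + 1) * (x ^ k * y ^ 2 * ((x ^ (k + 1) * y + 1) * r - 1)) := by
        ring
      rw [h3]
      exact dvd_mul_right _ _
  obtain ⟨N, hN⟩ := id hx
  obtain ⟨l, hl, hl2⟩ := key N
  refine ⟨l, hdvd l hl, ?_⟩
  rw [pow_succ, hN, zero_mul, zero_dvd_iff, sub_eq_zero] at hl2
  calc IsNilpotent.exp l = ((1 + x) * IsNilpotent.exp (-l)) * IsNilpotent.exp l := by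
        rw [hl2, one_mul]
    _ = 1 + x := by rw [mul_assoc, IsNilpotent.exp_neg_mul_exp_self (hdvd l hl), mul_one]

lemma jordan_comm {R B : Type*} [CommRing R] [Algebra ℂ R] [Module.Finite ℂ R] [Ring B]
    [Algebra ℂ B] [Algebra ℚ R] (φ : R →ₐ[ℂ] B) (hinj : Function.Injective φ) (a ν σ : R)
    (hν : IsNilpotent ν) (ha : IsUnit (φ a)) (hsum : a = ν + σ) :
    ∃ l : R, IsNilpotent l ∧ IsUnit σ ∧ a = σ * IsNilpotent.exp l := by
  have : IsArtinianRing R := .of_finite ℂ R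
  have ha1 : IsUnit a := by
    refine IsArtinianRing.isUnit_of_mem_nonZeroDivisors ?_
    rw [mem_nonZeroDivisors_iff_right]
    intro x hx
    have h1 : φ x * φ a = 0 := by rw [← map_mul, hx, map_zero]
    have h2 : φ x = 0 := (ha.mul_left_eq_zero).mp h1
    exact hinj (by rw [h2, map_zero])
  have hσ : IsUnit σ := by
    have h1 : σ = a + (-ν) := by rw [hsum]; ring
    rw [h1]
    exact IsNilpotent.isUnit_add_left_of_commute hν.neg ha1 (Commute.all _ _)
  obtain ⟨σ', rfl⟩ := hσ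
  obtain ⟨l, hl, hl2⟩ := exists_log (ν * ((σ'⁻¹ : Rˣ) : R))
    ((Commute.all _ _).isNilpotent_mul_right hν)
  refine ⟨l, hl, σ'.isUnit, ?_⟩
  rw [hl2, hsum, mul_add, mul_one, mul_comm ν, ← mul_assoc, Units.mul_inv, one_mul, add_comm]

lemma exp_map {R : Type*} [CommRing R] [Algebra ℂ R] [Algebra ℚ R] {n : ℕ}
    (φ : R →ₐ[ℂ] Matrix (Fin n) (Fin n) ℂ) (l : R) (hl : IsNilpotent l) :
    NormedSpace.exp (φ l) = φ (IsNilpotent.exp l) := by
  obtain ⟨N, hN⟩ := hl
  have hN2 : (φ l) ^ N = 0 := by rw [← map_pow, hN, map_zero]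
  rw [exp_nilpotent hN2, IsNilpotent.exp_eq_sum hN, map_sum]
  refine Finset.sum_congr rfl (fun m _ => ?_)
  rw [map_rat_smul φ, map_pow, ← Rat.cast_smul_eq_qsmul ℂ]
  push_cast
  rfl

/-! ### Diagonalisation -/

lemma exists_diag {n : ℕ} (f : Module.End ℂ (Fin n → ℂ)) (hf : f.IsSemisimple) :
    ∃ (P : GL (Fin n) ℂ) (d : Fin n → ℂ), LinearMap.toMatrix' f =
      (P : Matrix (Fin n) (Fin n) ℂ) * diagonal d *
        ((P⁻¹ : GL (Fin n) ℂ) : Matrix (Fin n) (Fin n) ℂ) := by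
  classical
  have hint : DirectSum.IsInternal (fun μ : ℂ => f.eigenspace μ) :=
    DirectSum.isInternal_submodule_of_iSupIndep_of_iSup_eq_top f.eigenspaces_iSupIndep
      hf.iSup_eigenspace_eq_top
  let v := fun μ : ℂ => Module.finBasis ℂ (f.eigenspace μ)
  let b0 := hint.collectedBasis v
  let e := Pi.basisFun ℂ (Fin n)
  let b := b0.reindex (b0.indexEquiv e)
  have hb : ∀ j, ∃ c : ℂ, f (b j) = c • b j := by
    intro j
    have h1 := hint.collectedBasis_mem v ((b0.indexEquiv e).symm j)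
    refine ⟨((b0.indexEquiv e).symm j).1, ?_⟩
    rw [Module.Basis.reindex_apply]
    exact Module.End.mem_eigenspace_iff.mp h1
  choose d hd using hb
  let P : GL (Fin n) ℂ := ⟨e.toMatrix b, b.toMatrix e, Module.Basis.toMatrix_mul_toMatrix_flip _ _,
    Module.Basis.toMatrix_mul_toMatrix_flip _ _⟩
  refine ⟨P, d, ?_⟩
  have h2 : LinearMap.toMatrix' f * (P : Matrix (Fin n) (Fin n) ℂ) =
      (P : Matrix (Fin n) (Fin n) ℂ) * diagonal d := by
    ext i j
    rw [mul_diagonal, Matrix.mul_apply]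
    have h3 := congrFun (hd j) i
    have h4 : f (b j) i = ∑ k, LinearMap.toMatrix' f i k * b j k := by
      conv_lhs => rw [← Matrix.toLin'_toMatrix' f]
      rfl
    rw [h4] at h3
    have h5 : ∀ k l, (P : Matrix (Fin n) (Fin n) ℂ) k l = b l k := by
      intro k l
      show e.toMatrix b k l = b l k
      rw [Module.Basis.toMatrix_apply]
      simp [e]
    simp only [h5]
    rw [h3]
    simp [mul_comm]
  rw [← h2, mul_assoc, ← Units.val_mul, mul_inv_cancel, Units.val_one, mul_one]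

end EP

/-- apply a multiplicative map to the eigenvalues -/
theorem inG_diag {n : ℕ} {G : Subgroup (GL (Fin n) ℂ)} (hZ : ZariskiClosed G)
    (P : GL (Fin n) ℂ) (d : Fin n → ℂˣ)
    (hA : InG G ((P : Matrix (Fin n) (Fin n) ℂ) * diagonal (fun i => (d i : ℂ)) *
      ((P⁻¹ : GL (Fin n) ℂ) : Matrix (Fin n) (Fin n) ℂ))) (h : ℂˣ →* ℂˣ) :
    InG G ((P : Matrix (Fin n) (Fin n) ℂ) * diagonal (fun i => (h (d i) : ℂ)) *
      ((P⁻¹ : GL (Fin n) ℂ) : Matrix (Fin n) (Fin n) ℂ)) := by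
  obtain ⟨g, hg, hgA⟩ := hA
  have e1 : ∀ z, EP.expGL (0 : Matrix (Fin n) (Fin n) ℂ) z = 1 := by
    intro z
    ext1
    show NormedSpace.exp (z • (0 : Matrix (Fin n) (Fin n) ℂ)) = 1
    rw [smul_zero, NormedSpace.exp_zero]
  have h1 : g = P * EP.diagGL d * P⁻¹ := by
    ext1
    rw [hgA]
    rfl
  have h2 := EP.mem_general hZ P d 0 (IsNilpotent.zero) (by rw [e1]; exact Commute.one_right _)
    (by rw [e1, mul_one, ← h1]; exact hg) h 0
  rw [e1, mul_one] at h2
  exact ⟨_, h2, rfl⟩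

/-- the logarithm of the unipotent part -/
theorem jordan_log {n : ℕ} {G : Subgroup (GL (Fin n) ℂ)} (hZ : ZariskiClosed G)
    (A : Matrix (Fin n) (Fin n) ℂ) (hA : InG G A) :
    ∃ L : Matrix (Fin n) (Fin n) ℂ, IsNilpotent L ∧
      (∀ X : Matrix (Fin n) (Fin n) ℂ, Commute X A → Commute X L) ∧
      (∀ z : ℂ, InG G (NormedSpace.exp (z • L))) ∧
      (L = 0 → ∃ (P : GL (Fin n) ℂ) (d : Fin n → ℂˣ),
        A = (P : Matrix (Fin n) (Fin n) ℂ) * diagonal (fun i => (d i : ℂ)) *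
          ((P⁻¹ : GL (Fin n) ℂ) : Matrix (Fin n) (Fin n) ℂ)) := by
  classical
  obtain ⟨g, hg, rfl⟩ := hA
  set A : Matrix (Fin n) (Fin n) ℂ := (g : Matrix (Fin n) (Fin n) ℂ) with hAdef
  let f : Module.End ℂ (Fin n → ℂ) := Matrix.toLinAlgEquiv' A
  obtain ⟨ν, hν, σ, hσ, hνnil, hσss, hsum⟩ :=
    Module.End.exists_isNilpotent_isSemisimple (K := ℂ) (f := f)
  let ψ : Module.End ℂ (Fin n → ℂ) ≃ₐ[ℂ] Matrix (Fin n) (Fin n) ℂ :=
    Matrix.toLinAlgEquiv'.symm
  let φ : Algebra.adjoin ℂ {f} →ₐ[ℂ] Matrix (Fin n) (Fin n) ℂ :=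
    ψ.toAlgHom.comp (Algebra.adjoin ℂ {f}).val
  have hφinj : Function.Injective φ := ψ.injective.comp Subtype.val_injective
  have hψf : ψ f = A := Matrix.toLinAlgEquiv'.symm_apply_apply A
  obtain ⟨l, hl, hσu, hal⟩ := EP.jordan_comm φ hφinj ⟨f, Algebra.self_mem_adjoin_singleton ℂ f⟩
    ⟨ν, hν⟩ ⟨σ, hσ⟩ (by
      obtain ⟨N, hN⟩ := hνnil
      exact ⟨N, Subtype.ext hN⟩) (by
      show IsUnit (ψ f)
      rw [hψf]
      exact g.isUnit) (Subtype.ext hsum)
  have hLnil : IsNilpotent (φ l) := hl.map φ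
  have hexp : NormedSpace.exp (φ l) = φ (IsNilpotent.exp l) := EP.exp_map φ l hl
  have hAe : A = φ ⟨σ, hσ⟩ * NormedSpace.exp (φ l) := by
    rw [hexp, ← map_mul, ← hal]
    exact hψf.symm
  obtain ⟨P, d, hd⟩ := EP.exists_diag σ hσss
  have hS : φ ⟨σ, hσ⟩ = (P : Matrix (Fin n) (Fin n) ℂ) * diagonal d *
      ((P⁻¹ : GL (Fin n) ℂ) : Matrix (Fin n) (Fin n) ℂ) := hd
  have hdu : ∀ i, IsUnit (d i) := by
    have h1 : IsUnit (diagonal d) := by
      have h2 : diagonal d = ((P⁻¹ : GL (Fin n) ℂ) : Matrix (Fin n) (Fin n) ℂ) * φ ⟨σ, hσ⟩ *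
          (P : Matrix (Fin n) (Fin n) ℂ) := by
        rw [hS]
        simp only [mul_assoc]
        rw [← Units.val_mul, inv_mul_cancel, Units.val_one, mul_one, ← mul_assoc,
          ← Units.val_mul, inv_mul_cancel, Units.val_one, one_mul]
      rw [h2]
      exact ((P⁻¹).isUnit.mul (hσu.map φ)).mul P.isUnit
    rw [Matrix.isUnit_diagonal] at h1
    exact fun i => h1.map (Pi.evalMonoidHom (fun _ : Fin n => ℂ) i)
  choose e he using hdu
  have hd' : d = fun i => (e i : ℂ) := by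
    funext i
    exact (he i).symm
  subst hd'
  have hcomm : ∀ r s : Algebra.adjoin ℂ {f}, Commute (φ r) (φ s) := fun r s =>
    (Commute.all r s).map φ
  refine ⟨φ l, hLnil, ?_, ?_, ?_⟩
  · intro X hX
    have h1 : ∀ r : Module.End ℂ (Fin n → ℂ), r ∈ Algebra.adjoin ℂ {f} → Commute X (ψ r) := by
      intro r hr
      refine Algebra.adjoin_induction (p := fun r _ => Commute X (ψ r)) ?_ ?_ ?_ ?_ hr
      · intro x hx
        rw [Set.mem_singleton_iff] at hx
        rw [hx, hψf]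
        exact hX
      · intro c
        rw [AlgEquiv.commutes]
        exact (Algebra.commutes c X).symm
      · intro a b _ _ ha hb
        rw [map_add]
        exact ha.add_right hb
      · intro a b _ _ ha hb
        rw [map_mul]
        exact ha.mul_right hb
    exact h1 l.1 l.2
  · intro z
    have hg1 : g = P * EP.diagGL e * P⁻¹ * EP.expGL (φ l) 1 := by
      ext1
      show A = (P : Matrix (Fin n) (Fin n) ℂ) * diagonal (fun i => (e i : ℂ)) *
        ((P⁻¹ : GL (Fin n) ℂ) : Matrix (Fin n) (Fin n) ℂ) * NormedSpace.exp ((1 : ℂ) • φ l)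
      rw [one_smul, ← hS]
      exact hAe
    have hc : Commute (P * EP.diagGL e * P⁻¹) (EP.expGL (φ l) 1) := by
      have h3 : ((P * EP.diagGL e * P⁻¹ : GL (Fin n) ℂ) : Matrix (Fin n) (Fin n) ℂ) =
          φ ⟨σ, hσ⟩ := hS.symm
      generalize P * EP.diagGL e * P⁻¹ = q at hg1 h3 ⊢
      have h2 : EP.expGL (φ l) 1 = q⁻¹ * g := by
        rw [hg1, ← mul_assoc, inv_mul_cancel, one_mul]
      rw [h2]
      refine (Commute.refl _).inv_right.mul_right ?_
      show _ = _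
      ext1
      rw [Units.val_mul, Units.val_mul, h3]
      have h4 := hcomm ⟨σ, hσ⟩ ⟨f, Algebra.self_mem_adjoin_singleton ℂ f⟩
      have h5 : φ ⟨f, Algebra.self_mem_adjoin_singleton ℂ f⟩ = (g : Matrix (Fin n) (Fin n) ℂ) :=
        hψf
      rw [h5] at h4
      exact h4
    have h1 := EP.mem_general hZ P e (φ l) hLnil hc (hg1 ▸ hg) 1 z
    refine ⟨_, h1, ?_⟩
    show (P : Matrix (Fin n) (Fin n) ℂ) * diagonal (fun i => (((1 : ℂˣ →* ℂˣ) (e i) : ℂˣ) : ℂ)) *
        ((P⁻¹ : GL (Fin n) ℂ) : Matrix (Fin n) (Fin n) ℂ) * NormedSpace.exp (z • φ l) = _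
    simp only [MonoidHom.one_apply, Units.val_one, diagonal_one, mul_one]
    rw [← Units.val_mul, mul_inv_cancel, Units.val_one, one_mul]
  · intro h0
    refine ⟨P, e, ?_⟩
    rw [hAe, h0, NormedSpace.exp_zero, mul_one]
    exact hS

end Pool.Agent.Lib.MP_a9945b_al
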