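import Mathlib
import Pool.Agent.Lib.MP_a9945b_al.Basic

/-!
Group theory for supersolvable groups: a nilpotent normal subgroup of finite index, finite
generation, finiteness of torsion quotients, and a bound for the exponent of the central quotient
of a nilpotent linear group whose centre is diagonalisable.
-/

set_option autoImplicit false

noncomputable section

namespace Pool.Agent.Lib.MP_a9945b_al

open Matrix
open scoped ComplexOrder

/-- The normality of the terms of the series. -/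
lemma Supersolvable.exists_series {Γ : Type} [Group Γ] (h : Supersolvable Γ) :
    ∃ (m : ℕ) (s : ℕ → Subgroup Γ), s 0 = ⊥ ∧ s m = ⊤ ∧ (∀ i ≤ m, (s i).Normal) ∧
      ∀ i < m, s i ≤ s (i + 1) ∧ ∃ g ∈ s (i + 1), ∀ x ∈ s (i + 1), ∃ k : ℤ, x * g ^ k ∈ s i := by
  obtain ⟨m, s, h0, hm, hs⟩ := h
  refine ⟨m, s, h0, hm, ?_, fun i hi => ⟨(hs i hi).1, (hs i hi).2.2⟩⟩
  intro i hi
  rcases hi.lt_or_eq with hi | rfl
  · exact (hs i hi).2.1
  · rw [hm]; infer_instance

/-- The elements acting trivially on a normal cyclic section form a normal subgroup of finite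
index. -/
lemma exists_centralizer {Γ : Type} [Group Γ] (A B : Subgroup Γ) (hA : A.Normal) (hB : B.Normal)
    (g : Γ) (hg : g ∈ B) (h : ∀ x ∈ B, ∃ k : ℤ, x * g ^ k ∈ A) :
    ∃ C : Subgroup Γ, C.Normal ∧ C.FiniteIndex ∧
      ∀ x ∈ C, ∀ y ∈ B, x * y * x⁻¹ * y⁻¹ ∈ A := by
  have hB' : (B.map (QuotientGroup.mk' A)).Normal :=
    Subgroup.Normal.map hB _ (QuotientGroup.mk'_surjective A)
  have hcyc : IsCyclic (B.map (QuotientGroup.mk' A)) := by
    refine ⟨⟨⟨QuotientGroup.mk' A g, Subgroup.mem_map_of_mem _ hg⟩, ?_⟩⟩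
    rintro ⟨y, hy⟩
    obtain ⟨x, hx, rfl⟩ := Subgroup.mem_map.mp hy
    obtain ⟨k, hk⟩ := h x hx
    refine Subgroup.mem_zpowers_iff.mpr ⟨-k, ?_⟩
    apply Subtype.ext
    have h1 : QuotientGroup.mk' A (x * g ^ k) = 1 := by
      rw [QuotientGroup.mk'_apply]
      exact (QuotientGroup.eq_one_iff _).mpr hk
    rw [map_mul, map_zpow] at h1
    have h2 : QuotientGroup.mk' A x = (QuotientGroup.mk' A g ^ k)⁻¹ := eq_inv_of_mul_eq_one_left h1
    simp only [_root_.zpow_neg]
    exact h2.symm
  let φ : Γ →* MulAut (B.map (QuotientGroup.mk' A)) :=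
    (MulAut.conjNormal (H := B.map (QuotientGroup.mk' A))).comp (QuotientGroup.mk' A)
  have hfin : Finite (MulAut (B.map (QuotientGroup.mk' A))) := by
    have e := IsCyclic.mulAutMulEquiv (B.map (QuotientGroup.mk' A))
    have h3 : Finite (ZMod (Nat.card (B.map (QuotientGroup.mk' A))))ˣ := by
      rcases Nat.eq_zero_or_pos (Nat.card (B.map (QuotientGroup.mk' A))) with h0 | h0
      · rw [h0]
        exact (inferInstance : Finite ℤˣ)
      · have : NeZero (Nat.card (B.map (QuotientGroup.mk' A))) := ⟨h0.ne'⟩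
        infer_instance
    exact Finite.of_equiv _ e.symm.toEquiv
  refine ⟨φ.ker, inferInstance, inferInstance, ?_⟩
  intro x hx y hy
  have h1 : φ x = 1 := hx
  have h2 := congrArg (fun f : MulAut (B.map (QuotientGroup.mk' A)) =>
    ((f ⟨QuotientGroup.mk' A y, Subgroup.mem_map_of_mem _ hy⟩ :
      B.map (QuotientGroup.mk' A)) : Γ ⧸ A)) h1
  simp only [φ, MonoidHom.comp_apply, MulAut.conjNormal_apply, MulAut.one_apply] at h2
  have h3 : QuotientGroup.mk' A (x * y * x⁻¹ * y⁻¹) = 1 := by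
    rw [map_mul, map_mul, map_mul, map_inv, map_inv, h2, mul_inv_cancel]
  exact (QuotientGroup.eq_one_iff _).mp h3

theorem Supersolvable.exists_nilpotent {Γ : Type} [Group Γ] (h : Supersolvable Γ) :
    ∃ N : Subgroup Γ, N.Normal ∧ N.FiniteIndex ∧ Group.IsNilpotent N := by
  obtain ⟨m, s, h0, hm, hn, hs⟩ := h.exists_series
  have key : ∀ i : Fin m, ∃ C : Subgroup Γ, C.Normal ∧ C.FiniteIndex ∧
      ∀ x ∈ C, ∀ y ∈ s (i + 1), x * y * x⁻¹ * y⁻¹ ∈ s i := by
    intro i
    obtain ⟨h1, g, hg, h2⟩ := hs i i.2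
    exact exists_centralizer (s i) (s (i + 1)) (hn _ i.2.le) (hn _ i.2) g hg h2
  choose C hC1 hC2 hC3 using key
  refine ⟨⨅ i, C i, Subgroup.normal_iInf_normal hC1, ?_, ?_⟩
  · exact Subgroup.finiteIndex_iInf hC2
  · rw [Subgroup.nilpotent_iff_finite_ascending_central_series]
    refine ⟨m, fun i => if i < m then (s i).subgroupOf (⨅ i, C i) else ⊤, ⟨?_, ?_⟩, ?_⟩
    · by_cases hm0 : 0 < m
      · simp only [hm0, if_true, h0]
        exact Subgroup.bot_subgroupOf _
      · have : m = 0 := by omega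
        subst this
        simp only [lt_irrefl, if_false]
        have h4 : (⊥ : Subgroup Γ) = ⊤ := by rw [← h0, hm]
        have h5 : ∀ x : Γ, x = 1 := by
          intro x
          have h6 : x ∈ (⊤ : Subgroup Γ) := trivial
          rw [← h4] at h6
          exact Subgroup.mem_bot.mp h6
        rw [Subgroup.eq_bot_iff_forall]
        intro x _
        exact Subtype.ext (h5 _)
    · intro x k hx g
      by_cases hk : k < m
      · simp only [hk, if_true, Subgroup.mem_subgroupOf]
        change (x : Γ) * g * (x : Γ)⁻¹ * (g : Γ)⁻¹ ∈ s k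
        have hx' : (x : Γ) ∈ s (k + 1) := by
          by_cases hk' : k + 1 < m
          · simpa only [hk', if_true, Subgroup.mem_subgroupOf] using hx
          · have : k + 1 = m := by omega
            rw [this, hm]
            trivial
        have hg' : (g : Γ) ∈ C ⟨k, hk⟩ := (Subgroup.mem_iInf.mp g.2) _
        have h6 := hC3 ⟨k, hk⟩ g hg' x hx'
        have h7 : (x : Γ) * g * (x : Γ)⁻¹ * (g : Γ)⁻¹ =
            ((g : Γ) * x * (g : Γ)⁻¹ * (x : Γ)⁻¹)⁻¹ := by group
        rw [h7]
        exact Subgroup.inv_mem _ h6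
      · simp only [hk, if_false]
        trivial
    · simp

theorem Supersolvable.fg {Γ : Type} [Group Γ] (h : Supersolvable Γ) : Group.FG Γ := by
  obtain ⟨m, s, h0, hm, hn, hs⟩ := h.exists_series
  have key : ∀ i ≤ m, ∃ S : Finset Γ, s i ≤ Subgroup.closure (S : Set Γ) := by
    classical
    intro i
    induction i with
    | zero => intro _; exact ⟨∅, by rw [h0]; exact bot_le⟩
    | succ i ih =>
      intro hi
      obtain ⟨S, hS⟩ := ih (by omega)
      obtain ⟨-, g, hg, h2⟩ := hs i (by omega)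
      refine ⟨insert g S, ?_⟩
      have h3 : Subgroup.closure (S : Set Γ) ≤ Subgroup.closure ((insert g S : Finset Γ) : Set Γ) :=
        Subgroup.closure_mono (by simp)
      have hg' : g ∈ Subgroup.closure ((insert g S : Finset Γ) : Set Γ) :=
        Subgroup.subset_closure (by simp)
      intro x hx
      obtain ⟨k, hk⟩ := h2 x hx
      have h4 := h3 (hS hk)
      have h5 := Subgroup.mul_mem _ h4 (Subgroup.zpow_mem _ hg' (-k))
      simpa using h5
  obtain ⟨S, hS⟩ := key m le_rfl
  rw [hm] at hS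
  exact ⟨⟨S, top_le_iff.mp hS⟩⟩

theorem Supersolvable.finiteIndex {Γ : Type} [Group Γ] (h : Supersolvable Γ) (B : Subgroup Γ)
    (hB : B.Normal) (ht : ∀ x : Γ, ∃ k : ℕ, 0 < k ∧ x ^ k ∈ B) : B.FiniteIndex := by
  obtain ⟨m, s, h0, hm, hn, hs⟩ := h.exists_series
  have key : ∀ i ≤ m, ((QuotientGroup.mk' B) '' (s i : Set Γ)).Finite := by
    intro i
    induction i with
    | zero =>
      intro _
      rw [h0]
      simp
    | succ i ih =>
      intro hi
      have ih' := ih (by omega)
      obtain ⟨-, g, hg, h2⟩ := hs i (by omega)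
      have hz : ((Subgroup.zpowers (QuotientGroup.mk' B g) : Subgroup (Γ ⧸ B)) :
          Set (Γ ⧸ B)).Finite := by
        rw [finite_zpowers]
        obtain ⟨k, hk, hk'⟩ := ht g
        refine isOfFinOrder_iff_pow_eq_one.mpr ⟨k, hk, ?_⟩
        rw [← map_pow]
        exact (QuotientGroup.eq_one_iff _).mpr hk'
      refine (ih'.mul hz).subset ?_
      rintro _ ⟨x, hx, rfl⟩
      obtain ⟨k, hk⟩ := h2 x hx
      refine Set.mem_mul.mpr ⟨QuotientGroup.mk' B (x * g ^ k), ⟨_, hk, rfl⟩,
        QuotientGroup.mk' B g ^ (-k), Subgroup.mem_zpowers_iff.mpr ⟨-k, rfl⟩, ?_⟩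
      rw [map_mul, map_zpow, mul_assoc, ← _root_.zpow_add, add_neg_cancel, _root_.zpow_zero, mul_one]
  have h1 := key m le_rfl
  rw [hm] at h1
  have h2 : (Set.univ : Set (Γ ⧸ B)).Finite := by
    refine h1.subset ?_
    intro x _
    obtain ⟨y, rfl⟩ := QuotientGroup.mk'_surjective B x
    exact ⟨y, trivial, rfl⟩
  have h3 : Finite (Γ ⧸ B) := Set.finite_univ_iff.mp h2
  exact Subgroup.finiteIndex_of_finite_quotient

/-- power of a commutator that commutes with its first entry -/
lemma commutator_pow {H : Type*} [Group H] (a b : H)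
    (h : Commute (a * b * a⁻¹ * b⁻¹) a) (k : ℕ) :
    a ^ k * b * (a ^ k)⁻¹ * b⁻¹ = (a * b * a⁻¹ * b⁻¹) ^ k := by
  induction k with
  | zero => simp
  | succ k ih =>
    have h1 : a ^ (k + 1) * b * (a ^ (k + 1))⁻¹ * b⁻¹ =
        a * (a ^ k * b * (a ^ k)⁻¹ * b⁻¹) * b * a⁻¹ * b⁻¹ := by
      rw [pow_succ']
      group
    rw [h1, ih, ← (h.pow_left k).eq, pow_succ]
    group

/-- exponents of the upper central factors -/
lemma upperCentral_pow {H : Type*} [Group H] (k : ℕ)
    (h : ∀ x ∈ Subgroup.upperCentralSeries H 2, x ^ k ∈ Subgroup.upperCentralSeries H 1) (i : ℕ) :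
    ∀ x ∈ Subgroup.upperCentralSeries H (i + 2), x ^ k ∈ Subgroup.upperCentralSeries H (i + 1) := by
  induction i with
  | zero => exact h
  | succ i ih =>
    intro x hx
    rw [Subgroup.mem_upperCentralSeries_succ_iff]
    intro y
    have hc : x * y * x⁻¹ * y⁻¹ ∈ Subgroup.upperCentralSeries H (i + 2) :=
      Subgroup.mem_upperCentralSeries_succ_iff.mp hx y
    let π := QuotientGroup.mk' (Subgroup.upperCentralSeries H (i + 1))
    have hcomm : Commute (π x * π y * (π x)⁻¹ * (π y)⁻¹) (π x) := by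
      have h1 := Subgroup.mem_upperCentralSeries_succ_iff.mp hc x
      have h2 : π ((x * y * x⁻¹ * y⁻¹) * x * (x * y * x⁻¹ * y⁻¹)⁻¹ * x⁻¹) = 1 :=
        (QuotientGroup.eq_one_iff _).mpr h1
      simp only [map_mul, map_inv] at h2
      rw [mul_inv_eq_one, mul_inv_eq_iff_eq_mul] at h2
      exact h2
    have h3 := commutator_pow (π x) (π y) hcomm k
    have h4 : π ((x * y * x⁻¹ * y⁻¹) ^ k) = 1 := (QuotientGroup.eq_one_iff _).mpr (ih _ hc)
    have h5 : π (x ^ k * y * (x ^ k)⁻¹ * y⁻¹) = 1 := by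
      rw [← h4]
      simp only [map_mul, map_inv, map_pow]
      exact h3
    exact (QuotientGroup.eq_one_iff _).mp h5

/-- in a nilpotent group the exponent of the second central factor bounds the exponent of the
central quotient -/
lemma pow_mem_center {H : Type*} [Group H] (k : ℕ)
    (h : ∀ x ∈ Subgroup.upperCentralSeries H 2, x ^ k ∈ Subgroup.upperCentralSeries H 1) (c : ℕ) :
    ∀ x ∈ Subgroup.upperCentralSeries H (c + 1), x ^ (k ^ c) ∈ Subgroup.upperCentralSeries H 1 := by
  induction c with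
  | zero => intro x hx; simpa using hx
  | succ c ih =>
    intro x hx
    rw [pow_succ', pow_mul]
    exact ih _ (upperCentral_pow k h c x hx)

/-- product of matrices that preserve the level sets of `d` -/
lemma submatrix_mul_of_block {n : ℕ} (d : Fin n → ℂ) (l : ℂ)
    (A B : Matrix (Fin n) (Fin n) ℂ) (hA : ∀ i j, d i ≠ d j → A i j = 0) :
    (A * B).submatrix (Subtype.val : {j // d j = l} → Fin n) (Subtype.val : {j // d j = l} → Fin n) =
      A.submatrix Subtype.val Subtype.val * B.submatrix Subtype.val Subtype.val := by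
  ext i j
  simp only [Matrix.submatrix_apply, Matrix.mul_apply]
  rw [← Fintype.sum_subtype_add_sum_subtype (fun j => d j = l)]
  rw [add_eq_left]
  refine Finset.sum_eq_zero fun x _ => ?_
  rw [hA i x, zero_mul]
  rw [i.2]
  exact fun h => x.2 h.symm

/-- the determinant trick -/
lemma diag_pow_eq_one {n : ℕ} (A B : Matrix (Fin n) (Fin n) ℂ) (hA : IsUnit A) (hB : IsUnit B)
    (d : Fin n → ℂ) (hcA : Commute (diagonal d) A) (hcB : Commute (diagonal d) B)
    (h : A * B = diagonal d * (B * A)) (i : Fin n) : d i ^ n.factorial = 1 := by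
  classical
  have block : ∀ X : Matrix (Fin n) (Fin n) ℂ, Commute (diagonal d) X →
      ∀ i j, d i ≠ d j → X i j = 0 := by
    intro X hX i j hij
    have h1 := congrFun (congrFun hX.eq i) j
    rw [Matrix.diagonal_mul, Matrix.mul_diagonal] at h1
    have h2 : (d i - d j) * X i j = 0 := by rw [sub_mul, h1]; ring
    rcases mul_eq_zero.mp h2 with h3 | h3
    · exact absurd (sub_eq_zero.mp h3) hij
    · exact h3
  have unit : ∀ X : Matrix (Fin n) (Fin n) ℂ, IsUnit X → Commute (diagonal d) X →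
      (X.submatrix (Subtype.val : {j // d j = d i} → Fin n)
        (Subtype.val : {j // d j = d i} → Fin n)).det ≠ 0 := by
    rintro X ⟨u, rfl⟩ hX
    have h1 := submatrix_mul_of_block d (d i) (u : Matrix (Fin n) (Fin n) ℂ)
      ((u⁻¹ : (Matrix (Fin n) (Fin n) ℂ)ˣ) : Matrix (Fin n) (Fin n) ℂ) (block _ hX)
    rw [Units.mul_inv] at h1
    have h2 : (1 : Matrix (Fin n) (Fin n) ℂ).submatrix
        (Subtype.val : {j // d j = d i} → Fin n) (Subtype.val : {j // d j = d i} → Fin n) = 1 :=
      Matrix.submatrix_one _ Subtype.val_injective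
    rw [h2] at h1
    have h3 := congrArg Matrix.det h1
    rw [Matrix.det_one, Matrix.det_mul] at h3
    intro h4
    rw [h4, zero_mul] at h3
    exact one_ne_zero h3
  have h1 := congrArg (fun X : Matrix (Fin n) (Fin n) ℂ => (X.submatrix
    (Subtype.val : {j // d j = d i} → Fin n) (Subtype.val : {j // d j = d i} → Fin n)).det) h
  rw [submatrix_mul_of_block d (d i) A B (block A hcA),
    submatrix_mul_of_block d (d i) (diagonal d) (B * A) (block _ (Commute.refl _)),
    submatrix_mul_of_block d (d i) B A (block B hcB), Matrix.det_mul, Matrix.det_mul,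
    Matrix.det_mul] at h1
  have h2 : ((diagonal d).submatrix (Subtype.val : {j // d j = d i} → Fin n)
      (Subtype.val : {j // d j = d i} → Fin n)).det = d i ^ Fintype.card {j // d j = d i} := by
    rw [Matrix.submatrix_diagonal _ _ Subtype.val_injective, Matrix.det_diagonal]
    have : ∀ x : {j // d j = d i}, (d ∘ Subtype.val) x = d i := fun x => x.2
    simp only [this, Finset.prod_const, Finset.card_univ]
  rw [h2] at h1
  have hA' := unit A hA hcA
  have hB' := unit B hB hcB
  have h3 : d i ^ Fintype.card {j // d j = d i} = 1 := by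
    have h4 : (d i ^ Fintype.card {j // d j = d i} - 1) *
        ((B.submatrix (Subtype.val : {j // d j = d i} → Fin n)
          (Subtype.val : {j // d j = d i} → Fin n)).det *
        (A.submatrix (Subtype.val : {j // d j = d i} → Fin n)
          (Subtype.val : {j // d j = d i} → Fin n)).det) = 0 := by
      rw [sub_mul, ← h1]
      ring
    rcases mul_eq_zero.mp h4 with h5 | h5
    · exact sub_eq_zero.mp h5
    · exact absurd h5 (mul_ne_zero hB' hA')
  have hpos : 0 < Fintype.card {j // d j = d i} := Fintype.card_pos_iff.mpr ⟨⟨i, rfl⟩⟩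
  have hle : Fintype.card {j // d j = d i} ≤ n := by
    have := Fintype.card_subtype_le (fun j : Fin n => d j = d i)
    simpa using this
  obtain ⟨q, hq⟩ := Nat.dvd_factorial hpos hle
  rw [hq, pow_mul, h3, one_pow]

/-- a central diagonalisable commutator in a linear group has bounded order -/
lemma commutator_pow_eq_one {n : ℕ} (a b z P : GL (Fin n) ℂ) (d : Fin n → ℂˣ)
    (hz : a * b * a⁻¹ * b⁻¹ = z) (ha : Commute z a) (hb : Commute z b)
    (hd : (z : Matrix (Fin n) (Fin n) ℂ) = (P : Matrix (Fin n) (Fin n) ℂ) *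
          diagonal (fun i => (d i : ℂ)) * ((P⁻¹ : GL (Fin n) ℂ) : Matrix (Fin n) (Fin n) ℂ)) :
    z ^ n.factorial = 1 := by
  have hD : ((P⁻¹ * z * P : GL (Fin n) ℂ) : Matrix (Fin n) (Fin n) ℂ) =
      diagonal (fun i => (d i : ℂ)) := by
    rw [Units.val_mul, Units.val_mul, hd]
    rw [← mul_assoc, ← mul_assoc, ← Units.val_mul, inv_mul_cancel, Units.val_one, one_mul,
      mul_assoc, ← Units.val_mul, inv_mul_cancel, Units.val_one, mul_one]
  have e1 : (P⁻¹ * a * P) * (P⁻¹ * b * P) = (P⁻¹ * z * P) * ((P⁻¹ * b * P) * (P⁻¹ * a * P)) := by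
    rw [← hz]; group
  have e2 : Commute (P⁻¹ * z * P) (P⁻¹ * a * P) := by
    have h1 : z * a = a * z := ha.eq
    change (P⁻¹ * z * P) * (P⁻¹ * a * P) = (P⁻¹ * a * P) * (P⁻¹ * z * P)
    calc (P⁻¹ * z * P) * (P⁻¹ * a * P) = P⁻¹ * (z * a) * P := by group
      _ = _ := by rw [h1]; group
  have e3 : Commute (P⁻¹ * z * P) (P⁻¹ * b * P) := by
    have h1 : z * b = b * z := hb.eq
    change (P⁻¹ * z * P) * (P⁻¹ * b * P) = (P⁻¹ * b * P) * (P⁻¹ * z * P)
    calc (P⁻¹ * z * P) * (P⁻¹ * b * P) = P⁻¹ * (z * b) * P := by group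
      _ = _ := by rw [h1]; group
  have h1 : ∀ i, (d i : ℂ) ^ n.factorial = 1 := by
    intro i
    refine diag_pow_eq_one ((P⁻¹ * a * P : GL (Fin n) ℂ) : Matrix (Fin n) (Fin n) ℂ)
      ((P⁻¹ * b * P : GL (Fin n) ℂ) : Matrix (Fin n) (Fin n) ℂ) (Units.isUnit _) (Units.isUnit _)
      (fun i => (d i : ℂ)) ?_ ?_ ?_ i
    · rw [← hD]
      exact congrArg (Units.val) e2.eq
    · rw [← hD]
      exact congrArg (Units.val) e3.eq
    · rw [← hD]
      exact congrArg (Units.val) e1
  have h2 : (P⁻¹ * z * P) ^ n.factorial = 1 := by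
    apply Units.ext
    rw [Units.val_pow_eq_pow_val, hD, Matrix.diagonal_pow]
    have : ((fun i => (d i : ℂ)) ^ n.factorial) = fun _ => (1 : ℂ) := by
      funext i
      rw [Pi.pow_apply, h1]
    rw [this, Matrix.diagonal_one, Units.val_one]
  have h3 : (P⁻¹ * z * P) ^ n.factorial = P⁻¹ * z ^ n.factorial * P := by
    have := conj_pow (a := P⁻¹) (b := z) (i := n.factorial)
    simpa using this
  rw [h3] at h2
  calc z ^ n.factorial = P * (P⁻¹ * z ^ n.factorial * P) * P⁻¹ := by group
    _ = 1 := by rw [h2]; group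

theorem exists_center_exponent (N : Type) [Group N] [Group.IsNilpotent N] (n : ℕ) :
    ∃ M : ℕ, 0 < M ∧ ∀ m : N →* GL (Fin n) ℂ,
      (∀ ν : N, (∀ ν' : N, Commute (m ν) (m ν')) → ∃ (P : GL (Fin n) ℂ) (d : Fin n → ℂˣ),
        (m ν : Matrix (Fin n) (Fin n) ℂ) = (P : Matrix (Fin n) (Fin n) ℂ) *
          diagonal (fun i => (d i : ℂ)) * ((P⁻¹ : GL (Fin n) ℂ) : Matrix (Fin n) (Fin n) ℂ)) →
      ∀ ν ν' : N, Commute (m (ν ^ M)) (m ν') := by
  obtain ⟨c, hc⟩ := Group.IsNilpotent.nilpotent N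
  refine ⟨n.factorial ^ c, pow_pos (Nat.factorial_pos n) c, ?_⟩
  intro m hm ν ν'
  have hsurj : Function.Surjective m.rangeRestrict := m.rangeRestrict_surjective
  have hone : ∀ x : m.range, x ∈ Subgroup.upperCentralSeries m.range 1 ↔ ∀ y, Commute x y := by
    intro x
    rw [Subgroup.upperCentralSeries_one, Subgroup.mem_center_iff]
    exact ⟨fun h y => (h y).symm, fun h y => (h y).eq.symm⟩
  have h2 : ∀ x ∈ Subgroup.upperCentralSeries m.range 2,
      x ^ n.factorial ∈ Subgroup.upperCentralSeries m.range 1 := by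
    intro x hx
    rw [hone]
    intro y
    have hz : x * y * x⁻¹ * y⁻¹ ∈ Subgroup.upperCentralSeries m.range 1 :=
      Subgroup.mem_upperCentralSeries_succ_iff.mp hx y
    rw [hone] at hz
    obtain ⟨ζ, hζ⟩ := hsurj (x * y * x⁻¹ * y⁻¹)
    obtain ⟨P, d, hPd⟩ := hm ζ (by
      intro ν'
      have h3 := hz (m.rangeRestrict ν')
      rw [← hζ] at h3
      exact congrArg Subtype.val h3.eq)
    have h4 : m ζ = ((x * y * x⁻¹ * y⁻¹ : m.range) : GL (Fin n) ℂ) := by
      rw [← hζ]; rfl
    have h5 := commutator_pow_eq_one (x : GL (Fin n) ℂ) y (m ζ) P d (by rw [h4]; rfl)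
      (by rw [h4]; exact congrArg Subtype.val (hz x).eq)
      (by rw [h4]; exact congrArg Subtype.val (hz y).eq) hPd
    have h6 : (x * y * x⁻¹ * y⁻¹) ^ n.factorial = 1 := by
      apply Subtype.ext
      rw [SubgroupClass.coe_pow, ← h4, h5]
      rfl
    have h7 := commutator_pow x y (hz x) n.factorial
    rw [h6, mul_inv_eq_one, mul_inv_eq_iff_eq_mul] at h7
    exact h7
  have htop : ∀ x : m.range, x ∈ Subgroup.upperCentralSeries m.range (c + 1) := by
    intro x
    obtain ⟨ν, rfl⟩ := hsurj x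
    apply Subgroup.upperCentralSeries_mono (G := m.range) (Nat.le_succ c)
    apply Subgroup.upperCentralSeries.map hsurj c
    refine Subgroup.mem_map_of_mem _ ?_
    rw [hc]
    trivial
  have h8 := pow_mem_center n.factorial h2 c (m.rangeRestrict ν) (htop _)
  rw [hone] at h8
  have h9 := h8 (m.rangeRestrict ν')
  rw [← map_pow] at h9
  exact congrArg Subtype.val h9.eq

end Pool.Agent.Lib.MP_a9945b_al
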