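import Mathlib
import Pool.Agent.Lib.MP_a9945b_al.Defs

/-!
The Reynolds operator of a reductive linear group (averaging over a Zariski dense compact
subgroup), invariant extensions of invariant regular functions on `Hom(Γ, G)`, and surjectivity
of `Hom(Γ, G) → X_G(Γ)`.
-/

set_option autoImplicit false

noncomputable section

namespace Pool.Agent.Lib.MP_a9945b_al.Rey

open Matrix MeasureTheory

/-- polynomial functions on tuples of matrices -/
def regT (Γ : Type) (n : ℕ) : Subalgebra ℂ ((Γ → Matrix (Fin n) (Fin n) ℂ) → ℂ) :=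
  Algebra.adjoin ℂ {f | ∃ (γ : Γ) (i j : Fin n), f = fun x => x γ i j}

/-! ### Tensor decomposable functions -/

section Ten

variable {X Y Z : Type} (R : Subalgebra ℂ (X → ℂ)) (S : Subalgebra ℂ (Y → ℂ))

/-- finite sums of products `a x * b y` with `a ∈ R`, `b ∈ S` -/
def Ten (h : X → Y → ℂ) : Prop :=
  ∃ (ι : Type) (_ : Fintype ι) (a : ι → X → ℂ) (b : ι → Y → ℂ),
    (∀ i, a i ∈ R) ∧ (∀ i, b i ∈ S) ∧ ∀ x y, h x y = ∑ i, a i x * b i y

variable {R S}

theorem Ten.const (r : ℂ) : Ten R S (fun _ _ => r) :=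
  ⟨Unit, inferInstance, fun _ => algebraMap ℂ _ r, fun _ => 1, fun _ => R.algebraMap_mem r,
    fun _ => S.one_mem, fun x y => by simp [Pi.algebraMap_apply]⟩

theorem Ten.add {h h' : X → Y → ℂ} (H : Ten R S h) (H' : Ten R S h') :
    Ten R S (fun x y => h x y + h' x y) := by
  obtain ⟨ι, _, a, b, ha, hb, hh⟩ := H
  obtain ⟨κ, _, a', b', ha', hb', hh'⟩ := H'
  refine ⟨ι ⊕ κ, inferInstance, Sum.elim a a', Sum.elim b b', ?_, ?_, fun x y => ?_⟩
  · rintro (i | i)
    · exact ha i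
    · exact ha' i
  · rintro (i | i)
    · exact hb i
    · exact hb' i
  · simp [hh, hh']

theorem Ten.mul {h h' : X → Y → ℂ} (H : Ten R S h) (H' : Ten R S h') :
    Ten R S (fun x y => h x y * h' x y) := by
  obtain ⟨ι, _, a, b, ha, hb, hh⟩ := H
  obtain ⟨κ, _, a', b', ha', hb', hh'⟩ := H'
  refine ⟨ι × κ, inferInstance, fun p => a p.1 * a' p.2, fun p => b p.1 * b' p.2,
    fun p => mul_mem (ha _) (ha' _), fun p => mul_mem (hb _) (hb' _), fun x y => ?_⟩
  show h x y * h' x y = _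
  rw [hh, hh', Fintype.sum_mul_sum, Fintype.sum_prod_type]
  refine Finset.sum_congr rfl fun i _ => Finset.sum_congr rfl fun j _ => ?_
  simp only [Pi.mul_apply]
  ring

theorem Ten.of_adjoin {s : Set (Z → ℂ)} (m : X → Y → Z)
    (hs : ∀ f ∈ s, Ten R S (fun x y => f (m x y))) {f : Z → ℂ} (hf : f ∈ Algebra.adjoin ℂ s) :
    Ten R S (fun x y => f (m x y)) := by
  induction hf using Algebra.adjoin_induction with
  | mem f hf => exact hs f hf
  | algebraMap r => exact Ten.const r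
  | add f g _ _ hf hg => exact hf.add hg
  | mul f g _ _ hf hg => exact hf.mul hg

theorem Ten.apply_left {h : X → Y → ℂ} (H : Ten R S h) (E : (X → ℂ) →ₗ[ℂ] ℂ) :
    (fun y => E (fun x => h x y)) ∈ S := by
  obtain ⟨ι, _, a, b, ha, hb, hh⟩ := H
  have : (fun y => E (fun x => h x y)) = ∑ i, E (a i) • b i := by
    funext y
    have h1 : (fun x => h x y) = ∑ i, b i y • a i := by
      funext x
      rw [hh]
      simp [mul_comm]
    rw [h1, map_sum]
    simp [mul_comm]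
  rw [this]
  exact sum_mem fun i _ => S.smul_mem (hb i) _

theorem Ten.apply_right {h : X → Y → ℂ} (H : Ten R S h) (E : (Y → ℂ) →ₗ[ℂ] ℂ) :
    (fun x => E (fun y => h x y)) ∈ R := by
  obtain ⟨ι, _, a, b, ha, hb, hh⟩ := H
  have : (fun x => E (fun y => h x y)) = ∑ i, E (b i) • a i := by
    funext x
    have h1 : (fun y => h x y) = ∑ i, a i x • b i := by
      funext y
      rw [hh]
      simp
    rw [h1, map_sum]
    simp [mul_comm]
  rw [this]
  exact sum_mem fun i _ => R.smul_mem (ha i) _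

theorem Ten.left {h : X → Y → ℂ} (H : Ten R S h) (y : Y) : (fun x => h x y) ∈ R := by
  obtain ⟨ι, _, a, b, ha, hb, hh⟩ := H
  have h1 : (fun x => h x y) = ∑ i, b i y • a i := by
    funext x
    rw [hh]
    simp [mul_comm]
  rw [h1]
  exact sum_mem fun i _ => R.smul_mem (ha i) _

theorem Ten.right {h : X → Y → ℂ} (H : Ten R S h) (x : X) : (fun y => h x y) ∈ S := by
  obtain ⟨ι, _, a, b, ha, hb, hh⟩ := H
  have h1 : (fun y => h x y) = ∑ i, a i x • b i := by
    funext y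
    rw [hh]
    simp
  rw [h1]
  exact sum_mem fun i _ => S.smul_mem (hb i) _

end Ten

variable {n : ℕ}

/-- matrix of an element of `G` -/
def mt {G : Subgroup (GL (Fin n) ℂ)} (g : G) : Matrix (Fin n) (Fin n) ℂ :=
  ((g : GL (Fin n) ℂ) : Matrix (Fin n) (Fin n) ℂ)

theorem mt_mul {G : Subgroup (GL (Fin n) ℂ)} (g h : G) : mt (g * h) = mt g * mt h := rfl

theorem mt_one {G : Subgroup (GL (Fin n) ℂ)} : mt (1 : G) = 1 := rfl

/-- regular functions on `G` -/
def regG (G : Subgroup (GL (Fin n) ℂ)) : Subalgebra ℂ (G → ℂ) :=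
  Algebra.adjoin ℂ {f | ∃ i j, f = (fun g : G => mt g i j) ∨ f = (fun g : G => mt g⁻¹ i j)}

theorem regG.coord {G : Subgroup (GL (Fin n) ℂ)} (i j : Fin n) :
    (fun g : G => mt g i j) ∈ regG G :=
  Algebra.subset_adjoin ⟨i, j, Or.inl rfl⟩

theorem regG.coordInv {G : Subgroup (GL (Fin n) ℂ)} (i j : Fin n) :
    (fun g : G => mt g⁻¹ i j) ∈ regG G :=
  Algebra.subset_adjoin ⟨i, j, Or.inr rfl⟩

theorem regG.lift {G : Subgroup (GL (Fin n) ℂ)} {f : G → ℂ} (hf : f ∈ regG G) :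
    ∃ F ∈ regGL n, ∀ g : G, F g = f g := by
  induction hf using Algebra.adjoin_induction with
  | mem f hf =>
    obtain ⟨i, j, rfl | rfl⟩ := hf
    · exact ⟨_, Algebra.subset_adjoin ⟨i, j, Or.inl rfl⟩, fun g => rfl⟩
    · exact ⟨_, Algebra.subset_adjoin ⟨i, j, Or.inr rfl⟩, fun g => rfl⟩
  | algebraMap r => exact ⟨_, (regGL n).algebraMap_mem r, fun g => rfl⟩
  | add f g _ _ hf hg =>
    obtain ⟨F, hF, hF'⟩ := hf
    obtain ⟨F₂, hF₂, hF₂'⟩ := hg
    exact ⟨_, add_mem hF hF₂, fun g => by simp [hF', hF₂']⟩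
  | mul f g _ _ hf hg =>
    obtain ⟨F, hF, hF'⟩ := hf
    obtain ⟨F₂, hF₂, hF₂'⟩ := hg
    exact ⟨_, mul_mem hF hF₂, fun g => by simp [hF', hF₂']⟩

theorem regG.continuous {G : Subgroup (GL (Fin n) ℂ)} {f : G → ℂ} (hf : f ∈ regG G) :
    Continuous f := by
  have hc : Continuous (fun g : G => mt g) := Units.continuous_val.comp continuous_subtype_val
  induction hf using Algebra.adjoin_induction with
  | mem f hf =>
    obtain ⟨i, j, rfl | rfl⟩ := hf
    · exact hc.matrix_elem i j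
    · exact (hc.comp continuous_inv).matrix_elem i j
  | algebraMap r => exact continuous_const
  | add f g _ _ hf hg => exact hf.add hg
  | mul f g _ _ hf hg => exact hf.mul hg

theorem regG.comul {G : Subgroup (GL (Fin n) ℂ)} {f : G → ℂ} (hf : f ∈ regG G) :
    Ten (regG G) (regG G) (fun g h => f (g * h)) := by
  refine Ten.of_adjoin (fun g h : G => g * h) ?_ hf
  rintro f ⟨i, j, rfl | rfl⟩
  · refine ⟨Fin n, inferInstance, fun k g => mt g i k, fun k g => mt g k j,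
      fun k => regG.coord _ _, fun k => regG.coord _ _, fun g h => ?_⟩
    show mt (g * h) i j = _
    rw [mt_mul, Matrix.mul_apply]
  · refine ⟨Fin n, inferInstance, fun k g => mt g⁻¹ k j, fun k g => mt g⁻¹ i k,
      fun k => regG.coordInv _ _, fun k => regG.coordInv _ _, fun g h => ?_⟩
    show mt (g * h)⁻¹ i j = _
    rw [_root_.mul_inv_rev, mt_mul, Matrix.mul_apply]
    exact Finset.sum_congr rfl fun k _ => mul_comm _ _

/-- averaging over a Zariski dense compact subgroup -/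
theorem exists_avg {G : Subgroup (GL (Fin n) ℂ)} (hR : Reductive G) :
    ∃ E : (G → ℂ) →ₗ[ℂ] ℂ, E (fun _ => 1) = 1 ∧
      ∀ g : G, ∀ f ∈ regG G, E (fun h => f (g * h)) = E f := by
  obtain ⟨C, hCG, hC, hdense⟩ := hR
  have : CompactSpace C := isCompact_iff_compactSpace.mp hC
  let _ : MeasurableSpace C := borel C
  have : BorelSpace C := ⟨rfl⟩
  let K₀ : TopologicalSpace.PositiveCompacts C := ⊤
  let μ : Measure C := Measure.haarMeasure K₀
  have hμ : μ Set.univ = 1 := by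
    have := Measure.haarMeasure_self (K₀ := K₀)
    simpa [K₀, μ] using this
  have : IsProbabilityMeasure μ := ⟨hμ⟩
  let j : C → G := fun c => ⟨c, hCG c.2⟩
  have hj : Continuous j := by
    exact Continuous.subtype_mk continuous_subtype_val _
  have hint : ∀ f ∈ regG G, Integrable (fun c => f (j c)) μ := fun f hf =>
    ((regG.continuous hf).comp hj).integrable_of_hasCompactSupport
      (HasCompactSupport.of_compactSpace _)
  let E0 : Subalgebra.toSubmodule (regG G) →ₗ[ℂ] ℂ :=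
    { toFun := fun f => ∫ c, (f : G → ℂ) (j c) ∂μ
      map_add' := fun f g => integral_add (hint f.1 f.2) (hint g.1 g.2)
      map_smul' := fun r f => integral_const_mul (μ := μ) r (fun c => (f : G → ℂ) (j c)) }
  obtain ⟨E, hE⟩ := LinearMap.exists_extend E0
  have hE' : ∀ f (hf : f ∈ regG G), E f = ∫ c, f (j c) ∂μ := fun f hf => by
    have := LinearMap.congr_fun hE ⟨f, hf⟩
    exact this
  refine ⟨E, ?_, ?_⟩
  · rw [hE' (fun _ => 1) (regG G).one_mem]
    simp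
  · intro g f hf
    have hten := regG.comul hf
    -- the function `g ↦ E (f (g *))` is regular
    have h1 := hten.apply_right E
    have h2 : (fun x : G => E (fun y => f (x * y)) - E f) ∈ regG G :=
      sub_mem h1 ((regG G).algebraMap_mem (E f))
    obtain ⟨F, hF, hF'⟩ := regG.lift h2
    have h3 : ∀ x ∈ G, F x = 0 := by
      refine hdense F hF fun c hc => ?_
      have h4 := hF' (j ⟨c, hc⟩)
      have h5 : F c = F (j ⟨c, hc⟩ : G) := rfl
      rw [h5, h4, sub_eq_zero]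
      have hmem : (fun y => f (j ⟨c, hc⟩ * y)) ∈ regG G := hten.right (j ⟨c, hc⟩)
      rw [hE' _ hmem, hE' _ hf]
      have := integral_mul_left_eq_self (μ := μ) (fun c' : C => f (j c')) ⟨c, hc⟩
      rw [← this]
      rfl
    have h6 := hF' g
    rw [h3 g g.2] at h6
    exact sub_eq_zero.mp h6.symm

section Conj

variable {G : Subgroup (GL (Fin n) ℂ)} {Γ : Type}

/-- conjugation of a tuple of matrices -/
def cj (g : G) (x : Γ → Matrix (Fin n) (Fin n) ℂ) : Γ → Matrix (Fin n) (Fin n) ℂ :=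
  fun γ => mt g * x γ * mt g⁻¹

theorem cj_mul (g h : G) (x : Γ → Matrix (Fin n) (Fin n) ℂ) : cj (g * h) x = cj g (cj h x) := by
  funext γ
  simp only [cj, _root_.mul_inv_rev, mt_mul, Matrix.mul_assoc]

theorem regT.ten {F : (Γ → Matrix (Fin n) (Fin n) ℂ) → ℂ} (hF : F ∈ regT Γ n) :
    Ten (regG G) (regT Γ n) (fun g x => F (cj g⁻¹ x)) := by
  refine Ten.of_adjoin (fun (g : G) (x : Γ → Matrix (Fin n) (Fin n) ℂ) => cj g⁻¹ x) ?_ hF
  rintro f ⟨γ, i, j, rfl⟩
  refine ⟨Fin n × Fin n, inferInstance, fun p g => mt g⁻¹ i p.1 * mt g p.2 j,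
    fun p x => x γ p.1 p.2, fun p => mul_mem (regG.coordInv _ _) (regG.coord _ _),
    fun p => Algebra.subset_adjoin ⟨γ, p.1, p.2, rfl⟩, fun g x => ?_⟩
  show (mt g⁻¹ * x γ * mt g⁻¹⁻¹) i j = _
  rw [inv_inv, Matrix.mul_apply, Fintype.sum_prod_type, Finset.sum_comm]
  refine Finset.sum_congr rfl fun l _ => ?_
  rw [Matrix.mul_apply, Finset.sum_mul]
  refine Finset.sum_congr rfl fun k _ => ?_
  ring

/-- the Reynolds operator on polynomial functions on tuples -/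
def rey (E : (G → ℂ) →ₗ[ℂ] ℂ) (F : (Γ → Matrix (Fin n) (Fin n) ℂ) → ℂ) :
    (Γ → Matrix (Fin n) (Fin n) ℂ) → ℂ :=
  fun x => E (fun c => F (cj c⁻¹ x))

theorem rey_mem (E : (G → ℂ) →ₗ[ℂ] ℂ) {F : (Γ → Matrix (Fin n) (Fin n) ℂ) → ℂ}
    (hF : F ∈ regT Γ n) : rey E F ∈ regT Γ n :=
  (regT.ten hF).apply_left E

theorem rey_cj {E : (G → ℂ) →ₗ[ℂ] ℂ}
    (hE : ∀ g : G, ∀ f ∈ regG G, E (fun h => f (g * h)) = E f)
    {F : (Γ → Matrix (Fin n) (Fin n) ℂ) → ℂ}
    (hF : F ∈ regT Γ n) (g : G) (x : Γ → Matrix (Fin n) (Fin n) ℂ) :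
    rey E F (cj g x) = rey E F x := by
  have h1 : (fun c : G => F (cj c⁻¹ x)) ∈ regG G := (regT.ten (G := G) hF).left x
  have h2 := hE g⁻¹ _ h1
  unfold rey
  rw [← h2]
  congr 1
  funext c
  rw [_root_.mul_inv_rev, inv_inv, cj_mul]

end Conj

section Hom

variable {G : Subgroup (GL (Fin n) ℂ)} {Γ : Type} [Group Γ]

/-- the tuple of matrices of a homomorphism -/
def mat (ρ : Γ →* G) : Γ → Matrix (Fin n) (Fin n) ℂ := fun γ => mt (ρ γ)

theorem mat_conj (g : G) (ρ : Γ →* G) :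
    mat ((MulAut.conj g).toMonoidHom.comp ρ) = cj g (mat ρ) := by
  funext γ
  show mt (g * ρ γ * g⁻¹) = _
  rw [mt_mul, mt_mul]
  rfl

theorem regHom.extend {f : (Γ →* G) → ℂ} (hf : f ∈ regHom Γ G) :
    ∃ F ∈ regT Γ n, ∀ ρ, f ρ = F (mat ρ) := by
  induction hf using Algebra.adjoin_induction with
  | mem f hf =>
    obtain ⟨γ, i, j, rfl⟩ := hf
    exact ⟨_, Algebra.subset_adjoin ⟨γ, i, j, rfl⟩, fun g => rfl⟩
  | algebraMap r => exact ⟨_, (regT Γ n).algebraMap_mem r, fun g => rfl⟩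
  | add f g _ _ hf hg =>
    obtain ⟨F, hF, hF'⟩ := hf
    obtain ⟨F₂, hF₂, hF₂'⟩ := hg
    exact ⟨_, add_mem hF hF₂, fun g => by simp [hF', hF₂']⟩
  | mul f g _ _ hf hg =>
    obtain ⟨F, hF, hF'⟩ := hf
    obtain ⟨F₂, hF₂, hF₂'⟩ := hg
    exact ⟨_, mul_mem hF hF₂, fun g => by simp [hF', hF₂']⟩

theorem regT.restrict {F : (Γ → Matrix (Fin n) (Fin n) ℂ) → ℂ} (hF : F ∈ regT Γ n) :
    (fun ρ : Γ →* G => F (mat ρ)) ∈ regHom Γ G := by
  induction hF using Algebra.adjoin_induction with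
  | mem f hf =>
    obtain ⟨γ, i, j, rfl⟩ := hf
    exact Algebra.subset_adjoin ⟨γ, i, j, rfl⟩
  | algebraMap r => exact (regHom Γ G).algebraMap_mem r
  | add f g _ _ hf hg => exact add_mem hf hg
  | mul f g _ _ hf hg => exact mul_mem hf hg

end Hom

theorem exists_invariant_extension {Γ : Type} [Group Γ] {n : ℕ}
    {G : Subgroup (GL (Fin n) ℂ)} (hR : Reductive G) (f : (Γ →* G) → ℂ)
    (hf : f ∈ invHom Γ G) :
    ∃ F ∈ regT Γ n,
      (∀ g ∈ G, ∀ x : Γ → Matrix (Fin n) (Fin n) ℂ,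
        F (fun γ => (g : Matrix (Fin n) (Fin n) ℂ) * x γ *
          ((g⁻¹ : GL (Fin n) ℂ) : Matrix (Fin n) (Fin n) ℂ)) = F x) ∧
      ∀ ρ : Γ →* G, f ρ = F (fun γ => ((ρ γ : GL (Fin n) ℂ) : Matrix (Fin n) (Fin n) ℂ)) := by
  obtain ⟨E, hE1, hE⟩ := exists_avg hR
  obtain ⟨F, hF, hF'⟩ := regHom.extend hf.1
  refine ⟨rey E F, rey_mem E hF, fun g hg x => rey_cj hE hF ⟨g, hg⟩ x, fun ρ => ?_⟩
  show _ = rey E F (mat ρ)
  have : (fun c : G => F (cj c⁻¹ (mat ρ))) = f ρ • (fun _ => (1 : ℂ)) := by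
    funext c
    rw [← mat_conj, ← hF', hf.2]
    simp
  unfold rey
  rw [this, map_smul, hE1]
  simp

section Surj

variable {Γ : Type} [Group Γ] {G : Subgroup (GL (Fin n) ℂ)}

/-- the coordinate functions on `Hom(Γ, G)` -/
def crd (γ : Γ) (i j : Fin n) : regHom Γ G :=
  ⟨fun ρ => mt (ρ γ) i j, Algebra.subset_adjoin ⟨γ, i, j, rfl⟩⟩

theorem crd_one (i j : Fin n) :
    (crd (1 : Γ) i j : regHom Γ G) =
      algebraMap ℂ (regHom Γ G) ((1 : Matrix (Fin n) (Fin n) ℂ) i j) := by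
  apply Subtype.ext
  funext ρ
  show mt (ρ 1) i j = (1 : Matrix (Fin n) (Fin n) ℂ) i j
  rw [map_one, mt_one]

theorem crd_mul (γ γ' : Γ) (i j : Fin n) :
    (crd (γ * γ') i j : regHom Γ G) = ∑ k, crd γ i k * crd γ' k j := by
  apply Subtype.ext
  funext ρ
  have h : ((∑ k, crd γ i k * crd γ' k j : regHom Γ G) : (Γ →* G) → ℂ) ρ =
      ∑ k, mt (ρ γ) i k * mt (ρ γ') k j := by
    rw [AddSubmonoidClass.coe_finsetSum, Finset.sum_apply]
    rfl
  rw [h]
  show mt (ρ (γ * γ')) i j = _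
  rw [map_mul, mt_mul, Matrix.mul_apply]

theorem regHom_finiteType [hfg : Group.FG Γ] : Algebra.FiniteType ℂ (regHom Γ G) := by
  classical
  rw [← Subalgebra.fg_iff_finiteType]
  obtain ⟨S, hS⟩ := Group.fg_def.mp hfg
  let c : Γ → Fin n → Fin n → ((Γ →* G) → ℂ) := fun γ i j ρ => mt (ρ γ) i j
  let T : Finset ((Γ →* G) → ℂ) :=
    (S ×ˢ (Finset.univ : Finset (Fin n × Fin n))).image (fun p => c p.1 p.2.1 p.2.2) ∪
    (S ×ˢ (Finset.univ : Finset (Fin n × Fin n))).image (fun p => c p.1⁻¹ p.2.1 p.2.2)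
  refine ⟨T, le_antisymm ?_ ?_⟩
  · refine Algebra.adjoin_mono ?_
    intro f hf
    simp only [T, Finset.coe_union, Finset.coe_image, Set.mem_union, Set.mem_image] at hf
    rcases hf with ⟨p, _, rfl⟩ | ⟨p, _, rfl⟩
    · exact ⟨_, _, _, rfl⟩
    · exact ⟨_, _, _, rfl⟩
  · have key : ∀ γ : Γ, (∀ i j, c γ i j ∈ Algebra.adjoin ℂ (T : Set ((Γ →* G) → ℂ))) ∧
        (∀ i j, c γ⁻¹ i j ∈ Algebra.adjoin ℂ (T : Set ((Γ →* G) → ℂ))) := by
      intro γ
      have hγ : γ ∈ Subgroup.closure (S : Set Γ) := by rw [hS]; trivial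
      have hmul : ∀ x y : Γ, (∀ i j, c x i j ∈ Algebra.adjoin ℂ (T : Set ((Γ →* G) → ℂ))) →
          (∀ i j, c y i j ∈ Algebra.adjoin ℂ (T : Set ((Γ →* G) → ℂ))) →
          ∀ i j, c (x * y) i j ∈ Algebra.adjoin ℂ (T : Set ((Γ →* G) → ℂ)) := by
        intro x y hx hy i j
        have : c (x * y) i j = ∑ k, c x i k * c y k j := by
          funext ρ
          simp only [c, Finset.sum_apply, Pi.mul_apply]
          rw [map_mul, mt_mul, Matrix.mul_apply]
        rw [this]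
        exact sum_mem fun k _ => mul_mem (hx _ _) (hy _ _)
      induction hγ using Subgroup.closure_induction with
      | mem x hx =>
        refine ⟨fun i j => Algebra.subset_adjoin ?_, fun i j => Algebra.subset_adjoin ?_⟩
        · simp only [T, Finset.coe_union, Finset.coe_image]
          exact Or.inl ⟨(x, (i, j)), by simpa using hx, rfl⟩
        · simp only [T, Finset.coe_union, Finset.coe_image]
          exact Or.inr ⟨(x, (i, j)), by simpa using hx, rfl⟩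
      | one =>
        have h1 : ∀ i j, c (1 : Γ) i j ∈ Algebra.adjoin ℂ (T : Set ((Γ →* G) → ℂ)) := by
          intro i j
          have : c (1 : Γ) i j = algebraMap ℂ _ ((1 : Matrix (Fin n) (Fin n) ℂ) i j) := by
            funext ρ
            show mt (ρ 1) i j = (1 : Matrix (Fin n) (Fin n) ℂ) i j
            rw [map_one, mt_one]
          rw [this]
          exact Subalgebra.algebraMap_mem _ _
        exact ⟨h1, by rw [inv_one]; exact h1⟩
      | mul x y _ _ hx hy =>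
        refine ⟨hmul x y hx.1 hy.1, ?_⟩
        rw [_root_.mul_inv_rev]
        exact hmul _ _ hy.2 hx.2
      | inv x _ hx => exact ⟨hx.2, by rw [inv_inv]; exact hx.1⟩
    refine Algebra.adjoin_le ?_
    rintro f ⟨γ, i, j, rfl⟩
    exact (key γ).1 i j

/-- the Reynolds operator on functions on `Hom(Γ, G)` -/
def reyH (E : (G → ℂ) →ₗ[ℂ] ℂ) (f : (Γ →* G) → ℂ) : (Γ →* G) → ℂ :=
  fun ρ => E (fun c => f ((MulAut.conj c⁻¹).toMonoidHom.comp ρ))

theorem reyH_mem {E : (G → ℂ) →ₗ[ℂ] ℂ}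
    (hE : ∀ g : G, ∀ f ∈ regG G, E (fun h => f (g * h)) = E f)
    {f : (Γ →* G) → ℂ} (hf : f ∈ regHom Γ G) : reyH E f ∈ invHom Γ G := by
  obtain ⟨F, hF, hF'⟩ := regHom.extend hf
  have h1 : reyH E f = fun ρ : Γ →* G => rey E F (mat ρ) := by
    funext ρ
    unfold reyH rey
    congr 1
    funext c
    rw [hF', mat_conj]
  rw [h1]
  refine ⟨regT.restrict (rey_mem E hF), fun g ρ => ?_⟩
  show rey E F (mat _) = rey E F (mat ρ)
  rw [mat_conj, rey_cj hE hF]

theorem reyH_mul {E : (G → ℂ) →ₗ[ℂ] ℂ} (f : (Γ →* G) → ℂ) {a : (Γ →* G) → ℂ}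
    (ha : a ∈ invHom Γ G) : reyH E (f * a) = reyH E f * a := by
  funext ρ
  have : (fun c : G => (f * a) ((MulAut.conj c⁻¹).toMonoidHom.comp ρ)) =
      a ρ • (fun c : G => f ((MulAut.conj c⁻¹).toMonoidHom.comp ρ)) := by
    funext c
    simp only [Pi.mul_apply, Pi.smul_apply, smul_eq_mul]
    rw [ha.2]
    ring
  show E _ = E _ * a ρ
  rw [this, map_smul]
  simp [mul_comm]

theorem reyH_one {E : (G → ℂ) →ₗ[ℂ] ℂ} (hE1 : E (fun _ => 1) = 1) :
    reyH E (1 : (Γ →* G) → ℂ) = 1 := by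
  funext ρ
  exact hE1

theorem reyH_add {E : (G → ℂ) →ₗ[ℂ] ℂ} (f g : (Γ →* G) → ℂ) :
    reyH E (f + g) = reyH E f + reyH E g := by
  funext ρ
  exact map_add E _ _

theorem reyH_zero {E : (G → ℂ) →ₗ[ℂ] ℂ} :
    reyH E (0 : (Γ →* G) → ℂ) = 0 := by
  funext ρ
  exact map_zero E

theorem invHom_le : invHom Γ G ≤ regHom Γ G := fun _ h => h.1

/-- an algebra homomorphism on the coordinate ring extending a point of the quotient -/
theorem exists_extend_char [Group.FG Γ] (hR : Reductive G) (χ : invHom Γ G →ₐ[ℂ] ℂ) :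
    ∃ φ : regHom Γ G →ₐ[ℂ] ℂ, ∀ a : invHom Γ G, φ (Subalgebra.inclusion invHom_le a) = χ a := by
  obtain ⟨E, hE1, hE⟩ := exists_avg hR
  let ι : invHom Γ G →ₐ[ℂ] regHom Γ G := Subalgebra.inclusion invHom_le
  let I : Ideal (regHom Γ G) := Ideal.span (ι '' {a | χ a = 0})
  have hI : ∀ z ∈ I, ∀ r : regHom Γ G, ∃ s : invHom Γ G, χ s = 0 ∧
      (s : (Γ →* G) → ℂ) = reyH E ((r : (Γ →* G) → ℂ) * (z : (Γ →* G) → ℂ)) := by
    intro z hz
    refine Submodule.span_induction (R := regHom Γ G) (p := fun (z : regHom Γ G) _ =>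
      ∀ r : regHom Γ G, ∃ s : invHom Γ G,
      χ s = 0 ∧ (s : (Γ →* G) → ℂ) = reyH E ((r : (Γ →* G) → ℂ) * (z : (Γ →* G) → ℂ)))
      ?_ ?_ ?_ ?_ hz
    · rintro _ ⟨a, ha, rfl⟩ r
      refine ⟨⟨reyH E (r : (Γ →* G) → ℂ), reyH_mem hE r.2⟩ * a, ?_, ?_⟩
      · rw [map_mul, (show χ a = 0 from ha), mul_zero]
      · exact (reyH_mul _ a.2).symm
    · intro r
      refine ⟨0, map_zero _, ?_⟩
      show (0 : (Γ →* G) → ℂ) = reyH E ((r : (Γ →* G) → ℂ) * 0)
      rw [mul_zero, reyH_zero]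
    · intro x y _ _ hx hy r
      obtain ⟨s, hs, hs'⟩ := hx r
      obtain ⟨t, ht, ht'⟩ := hy r
      refine ⟨s + t, by rw [map_add, hs, ht, add_zero], ?_⟩
      show (s : (Γ →* G) → ℂ) + (t : (Γ →* G) → ℂ) =
        reyH E ((r : (Γ →* G) → ℂ) * ((x : (Γ →* G) → ℂ) + (y : (Γ →* G) → ℂ)))
      rw [mul_add, reyH_add, hs', ht']
    · intro q x _ hx r
      obtain ⟨s, hs, hs'⟩ := hx (r * q)
      refine ⟨s, hs, ?_⟩
      rw [hs']
      show reyH E ((r : (Γ →* G) → ℂ) * (q : (Γ →* G) → ℂ) * (x : (Γ →* G) → ℂ)) =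
        reyH E ((r : (Γ →* G) → ℂ) * ((q : (Γ →* G) → ℂ) * (x : (Γ →* G) → ℂ)))
      rw [mul_assoc]
  have hIne : I ≠ ⊤ := by
    intro h
    obtain ⟨s, hs, hs'⟩ := hI 1 (by rw [h]; trivial) 1
    have h2 : (s : (Γ →* G) → ℂ) = 1 := by
      rw [hs']
      show reyH E ((1 : (Γ →* G) → ℂ) * 1) = 1
      rw [mul_one, reyH_one hE1]
    have h3 : s = 1 := Subtype.ext h2
    rw [h3, map_one] at hs
    exact one_ne_zero hs
  obtain ⟨m, hm, hIm⟩ := Ideal.exists_le_maximal I hIne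
  have hft : Algebra.FiniteType ℂ (regHom Γ G) := regHom_finiteType
  let _ : Field (regHom Γ G ⧸ m) := Ideal.Quotient.field m
  have hft2 : Algebra.FiniteType ℂ (regHom Γ G ⧸ m) :=
    Algebra.FiniteType.of_surjective (Ideal.Quotient.mkₐ ℂ m) (Ideal.Quotient.mkₐ_surjective ℂ m)
  have hfin : Module.Finite ℂ (regHom Γ G ⧸ m) := finite_of_finite_type_of_isJacobsonRing _ _
  have hbij : Function.Bijective (algebraMap ℂ (regHom Γ G ⧸ m)) :=
    IsAlgClosed.algebraMap_bijective_of_isIntegral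
  let e : ℂ ≃ₐ[ℂ] (regHom Γ G ⧸ m) := AlgEquiv.ofBijective (Algebra.ofId _ _) hbij
  refine ⟨e.symm.toAlgHom.comp (Ideal.Quotient.mkₐ ℂ m), fun a => ?_⟩
  have h4 : ι (a - algebraMap ℂ _ (χ a)) ∈ m := by
    refine hIm (Ideal.subset_span ⟨_, ?_, rfl⟩)
    show χ (a - algebraMap ℂ _ (χ a)) = 0
    rw [map_sub, AlgHom.commutes]
    simp
  show e.symm (Ideal.Quotient.mk m (ι a)) = χ a
  rw [AlgEquiv.symm_apply_eq]
  show Ideal.Quotient.mk m (ι a) = algebraMap ℂ _ (χ a)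
  rw [map_sub, AlgHom.commutes] at h4
  exact (Ideal.Quotient.eq).mpr h4

end Surj

theorem point_surjective {Γ : Type} [Group Γ] [Group.FG Γ] {n : ℕ}
    {G : Subgroup (GL (Fin n) ℂ)} (hZ : ZariskiClosed G) (hR : Reductive G) :
    Function.Surjective (point : (Γ →* G) → CharVar Γ G) := by
  intro χ
  obtain ⟨φ, hφ⟩ := exists_extend_char hR χ
  let M : Γ → Matrix (Fin n) (Fin n) ℂ := fun γ => Matrix.of fun i j => φ (crd γ i j)
  have hM1 : M 1 = 1 := by
    ext i j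
    show φ (crd 1 i j) = _
    rw [crd_one, AlgHom.commutes]
    rfl
  have hMmul : ∀ γ γ', M (γ * γ') = M γ * M γ' := by
    intro γ γ'
    ext i j
    show φ (crd (γ * γ') i j) = _
    rw [crd_mul, map_sum, Matrix.mul_apply]
    refine Finset.sum_congr rfl fun k _ => ?_
    rw [map_mul]
    rfl
  let U : Γ → GL (Fin n) ℂ := fun γ =>
    ⟨M γ, M γ⁻¹, by rw [← hMmul, mul_inv_cancel, hM1], by rw [← hMmul, inv_mul_cancel, hM1]⟩
  have hUG : ∀ γ, U γ ∈ G := by
    intro γ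
    refine hZ _ fun f hf hfG => ?_
    have key : ∀ f ∈ regGL n, ∃ h : (fun ρ : Γ →* G => f (ρ γ)) ∈ regHom Γ G,
        φ ⟨fun ρ : Γ →* G => f (ρ γ), h⟩ = f (U γ) := by
      intro f hf
      induction hf using Algebra.adjoin_induction with
      | mem f hf =>
        obtain ⟨i, j, rfl | rfl⟩ := hf
        · exact ⟨(crd γ i j).2, rfl⟩
        · have h0 : (fun ρ : Γ →* G =>
              (((ρ γ : GL (Fin n) ℂ)⁻¹ : GL (Fin n) ℂ) : Matrix (Fin n) (Fin n) ℂ) i j) =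
              ((crd γ⁻¹ i j : regHom Γ G) : (Γ →* G) → ℂ) := by
            funext ρ
            show _ = mt (ρ γ⁻¹) i j
            rw [map_inv]
            rfl
          refine ⟨by rw [h0]; exact (crd γ⁻¹ i j).2, ?_⟩
          show φ _ = φ (crd γ⁻¹ i j)
          congr 1
          exact Subtype.ext h0
      | algebraMap r =>
        exact ⟨(regHom Γ G).algebraMap_mem r, φ.commutes r⟩
      | add f g _ _ hf hg =>
        obtain ⟨h1, h1'⟩ := hf
        obtain ⟨h2, h2'⟩ := hg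
        refine ⟨add_mem h1 h2, ?_⟩
        show _ = f (U γ) + g (U γ)
        rw [← h1', ← h2', ← map_add]
        rfl
      | mul f g _ _ hf hg =>
        obtain ⟨h1, h1'⟩ := hf
        obtain ⟨h2, h2'⟩ := hg
        refine ⟨mul_mem h1 h2, ?_⟩
        show _ = f (U γ) * g (U γ)
        rw [← h1', ← h2', ← map_mul]
        rfl
    obtain ⟨h, h'⟩ := key f hf
    rw [← h']
    have : (⟨fun ρ : Γ →* G => f (ρ γ), h⟩ : regHom Γ G) = 0 := by
      apply Subtype.ext
      funext ρ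
      exact hfG _ (ρ γ).2
    rw [this, map_zero]
  let ρ : Γ →* G :=
    { toFun := fun γ => ⟨U γ, hUG γ⟩
      map_one' := Subtype.ext (Units.ext hM1)
      map_mul' := fun γ γ' => Subtype.ext (Units.ext (hMmul γ γ')) }
  have hev : ∀ z (hz : z ∈ regHom Γ G), z ρ = φ ⟨z, hz⟩ := by
    intro z hz
    induction hz using Algebra.adjoin_induction with
    | mem f hf =>
      obtain ⟨γ, i, j, rfl⟩ := hf
      rfl
    | algebraMap r => exact (φ.commutes r).symm
    | add f g h1 h2 hf hg =>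
      show f ρ + g ρ = _
      rw [hf, hg, ← map_add]
      rfl
    | mul f g h1 h2 hf hg =>
      show f ρ * g ρ = _
      rw [hf, hg, ← map_mul]
      rfl
  refine ⟨ρ, ?_⟩
  have hext : ∀ a : invHom Γ G, (a : (Γ →* G) → ℂ) ρ = (show invHom Γ G →ₐ[ℂ] ℂ from χ) a := by
    intro a
    rw [hev _ (invHom_le a.2), ← hφ a]
    rfl
  exact AlgHom.ext (φ₂ := (show invHom Γ G →ₐ[ℂ] ℂ from χ)) hext

end Pool.Agent.Lib.MP_a9945b_al.Rey
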