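import Mathlib
import Pool.Agent.Lib.MP_a9945b_al.EP
import Pool.Agent.Lib.MP_a9945b_al.Cartan
import Pool.Agent.Lib.MP_a9945b_al.Grp
import Pool.Agent.Lib.MP_a9945b_al.Reynolds

/-!
Collects the auxiliary results.
-/

set_option autoImplicit false

noncomputable section

namespace Pool.Agent.Lib.MP_a9945b_al

open Matrix
open scoped ComplexOrder

export Rey (regT point_surjective exists_invariant_extension)

/-- Cartan fixed point theorem. -/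
theorem cartan {n : ℕ} {G : Subgroup (GL (Fin n) ℂ)} (hZ : ZariskiClosed G)
    (hstar : ∀ A, InG G A → InG G Aᴴ) (S : Set (Matrix (Fin n) (Fin n) ℂ))
    (Φ : Subgroup (GL (Fin n) ℂ)) (hΦ : Φ ≤ G) (B : ℝ)
    (hB : ∀ φ ∈ Φ, ∀ i j, ‖(φ : Matrix (Fin n) (Fin n) ℂ) i j‖ ≤ B)
    (hY : ∀ φ ∈ Φ, ∀ x : Matrix (Fin n) (Fin n) ℂ, x.PosDef → (∀ a ∈ S, Commute a x) →
      ∀ a ∈ S, Commute a ((φ : Matrix (Fin n) (Fin n) ℂ) * x *
        (φ : Matrix (Fin n) (Fin n) ℂ)ᴴ)) :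
    ∃ r : Matrix (Fin n) (Fin n) ℂ, InG G r ∧ r.PosDef ∧ (∀ a ∈ S, Commute a r) ∧
      ∀ φ ∈ Φ, (φ : Matrix (Fin n) (Fin n) ℂ) * (r * r) *
        (φ : Matrix (Fin n) (Fin n) ℂ)ᴴ = r * r :=
  cartan_of_diag hZ (fun P d hA h => inG_diag hZ P d hA h) hstar S Φ hΦ B hB hY

end Pool.Agent.Lib.MP_a9945b_al
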