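import Mathlib

/-!
Diagonalisable matrices.
-/

set_option autoImplicit false

noncomputable section

namespace Pool.Agent.Lib.MP_a9945b_al

open Matrix Filter Topology
open scoped ComplexOrder

variable {n : ℕ}

/-- the matrix `P diag(d) P⁻¹` -/
def cj (P : GL (Fin n) ℂ) (d : Fin n → ℂ) : Matrix (Fin n) (Fin n) ℂ :=
  (P : Matrix (Fin n) (Fin n) ℂ) * diagonal d * ((P⁻¹ : GL (Fin n) ℂ) : Matrix (Fin n) (Fin n) ℂ)

lemma coe_inv_mul (P : GL (Fin n) ℂ) : ((P⁻¹ : GL (Fin n) ℂ) : Matrix (Fin n) (Fin n) ℂ) *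
    (P : Matrix (Fin n) (Fin n) ℂ) = 1 := by
  rw [← Units.val_mul, inv_mul_cancel, Units.val_one]

lemma coe_mul_inv (P : GL (Fin n) ℂ) : (P : Matrix (Fin n) (Fin n) ℂ) *
    ((P⁻¹ : GL (Fin n) ℂ) : Matrix (Fin n) (Fin n) ℂ) = 1 := by
  rw [← Units.val_mul, mul_inv_cancel, Units.val_one]

lemma cj_mul (P : GL (Fin n) ℂ) (d d' : Fin n → ℂ) : cj P d * cj P d' = cj P (d * d') := by
  unfold cj
  calc _ = (P : Matrix (Fin n) (Fin n) ℂ) * diagonal d *
        (((P⁻¹ : GL (Fin n) ℂ) : Matrix (Fin n) (Fin n) ℂ) * (P : Matrix (Fin n) (Fin n) ℂ)) *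
        diagonal d' * ((P⁻¹ : GL (Fin n) ℂ) : Matrix (Fin n) (Fin n) ℂ) := by
          simp only [Matrix.mul_assoc]
    _ = (P : Matrix (Fin n) (Fin n) ℂ) * (diagonal d *
        diagonal d') * ((P⁻¹ : GL (Fin n) ℂ) : Matrix (Fin n) (Fin n) ℂ) := by
          rw [coe_inv_mul]
          simp only [Matrix.mul_assoc, Matrix.one_mul]
    _ = _ := by
      rw [Matrix.diagonal_mul_diagonal]
      rfl

lemma cj_one (P : GL (Fin n) ℂ) : cj P 1 = 1 := by
  unfold cj
  have : (diagonal (1 : Fin n → ℂ)) = 1 := Matrix.diagonal_one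
  rw [this, Matrix.mul_one, coe_mul_inv]

lemma cj_add (P : GL (Fin n) ℂ) (d d' : Fin n → ℂ) : cj P d + cj P d' = cj P (d + d') := by
  unfold cj
  rw [← Matrix.add_mul, ← Matrix.mul_add, Matrix.diagonal_add]
  rfl

lemma cj_smul (P : GL (Fin n) ℂ) (z : ℂ) (d : Fin n → ℂ) : z • cj P d = cj P (z • d) := by
  unfold cj
  rw [Matrix.diagonal_smul, Matrix.mul_smul, Matrix.smul_mul]

lemma cj_const (P : GL (Fin n) ℂ) (z : ℂ) : cj P (fun _ => z) = z • 1 := by
  have : (fun _ : Fin n => z) = z • (1 : Fin n → ℂ) := by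
    funext i
    simp
  rw [this, ← cj_smul, cj_one]

lemma cj_sub (P : GL (Fin n) ℂ) (d d' : Fin n → ℂ) : cj P d - cj P d' = cj P (d - d') := by
  rw [sub_eq_iff_eq_add, cj_add, sub_add_cancel]

lemma cj_pow (P : GL (Fin n) ℂ) (d : Fin n → ℂ) (k : ℕ) : cj P d ^ k = cj P (d ^ k) := by
  induction k with
  | zero => rw [pow_zero, pow_zero, cj_one]
  | succ k ih => rw [pow_succ, pow_succ, ih, cj_mul]

lemma exp_cj (P : GL (Fin n) ℂ) (d : Fin n → ℂ) :
    NormedSpace.exp (cj P d) = cj P (fun i => Complex.exp (d i)) := by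
  unfold cj
  rw [Matrix.coe_units_inv, Matrix.exp_conj _ _ P.isUnit, Matrix.exp_diagonal]
  congr 2
  congr 1
  funext i
  rw [Pi.coe_exp, Complex.exp_eq_exp_ℂ]

lemma cj_commute (P : GL (Fin n) ℂ) (d d' : Fin n → ℂ) : Commute (cj P d) (cj P d') := by
  change _ = _
  rw [cj_mul, cj_mul, mul_comm]

lemma cj_injective (P : GL (Fin n) ℂ) {d d' : Fin n → ℂ} (h : cj P d = cj P d') : d = d' := by
  have h1 : ((P⁻¹ : GL (Fin n) ℂ) : Matrix (Fin n) (Fin n) ℂ) * cj P d *
      (P : Matrix (Fin n) (Fin n) ℂ) = ((P⁻¹ : GL (Fin n) ℂ) : Matrix (Fin n) (Fin n) ℂ) *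
      cj P d' * (P : Matrix (Fin n) (Fin n) ℂ) := by rw [h]
  have h2 : ∀ e : Fin n → ℂ, ((P⁻¹ : GL (Fin n) ℂ) : Matrix (Fin n) (Fin n) ℂ) * cj P e *
      (P : Matrix (Fin n) (Fin n) ℂ) = diagonal e := by
    intro e
    unfold cj
    calc _ = (((P⁻¹ : GL (Fin n) ℂ) : Matrix (Fin n) (Fin n) ℂ) *
          (P : Matrix (Fin n) (Fin n) ℂ)) * diagonal e *
          (((P⁻¹ : GL (Fin n) ℂ) : Matrix (Fin n) (Fin n) ℂ) *
          (P : Matrix (Fin n) (Fin n) ℂ)) := by simp only [Matrix.mul_assoc]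
      _ = diagonal e := by rw [coe_inv_mul, Matrix.one_mul, Matrix.mul_one]
  rw [h2, h2] at h1
  exact Matrix.diagonal_injective h1

/-- what commutes with a diagonalisable matrix commutes with functions of it -/
lemma commute_cj {P : GL (Fin n) ℂ} {d f : Fin n → ℂ} (hdf : ∀ i j, d i = d j → f i = f j)
    {X : Matrix (Fin n) (Fin n) ℂ} (h : Commute X (cj P d)) : Commute X (cj P f) := by
  set Pm := (P : Matrix (Fin n) (Fin n) ℂ) with hPm
  set Pi := ((P⁻¹ : GL (Fin n) ℂ) : Matrix (Fin n) (Fin n) ℂ) with hPi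
  have e1 : Pi * Pm = 1 := coe_inv_mul P
  have e2 : Pm * Pi = 1 := coe_mul_inv P
  set Y := Pi * X * Pm with hY
  have hX : X = Pm * Y * Pi := by
    rw [hY]
    calc X = (Pm * Pi) * X * (Pm * Pi) := by rw [e2, one_mul, mul_one]
      _ = _ := by noncomm_ring
  have h1 : Y * diagonal d = diagonal d * Y := by
    have h2 : X * (Pm * diagonal d * Pi) = (Pm * diagonal d * Pi) * X := h
    calc Y * diagonal d = Pi * (X * (Pm * diagonal d * Pi)) * Pm := by
          rw [hY]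
          calc _ = Pi * X * Pm * diagonal d * 1 := by noncomm_ring
            _ = _ := by rw [← e1]; noncomm_ring
      _ = Pi * ((Pm * diagonal d * Pi) * X) * Pm := by rw [h2]
      _ = (Pi * Pm) * diagonal d * (Pi * X * Pm) := by noncomm_ring
      _ = _ := by rw [e1, one_mul]
  have h3 : Y * diagonal f = diagonal f * Y := by
    ext i j
    have h4 := congrFun (congrFun h1 i) j
    rw [Matrix.mul_diagonal, Matrix.diagonal_mul] at h4 ⊢
    by_cases hij : d i = d j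
    · rw [hdf i j hij, mul_comm]
    · have : Y i j = 0 := by
        have h5 : Y i j * (d j - d i) = 0 := by rw [mul_sub, h4]; ring
        rcases mul_eq_zero.mp h5 with h6 | h6
        · exact h6
        · exact absurd (sub_eq_zero.mp h6).symm hij
      rw [this, zero_mul, mul_zero]
  change X * (Pm * diagonal f * Pi) = (Pm * diagonal f * Pi) * X
  rw [hX]
  calc Pm * Y * Pi * (Pm * diagonal f * Pi) = Pm * Y * (Pi * Pm) * diagonal f * Pi := by
        noncomm_ring
    _ = Pm * (Y * diagonal f) * Pi := by rw [e1]; noncomm_ring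
    _ = Pm * (diagonal f * Y) * Pi := by rw [h3]
    _ = Pm * diagonal f * (Pi * Pm) * Y * Pi := by rw [e1]; noncomm_ring
    _ = _ := by noncomm_ring

/-- kernel of a normal matrix -/
lemma normal_ker {B : Matrix (Fin n) (Fin n) ℂ} (hB : Commute B Bᴴ) {v : Fin n → ℂ}
    (hv : B *ᵥ v = 0) : Bᴴ *ᵥ v = 0 := by
  have h1 : star (Bᴴ *ᵥ v) ⬝ᵥ (Bᴴ *ᵥ v) = 0 := by
    rw [Matrix.star_mulVec, Matrix.conjTranspose_conjTranspose, ← Matrix.dotProduct_mulVec,
      Matrix.mulVec_mulVec, hB.eq, ← Matrix.mulVec_mulVec, hv, Matrix.mulVec_zero,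
      dotProduct_zero]
  exact dotProduct_star_self_eq_zero.mp h1

lemma isHermitian_of_normal {P : GL (Fin n) ℂ} {d : Fin n → ℂ} (hd : ∀ i, star (d i) = d i)
    (h : Commute (cj P d) (cj P d)ᴴ) : (cj P d).IsHermitian := by
  set A := cj P d with hA
  have key : ∀ i, Aᴴ *ᵥ ((P : Matrix (Fin n) (Fin n) ℂ) *ᵥ (Pi.single i 1)) =
      A *ᵥ ((P : Matrix (Fin n) (Fin n) ℂ) *ᵥ (Pi.single i 1)) := by
    intro i
    set v := (P : Matrix (Fin n) (Fin n) ℂ) *ᵥ (Pi.single i (1 : ℂ)) with hv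
    have h1 : A *ᵥ v = d i • v := by
      rw [hA, hv]
      unfold cj
      rw [Matrix.mulVec_mulVec]
      have : (P : Matrix (Fin n) (Fin n) ℂ) * diagonal d *
          ((P⁻¹ : GL (Fin n) ℂ) : Matrix (Fin n) (Fin n) ℂ) *
          (P : Matrix (Fin n) (Fin n) ℂ) = (P : Matrix (Fin n) (Fin n) ℂ) * diagonal d := by
        rw [Matrix.mul_assoc, coe_inv_mul, Matrix.mul_one]
      rw [this, ← Matrix.mulVec_mulVec, Matrix.diagonal_mulVec_single, ← Matrix.mulVec_smul]
      congr 1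
      funext j
      by_cases hij : j = i
      · subst hij; simp
      · simp [hij]
    have h2 : (A - d i • 1) *ᵥ v = 0 := by
      rw [Matrix.sub_mulVec, h1, Matrix.smul_mulVec, Matrix.one_mulVec, sub_self]
    have h3 : (A - d i • 1)ᴴ = Aᴴ - d i • 1 := by
      rw [Matrix.conjTranspose_sub, Matrix.conjTranspose_smul, Matrix.conjTranspose_one, hd i]
    have h4 : Commute (A - d i • 1) (A - d i • 1)ᴴ := by
      rw [h3]
      refine Commute.sub_left (Commute.sub_right h ?_) (Commute.sub_right ?_ ?_)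
      · exact (Commute.one_right _).smul_right _
      · exact (Commute.one_left _).smul_left _
      · exact ((Commute.one_right _).smul_right _).smul_left _
    have h5 := normal_ker h4 h2
    rw [h3, Matrix.sub_mulVec, Matrix.smul_mulVec, Matrix.one_mulVec, sub_eq_zero] at h5
    rw [h5, h1]
  have h6 : Aᴴ * (P : Matrix (Fin n) (Fin n) ℂ) = A * (P : Matrix (Fin n) (Fin n) ℂ) := by
    ext a i
    have := congrFun (key i) a
    rw [Matrix.mulVec_mulVec, Matrix.mulVec_mulVec, Matrix.mulVec_single_one,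
      Matrix.mulVec_single_one] at this
    exact this
  change Aᴴ = A
  calc Aᴴ = Aᴴ * ((P : Matrix (Fin n) (Fin n) ℂ) *
        ((P⁻¹ : GL (Fin n) ℂ) : Matrix (Fin n) (Fin n) ℂ)) := by
        rw [coe_mul_inv, Matrix.mul_one]
    _ = (Aᴴ * (P : Matrix (Fin n) (Fin n) ℂ)) *
        ((P⁻¹ : GL (Fin n) ℂ) : Matrix (Fin n) (Fin n) ℂ) := by rw [Matrix.mul_assoc]
    _ = A * ((P : Matrix (Fin n) (Fin n) ℂ) *
        ((P⁻¹ : GL (Fin n) ℂ) : Matrix (Fin n) (Fin n) ℂ)) := by rw [h6, Matrix.mul_assoc]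
    _ = A := by rw [coe_mul_inv, Matrix.mul_one]

/-- a nilpotent normal matrix vanishes -/
lemma eq_zero_of_normal_nilpotent {L : Matrix (Fin n) (Fin n) ℂ} (hN : IsNilpotent L)
    (h : Commute L Lᴴ) : L = 0 := by
  have key : ∀ k : ℕ, ∀ A : Matrix (Fin n) (Fin n) ℂ, A.IsHermitian → A ^ (2 ^ k) = 0 →
      A = 0 := by
    intro k
    induction k with
    | zero => intro A _ h; simpa using h
    | succ k ih =>
      intro A hA h
      have h1 : (A ^ 2) ^ (2 ^ k) = 0 := by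
        rw [← pow_mul, ← pow_succ']
        exact h
      have h2 : (A ^ 2).IsHermitian := hA.pow 2
      have h3 := ih _ h2 h1
      have h4 : Aᴴ * A = 0 := by
        rw [hA.eq, ← sq]
        exact h3
      exact Matrix.conjTranspose_mul_self_eq_zero.mp h4
  obtain ⟨k, hk⟩ := hN
  have h1 : (Lᴴ * L) ^ k = 0 := by
    rw [(h.symm).mul_pow, hk, mul_zero]
  have h2 : (Lᴴ * L) ^ (2 ^ k) = 0 := by
    have : k ≤ 2 ^ k := Nat.lt_two_pow_self.le
    exact pow_eq_zero_of_le this h1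
  have h3 := key k _ (Matrix.isHermitian_conjTranspose_mul_self L) h2
  exact Matrix.conjTranspose_mul_self_eq_zero.mp h3

end Pool.Agent.Lib.MP_a9945b_al
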