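import Mathlib
import Pool.Agent.Lib.MP_a9945b_al.Basic

/-!
Minimal homomorphisms in a fibre of the quotient map, and the first order condition.
-/

set_option autoImplicit false

noncomputable section

namespace Pool.Agent.Lib.MP_a9945b_al

open Matrix Filter Topology
open scoped ComplexOrder

variable {Γ : Type} [Group Γ] {n : ℕ} {G : Subgroup (GL (Fin n) ℂ)}

/-- squared Frobenius norm -/
def nsq (A : Matrix (Fin n) (Fin n) ℂ) : ℝ := (A * Aᴴ).trace.re

lemma nsq_eq (A : Matrix (Fin n) (Fin n) ℂ) : nsq A = ∑ i, ∑ j, ‖A i j‖ ^ 2 := by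
  unfold nsq
  rw [Matrix.trace, Complex.re_sum]
  refine Finset.sum_congr rfl fun i _ => ?_
  rw [Matrix.diag_apply, Matrix.mul_apply, Complex.re_sum]
  refine Finset.sum_congr rfl fun j _ => ?_
  rw [Matrix.conjTranspose_apply, Complex.star_def, Complex.mul_conj, Complex.ofReal_re,
    Complex.normSq_eq_norm_sq]

lemma nsq_nonneg (A : Matrix (Fin n) (Fin n) ℂ) : 0 ≤ nsq A := by
  rw [nsq_eq]
  positivity

lemma norm_le_of_nsq {A : Matrix (Fin n) (Fin n) ℂ} {c : ℝ} (h : nsq A ≤ c) (i j : Fin n) :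
    ‖A i j‖ ≤ √c := by
  apply Real.le_sqrt_of_sq_le
  rw [nsq_eq] at h
  have h1 : ‖A i j‖ ^ 2 ≤ ∑ j, ‖A i j‖ ^ 2 :=
    Finset.single_le_sum (f := fun j => ‖A i j‖ ^ 2) (fun _ _ => by positivity)
      (Finset.mem_univ j)
  have h2 : ∑ j, ‖A i j‖ ^ 2 ≤ ∑ i, ∑ j, ‖A i j‖ ^ 2 :=
    Finset.single_le_sum (f := fun i => ∑ j, ‖A i j‖ ^ 2) (fun _ _ => by positivity)
      (Finset.mem_univ i)
  linarith

lemma nsq_eq_zero {A : Matrix (Fin n) (Fin n) ℂ} (h : nsq A = 0) : A = 0 := by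
  ext i j
  have := norm_le_of_nsq h.le i j
  rw [Real.sqrt_zero] at this
  exact norm_le_zero_iff.mp this

lemma continuous_nsq : Continuous (nsq : Matrix (Fin n) (Fin n) ℂ → ℝ) := by
  unfold nsq
  fun_prop

/-- the energy of a homomorphism -/
def energy (T : Finset Γ) (ρ : Γ →* G) : ℝ := ∑ σ ∈ T, nsq (mat ρ σ)

lemma BddAlong.of_closure {ι : Type*} {l : Filter ι} {ρ : ι → (Γ →* G)} {T : Finset Γ}
    (hcl : Subgroup.closure (T : Set Γ) = ⊤) (hinv : ∀ σ ∈ T, σ⁻¹ ∈ T)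
    (h : ∀ σ ∈ T, BddAlong l (fun i => mat (ρ i) σ)) (γ : Γ) :
    BddAlong l (fun i => mat (ρ i) γ) := by
  have hmem : γ ∈ Subgroup.closure (T : Set Γ) := by rw [hcl]; trivial
  have key : BddAlong l (fun i => mat (ρ i) γ) ∧ BddAlong l (fun i => mat (ρ i) γ⁻¹) := by
    induction hmem using Subgroup.closure_induction with
    | mem x hx => exact ⟨h x hx, h _ (hinv x hx)⟩
    | one =>
      have h1 : BddAlong l (fun i => mat (ρ i) 1) := by
        refine ⟨1, Eventually.of_forall fun i a b => ?_⟩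
        change ‖mat (ρ i) 1 a b‖ ≤ 1
        rw [mat_one, Matrix.one_apply]
        split_ifs <;> simp
      exact ⟨h1, by rwa [inv_one]⟩
    | mul x y _ _ hx hy =>
      constructor
      · have := hx.1.mul hy.1
        simpa only [mat_mul] using this
      · have := hy.2.mul hx.2
        simpa only [mat_mul, _root_.mul_inv_rev] using this
    | inv x _ hx => exact ⟨hx.2, by rw [inv_inv]; exact hx.1⟩
  exact key.1

/-- limits of homomorphisms in a fibre stay in the fibre -/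
lemma point_eq_of_tendsto {ι : Type*} {l : Filter ι} [l.NeBot] {ρ : ι → (Γ →* G)}
    {ρ₀ : Γ →* G} (h : ∀ γ, Tendsto (fun i => mat (ρ i) γ) l (𝓝 (mat ρ₀ γ)))
    {x : CharVar Γ G} {y : ι → CharVar Γ G} (hy : Tendsto y l (𝓝 x))
    (hρ : ∀ i, point (ρ i) = y i) : point ρ₀ = x := by
  apply AlgHom.ext
  intro f
  have h1 : Tendsto (fun i => f.1 (ρ i)) l (𝓝 (f.1 ρ₀)) := regHom_tendsto f.2.1 h
  have hcont : Continuous (fun z : CharVar Γ G => z.val f) :=
    (continuous_apply f).comp continuous_induced_dom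
  have h2 : Tendsto (fun i => (y i).val f) l (𝓝 (x.val f)) := (hcont.tendsto x).comp hy
  have h3 : (fun i => (y i).val f) = fun i => f.1 (ρ i) := by
    funext i
    rw [← hρ i, point_val]
  rw [h3] at h2
  exact tendsto_nhds_unique h1 h2

lemma exists_min (hZ : ZariskiClosed G) {T : Finset Γ}
    (hcl : Subgroup.closure (T : Set Γ) = ⊤) (hinv : ∀ σ ∈ T, σ⁻¹ ∈ T) (ρ₀ : Γ →* G) :
    ∃ m : Γ →* G, point m = point ρ₀ ∧
      ∀ ρ : Γ →* G, point ρ = point ρ₀ → energy T m ≤ energy T ρ := by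
  have hpos : ∀ ρ : Γ →* G, 0 ≤ energy T ρ := fun ρ =>
    Finset.sum_nonneg fun σ _ => nsq_nonneg _
  let S : Set ℝ := {c | ∃ ρ : Γ →* G, point ρ = point ρ₀ ∧ energy T ρ = c}
  have hS : S.Nonempty := ⟨_, ρ₀, rfl, rfl⟩
  have hB : BddBelow S := ⟨0, by rintro c ⟨ρ, -, rfl⟩; exact hpos ρ⟩
  have hex : ∀ k : ℕ, ∃ ρ : Γ →* G, point ρ = point ρ₀ ∧ energy T ρ < sInf S + 1 / (k + 1) := by
    intro k
    have : sInf S < sInf S + 1 / ((k : ℝ) + 1) := by
      have : 0 < 1 / ((k : ℝ) + 1) := by positivity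
      linarith
    obtain ⟨c, ⟨ρ, h1, h2⟩, h3⟩ := exists_lt_of_csInf_lt hS this
    exact ⟨ρ, h1, by rw [h2]; exact h3⟩
  choose ρ hρ1 hρ2 using hex
  let l : Ultrafilter ℕ := hyperfilter ℕ
  have hl : (l : Filter ℕ) ≤ atTop := by
    rw [← Nat.cofinite_eq_atTop]
    exact hyperfilter_le_cofinite
  have hbd : ∀ σ ∈ T, BddAlong (l : Filter ℕ) (fun i => mat (ρ i) σ) := by
    intro σ hσ
    refine ⟨√(sInf S + 1), Eventually.of_forall fun k a b => ?_⟩
    apply norm_le_of_nsq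
    have h1 : nsq (mat (ρ k) σ) ≤ energy T (ρ k) :=
      Finset.single_le_sum (f := fun σ => nsq (mat (ρ k) σ)) (fun _ _ => nsq_nonneg _) hσ
    have h2 : 1 / ((k : ℝ) + 1) ≤ 1 := by
      rw [div_le_one (by positivity)]
      linarith [(Nat.cast_nonneg k : (0:ℝ) ≤ k)]
    linarith [hρ2 k]
  obtain ⟨m, hm⟩ := exists_lim_hom hZ l ρ (fun γ => BddAlong.of_closure hcl hinv hbd γ)
  refine ⟨m, ?_, ?_⟩
  · refine point_eq_of_tendsto (l := (l : Filter ℕ)) (y := fun _ => point ρ₀) hm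
      tendsto_const_nhds hρ1
  · intro ρ' hρ'
    have h1 : Tendsto (fun i => energy T (ρ i)) l (𝓝 (energy T m)) := by
      unfold energy
      refine tendsto_finsetSum _ fun σ _ => ?_
      exact (continuous_nsq.tendsto _).comp (hm σ)
    have h2 : Tendsto (fun k : ℕ => sInf S + 1 / ((k : ℝ) + 1)) l (𝓝 (sInf S + 0)) :=
      (tendsto_const_nhds.add tendsto_one_div_add_atTop_nhds_zero_nat).mono_left hl
    have h3 : energy T m ≤ sInf S + 0 :=
      le_of_tendsto_of_tendsto' h1 h2 (fun k => (hρ2 k).le)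
    have h4 : sInf S ≤ energy T ρ' := csInf_le hB ⟨ρ', hρ', rfl⟩
    linarith

section Critical

attribute [local instance] Matrix.linftyOpNormedRing Matrix.linftyOpNormedAlgebra

lemma hasDerivAt_exp_zero (X : Matrix (Fin n) (Fin n) ℂ) :
    HasDerivAt (fun t : ℝ => NormedSpace.exp (t • X)) X 0 := by
  have h := hasDerivAt_exp_smul_const (𝕂 := ℝ) X 0
  have h0 : NormedSpace.exp ((0 : ℝ) • X) * X = X := by
    rw [zero_smul, NormedSpace.exp_zero, one_mul]
  exact HasDerivAt.congr_deriv h h0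

/-- the momentum matrix -/
def moment (T : Finset Γ) (m : Γ →* G) : Matrix (Fin n) (Fin n) ℂ :=
  ∑ σ ∈ T, (mat m σ * (mat m σ)ᴴ - (mat m σ)ᴴ * mat m σ)

lemma nsq_conj_deriv (Y A : Matrix (Fin n) (Fin n) ℂ) :
    HasDerivAt (fun t : ℝ => nsq (NormedSpace.exp (t • Y) * A * NormedSpace.exp (-(t • Y))))
      (2 * (Y * (A * Aᴴ - Aᴴ * A)).trace.re) 0 := by
  have h1 : (fun t : ℝ => nsq (NormedSpace.exp (t • Y) * A * NormedSpace.exp (-(t • Y)))) =
      fun t : ℝ => (NormedSpace.exp (t • Y) * A * NormedSpace.exp (t • (-Y)) *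
        (NormedSpace.exp (t • (-Yᴴ)) * Aᴴ * NormedSpace.exp (t • Yᴴ))).trace.re := by
    funext t
    unfold nsq
    rw [Matrix.conjTranspose_mul, Matrix.conjTranspose_mul, ← Matrix.exp_conjTranspose,
      ← Matrix.exp_conjTranspose]
    simp only [Matrix.conjTranspose_smul, Matrix.conjTranspose_neg, star_trivial, smul_neg,
      Matrix.mul_assoc]
  rw [h1]
  have hA : HasDerivAt (fun _ : ℝ => A) 0 0 := hasDerivAt_const _ _
  have hA' : HasDerivAt (fun _ : ℝ => Aᴴ) 0 0 := hasDerivAt_const _ _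
  have h2 := (((hasDerivAt_exp_zero Y).mul hA).mul (hasDerivAt_exp_zero (-Y))).mul
    (((hasDerivAt_exp_zero (-Yᴴ)).mul hA').mul (hasDerivAt_exp_zero Yᴴ))
  have h3 : HasDerivAt (fun t : ℝ => (NormedSpace.exp (t • Y) * A * NormedSpace.exp (t • (-Y)) *
        (NormedSpace.exp (t • (-Yᴴ)) * Aᴴ * NormedSpace.exp (t • Yᴴ))))
      (Y * A * Aᴴ - A * Y * Aᴴ + (A * Aᴴ * Yᴴ - A * Yᴴ * Aᴴ)) 0 := by
    refine HasDerivAt.congr_deriv h2 ?_
    simp only [Pi.mul_apply, zero_smul, NormedSpace.exp_zero]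
    noncomm_ring
  let L : Matrix (Fin n) (Fin n) ℂ →L[ℝ] ℝ :=
    LinearMap.toContinuousLinearMap
      (Complex.reLm ∘ₗ (Matrix.traceLinearMap (Fin n) ℝ ℂ))
  have h4 := L.hasFDerivAt.comp_hasDerivAt (0 : ℝ) h3
  refine HasDerivAt.congr_deriv h4 ?_
  change Complex.re (Matrix.trace (Y * A * Aᴴ - A * Y * Aᴴ + (A * Aᴴ * Yᴴ - A * Yᴴ * Aᴴ))) = _
  have h5 : (A * Aᴴ * Yᴴ - A * Yᴴ * Aᴴ).trace.re =
      (Y * (A * Aᴴ - Aᴴ * A)).trace.re := by
    have e : (A * Aᴴ * Yᴴ - A * Yᴴ * Aᴴ).trace = star ((Y * (A * Aᴴ - Aᴴ * A)).trace) := by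
      rw [← Matrix.trace_conjTranspose]
      simp only [Matrix.conjTranspose_mul, Matrix.conjTranspose_sub,
        Matrix.conjTranspose_conjTranspose, Matrix.trace_sub, Matrix.sub_mul]
      congr 1
      rw [Matrix.trace_mul_cycle, Matrix.mul_assoc]
    rw [e, Complex.star_def, Complex.conj_re]
  have h6 : (Y * A * Aᴴ - A * Y * Aᴴ).trace = (Y * (A * Aᴴ - Aᴴ * A)).trace := by
    simp only [Matrix.mul_sub, Matrix.trace_sub]
    congr 1
    · rw [Matrix.mul_assoc]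
    · rw [Matrix.mul_assoc, Matrix.trace_mul_comm, Matrix.mul_assoc]
  rw [Matrix.trace_add, Complex.add_re, h5, h6]
  ring

lemma exp_neg_inv {g : GL (Fin n) ℂ} {X : Matrix (Fin n) (Fin n) ℂ}
    (h : (g : Matrix (Fin n) (Fin n) ℂ) = NormedSpace.exp X) :
    ((g⁻¹ : GL (Fin n) ℂ) : Matrix (Fin n) (Fin n) ℂ) = NormedSpace.exp (-X) := by
  rw [Matrix.coe_units_inv, h, Matrix.exp_neg]

lemma critical_re {T : Finset Γ} {m : Γ →* G}
    (hmin : ∀ ρ : Γ →* G, point ρ = point m → energy T m ≤ energy T ρ)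
    {Y : Matrix (Fin n) (Fin n) ℂ} (hY : ∀ t : ℝ, InG G (NormedSpace.exp (t • Y))) :
    (Y * moment T m).trace.re = 0 := by
  have h1 : HasDerivAt (fun t : ℝ => ∑ σ ∈ T,
      nsq (NormedSpace.exp (t • Y) * mat m σ * NormedSpace.exp (-(t • Y))))
      (∑ σ ∈ T, 2 * (Y * (mat m σ * (mat m σ)ᴴ - (mat m σ)ᴴ * mat m σ)).trace.re) 0 :=
    HasDerivAt.fun_sum fun σ _ => nsq_conj_deriv Y (mat m σ)
  have h2 : IsLocalMin (fun t : ℝ => ∑ σ ∈ T,
      nsq (NormedSpace.exp (t • Y) * mat m σ * NormedSpace.exp (-(t • Y)))) 0 := by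
    refine Eventually.of_forall fun t => ?_
    obtain ⟨g, hg, hgt⟩ := hY t
    have h3 := hmin _ (point_conj ⟨g, hg⟩ m)
    have h4 : energy T ((MulAut.conj (⟨g, hg⟩ : G)).toMonoidHom.comp m) = ∑ σ ∈ T,
        nsq (NormedSpace.exp (t • Y) * mat m σ * NormedSpace.exp (-(t • Y))) := by
      unfold energy
      refine Finset.sum_congr rfl fun σ _ => ?_
      rw [mat_conj]
      change nsq ((g : Matrix (Fin n) (Fin n) ℂ) * mat m σ *
        ((g⁻¹ : GL (Fin n) ℂ) : Matrix (Fin n) (Fin n) ℂ)) = _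
      rw [exp_neg_inv hgt, hgt]
    rw [h4] at h3
    have h5 : (∑ σ ∈ T, nsq (NormedSpace.exp ((0 : ℝ) • Y) * mat m σ *
        NormedSpace.exp (-((0 : ℝ) • Y)))) = energy T m := by
      unfold energy
      refine Finset.sum_congr rfl fun σ _ => ?_
      rw [zero_smul, neg_zero, NormedSpace.exp_zero, one_mul, mul_one]
    change (∑ σ ∈ T, nsq (NormedSpace.exp ((0 : ℝ) • Y) * mat m σ *
        NormedSpace.exp (-((0 : ℝ) • Y)))) ≤ _
    rw [h5]
    exact h3
  have h6 := h2.hasDerivAt_eq_zero h1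
  rw [← Finset.mul_sum, ← Complex.re_sum, ← Matrix.trace_sum, ← Finset.mul_sum] at h6
  have h7 : (Y * moment T m).trace.re = 0 := by
    unfold moment
    linarith
  exact h7

lemma critical {T : Finset Γ} {m : Γ →* G}
    (hmin : ∀ ρ : Γ →* G, point ρ = point m → energy T m ≤ energy T ρ)
    {Y : Matrix (Fin n) (Fin n) ℂ} (hY : ∀ z : ℂ, InG G (NormedSpace.exp (z • Y))) :
    (Y * moment T m).trace = 0 := by
  have h1 := critical_re hmin (Y := Y) (fun t => by
    have := hY (t : ℂ)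
    rwa [Complex.coe_smul] at this)
  have h2 := critical_re hmin (Y := Complex.I • Y) (fun t => by
    have := hY ((t : ℂ) * Complex.I)
    rwa [mul_smul, Complex.coe_smul] at this)
  rw [Matrix.smul_mul, Matrix.trace_smul, smul_eq_mul, Complex.I_mul_re] at h2
  apply Complex.ext
  · exact h1
  · simpa using h2

/-- second order consequence of minimality -/
lemma critical_bracket {T : Finset Γ} {m : Γ →* G}
    (hmin : ∀ ρ : Γ →* G, point ρ = point m → energy T m ≤ energy T ρ)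
    (hstar : ∀ A, InG G A → InG G Aᴴ)
    {e : Matrix (Fin n) (Fin n) ℂ} (he : ∀ z : ℂ, InG G (NormedSpace.exp (z • e))) :
    ((e * eᴴ - eᴴ * e) * moment T m).trace = 0 := by
  have he' : ∀ z : ℂ, InG G (NormedSpace.exp (z • eᴴ)) := by
    intro z
    have := hstar _ (he (star z))
    rwa [← Matrix.exp_conjTranspose, Matrix.conjTranspose_smul, star_star] at this
  have hY : ∀ t : ℝ, ((NormedSpace.exp (t • e) * eᴴ * NormedSpace.exp (t • (-e))) *
      moment T m).trace = 0 := by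
    intro t
    apply critical hmin
    intro z
    have hu : IsUnit (NormedSpace.exp (t • e)) := Matrix.isUnit_exp _
    have h1 := Matrix.exp_conj (NormedSpace.exp (t • e)) (z • eᴴ) hu
    have h2 : (NormedSpace.exp (t • e))⁻¹ = NormedSpace.exp (t • (-e)) := by
      rw [smul_neg, Matrix.exp_neg]
    rw [h2] at h1
    have h3 : z • (NormedSpace.exp (t • e) * eᴴ * NormedSpace.exp (t • (-e))) =
        NormedSpace.exp (t • e) * (z • eᴴ) * NormedSpace.exp (t • (-e)) := by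
      rw [Matrix.mul_smul, Matrix.smul_mul]
    rw [h3, h1]
    have h4 := he (t : ℂ)
    rw [Complex.coe_smul] at h4
    have h5 := he (-(t : ℂ))
    have h6 : -(t : ℂ) • e = t • (-e) := by
      rw [neg_smul, Complex.coe_smul, smul_neg]
    rw [h6] at h5
    exact (h4.mul (he' z)).mul h5
  have hA : HasDerivAt (fun _ : ℝ => eᴴ) 0 0 := hasDerivAt_const _ _
  have hM : HasDerivAt (fun _ : ℝ => moment T m) 0 0 := hasDerivAt_const _ _
  have h2 := (((hasDerivAt_exp_zero e).mul hA).mul (hasDerivAt_exp_zero (-e))).mul hM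
  let L : Matrix (Fin n) (Fin n) ℂ →L[ℝ] ℂ :=
    LinearMap.toContinuousLinearMap (Matrix.traceLinearMap (Fin n) ℝ ℂ)
  have h3 : HasDerivAt (fun t : ℝ => NormedSpace.exp (t • e) * eᴴ *
      NormedSpace.exp (t • (-e)) * moment T m) ((e * eᴴ - eᴴ * e) * moment T m) 0 := by
    refine HasDerivAt.congr_deriv h2 ?_
    simp only [Pi.mul_apply, zero_smul, NormedSpace.exp_zero]
    noncomm_ring
  have h4 := L.hasFDerivAt.comp_hasDerivAt (0 : ℝ) h3
  have h5 : HasDerivAt (fun _ : ℝ => (0 : ℂ)) 0 0 := hasDerivAt_const _ _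
  have h6 : (⇑L ∘ fun t : ℝ => NormedSpace.exp (t • e) * eᴴ *
      NormedSpace.exp (t • (-e)) * moment T m) = fun _ : ℝ => (0 : ℂ) := by
    funext t
    exact hY t
  have h7 : HasDerivAt (fun _ : ℝ => (0 : ℂ)) ((e * eᴴ - eᴴ * e) * moment T m).trace 0 := by
    rw [← h6]
    exact h4
  exact h7.unique h5

end Critical

end Pool.Agent.Lib.MP_a9945b_al
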