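import Mathlib
import Pool.Agent.Lib.MP_a9945b_al.Diag

/-!
Simultaneous diagonalisation of commuting families of diagonalisable matrices.
-/

set_option autoImplicit false

noncomputable section

namespace Pool.Agent.Lib.MP_a9945b_al

open Matrix Filter Topology
open scoped ComplexOrder

variable {n : ℕ}

lemma cj_mulVec_eq {P : GL (Fin n) ℂ} {d : Fin n → ℂ} {v : Fin n → ℂ} {μ : ℂ} {k : ℕ}
    (h : (cj P d - μ • 1) ^ k *ᵥ v = 0) : cj P d *ᵥ v = μ • v := by
  rw [← cj_const P μ, cj_sub, cj_pow] at h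
  set w := ((P⁻¹ : GL (Fin n) ℂ) : Matrix (Fin n) (Fin n) ℂ) *ᵥ v with hw
  have hv : v = (P : Matrix (Fin n) (Fin n) ℂ) *ᵥ w := by
    rw [hw, Matrix.mulVec_mulVec, coe_mul_inv, Matrix.one_mulVec]
  have hcj : ∀ e : Fin n → ℂ, cj P e *ᵥ v = (P : Matrix (Fin n) (Fin n) ℂ) *ᵥ
      (diagonal e *ᵥ w) := by
    intro e
    rw [hw, Matrix.mulVec_mulVec, Matrix.mulVec_mulVec]
    rfl
  have hinj : ∀ u : Fin n → ℂ, (P : Matrix (Fin n) (Fin n) ℂ) *ᵥ u = 0 → u = 0 := by
    intro u hu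
    have := congrArg (fun x => ((P⁻¹ : GL (Fin n) ℂ) : Matrix (Fin n) (Fin n) ℂ) *ᵥ x) hu
    simpa [Matrix.mulVec_mulVec, coe_inv_mul] using this
  rw [hcj] at h
  have h2 := hinj _ h
  have h3 : diagonal d *ᵥ w = μ • w := by
    funext i
    have h4 := congrFun h2 i
    rw [Matrix.mulVec_diagonal] at h4 ⊢
    simp only [Pi.pow_apply, Pi.sub_apply, Pi.zero_apply, mul_eq_zero] at h4
    rw [Pi.smul_apply, smul_eq_mul]
    rcases h4 with h4 | h4
    · have hk : k ≠ 0 := by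
        rintro rfl
        simp at h4
      rw [sub_eq_zero.mp ((pow_eq_zero_iff hk).mp h4)]
    · rw [h4, mul_zero, mul_zero]
  rw [hcj, h3, Matrix.mulVec_smul, ← hv]

theorem sim_diag {ι : Type*} (A : ι → Matrix (Fin n) (Fin n) ℂ)
    (hd : ∀ i, ∃ P d, A i = cj P d) (hc : ∀ i j, Commute (A i) (A j)) :
    ∃ (P : GL (Fin n) ℂ) (χ : ι → Fin n → ℂ), ∀ i, A i = cj P (χ i) := by
  let f : ι → Module.End ℂ (Fin n → ℂ) := fun i => Matrix.toLin' (A i)
  have hcomm : Pairwise fun i j => Commute (f i) (f j) := by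
    intro i j _
    change f i * f j = f j * f i
    have h1 : f i * f j = Matrix.toLin' (A i * A j) := (Matrix.toLin'_mul (A i) (A j)).symm
    have h2 : f j * f i = Matrix.toLin' (A j * A i) := (Matrix.toLin'_mul (A j) (A i)).symm
    rw [h1, h2, (hc i j).eq]
  have h1 := Module.End.iSup_iInf_maxGenEigenspace_eq_top_of_iSup_maxGenEigenspace_eq_top_of_commute
    f hcomm (fun i => Module.End.iSup_maxGenEigenspace_eq_top (f i))
  have h2 : ∀ i μ v, v ∈ (f i).maxGenEigenspace μ → A i *ᵥ v = μ • v := by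
    intro i μ v hv
    rw [Module.End.mem_maxGenEigenspace] at hv
    obtain ⟨k, hk⟩ := hv
    obtain ⟨P, d, hP⟩ := hd i
    rw [hP]
    apply cj_mulVec_eq (k := k)
    rw [← hP]
    have h3 : f i - μ • 1 = Matrix.toLin' (A i - μ • 1) := by
      rw [map_sub, map_smul, Matrix.toLin'_one]
      rfl
    rw [h3, ← Matrix.toLin'_pow, Matrix.toLin'_apply] at hk
    exact hk
  let S : Set (Fin n → ℂ) := {v | ∃ χ : ι → ℂ, ∀ i, A i *ᵥ v = χ i • v}
  have hS : Submodule.span ℂ S = ⊤ := by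
    rw [eq_top_iff, ← h1]
    apply iSup_le
    intro χ v hv
    apply Submodule.subset_span
    refine ⟨χ, fun i => ?_⟩
    apply h2
    exact (Submodule.mem_iInf _).mp hv i
  have hfr : Module.finrank ℂ (Submodule.span ℂ S) = n := by
    rw [hS, finrank_top, Module.finrank_fin_fun]
  obtain ⟨b, hbS, hbspan, hbli⟩ := Submodule.exists_fun_fin_finrank_span_eq ℂ S
  let b' : Fin n → (Fin n → ℂ) := fun i => b (Fin.cast hfr.symm i)
  have hb'li : LinearIndependent ℂ b' :=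
    hbli.comp _ (Fin.cast_injective _)
  have hb'S : ∀ i, b' i ∈ S := fun i => hbS _
  let Q : Matrix (Fin n) (Fin n) ℂ := Matrix.of fun a i => b' i a
  have hQ : IsUnit Q := by
    rw [← Matrix.linearIndependent_cols_iff_isUnit]
    exact hb'li
  choose χ hχ using hb'S
  refine ⟨hQ.unit, fun i a => χ a i, fun i => ?_⟩
  have h4 : A i * Q = Q * diagonal (fun a => χ a i) := by
    ext a c
    rw [Matrix.mul_diagonal]
    have h5 := congrFun (hχ c i) a
    rw [Pi.smul_apply, smul_eq_mul] at h5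
    rw [mul_comm]
    exact h5
  unfold cj
  have hQc : ((hQ.unit : GL (Fin n) ℂ) : Matrix (Fin n) (Fin n) ℂ) = Q := hQ.unit_spec
  rw [hQc, ← h4, Matrix.mul_assoc]
  have h6 : Q * ((hQ.unit⁻¹ : GL (Fin n) ℂ) : Matrix (Fin n) (Fin n) ℂ) = 1 := by
    have := coe_mul_inv (hQ.unit : GL (Fin n) ℂ)
    rwa [hQc] at this
  rw [h6, Matrix.mul_one]

end Pool.Agent.Lib.MP_a9945b_al
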