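import Mathlib
import Pool.Agent.Lib.MP_a9945b_al.Min
import Pool.Agent.Lib.MP_a9945b_al.SimDiag

/-!
Good pairs: a unitary homomorphism together with a hermitian cocycle, and the scaling of the
associated homomorphisms.
-/

set_option autoImplicit false

noncomputable section

namespace Pool.Agent.Lib.MP_a9945b_al

open Matrix Filter Topology
open scoped ComplexOrder

variable {Γ : Type} [Group Γ] {n : ℕ} {G : Subgroup (GL (Fin n) ℂ)}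

/-- the corrected element -/
def wq (N : Subgroup Γ) [N.Normal] (q : Γ ⧸ N) (γ : Γ) : Γ :=
  (q * (γ : Γ ⧸ N)).out⁻¹ * q.out * γ

lemma wq_mem (N : Subgroup Γ) [N.Normal] (q : Γ ⧸ N) (γ : Γ) : wq N q γ ∈ N := by
  rw [← QuotientGroup.eq_one_iff]
  unfold wq
  rw [QuotientGroup.mk_mul, QuotientGroup.mk_mul, QuotientGroup.mk_inv]
  have h1 : ∀ x : Γ ⧸ N, ((x.out : Γ) : Γ ⧸ N) = x := fun x => QuotientGroup.out_eq' x
  rw [h1, h1]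
  group

lemma wq_mul (N : Subgroup Γ) [N.Normal] (q : Γ ⧸ N) (γ δ : Γ) :
    wq N q (γ * δ) = wq N (q * (γ : Γ ⧸ N)) δ * (δ⁻¹ * wq N q γ * δ) := by
  unfold wq
  rw [QuotientGroup.mk_mul, mul_assoc q]
  group

lemma wq_of_mem (N : Subgroup Γ) [N.Normal] (q : Γ ⧸ N) {ν : Γ} (hν : ν ∈ N) :
    wq N q ν = ν := by
  unfold wq
  rw [(QuotientGroup.eq_one_iff ν).mpr hν, mul_one]
  group

/-- A good pair. -/
structure Good (N : Subgroup Γ) [N.Normal] [Fintype (Γ ⧸ N)] (κ : Γ →* G)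
    (b : Γ → Matrix (Fin n) (Fin n) ℂ) : Prop where
  unit : ∀ γ, mat κ γ * (mat κ γ)ᴴ = 1
  herm : ∀ γ, (b γ)ᴴ = b γ
  exp : ∀ γ, ∀ τ : ℝ, InG G (NormedSpace.exp (τ • b γ))
  comm : ∀ γ δ, Commute (b γ) (b δ)
  cocycle : ∀ γ δ, mat κ δ * b (γ * δ) = b γ * mat κ δ + mat κ δ * b δ
  triv : ∀ ν ∈ N, ∀ γ, Commute (mat κ ν) (b γ)
  cent : ∀ γ, (Fintype.card (Γ ⧸ N) : ℝ) • b γ = ∑ q : Γ ⧸ N, b (wq N q γ)

lemma exp_conj_mat (ρ : Γ →* G) (γ : Γ) (X : Matrix (Fin n) (Fin n) ℂ) :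
    NormedSpace.exp (mat ρ γ * X * mat ρ γ⁻¹) =
      mat ρ γ * NormedSpace.exp X * mat ρ γ⁻¹ := by
  have h1 : (mat ρ γ)⁻¹ = mat ρ γ⁻¹ := Matrix.inv_eq_right_inv (mat_mul_inv ρ γ)
  have hu : IsUnit (mat ρ γ) := (ρ γ : GL (Fin n) ℂ).isUnit
  rw [← h1, Matrix.exp_conj _ _ hu]

lemma scale_mul {κ : Γ →* G} {b : Γ → Matrix (Fin n) (Fin n) ℂ}
    (hcomm : ∀ γ δ, Commute (b γ) (b δ))
    (hcoc : ∀ γ δ, mat κ δ * b (γ * δ) = b γ * mat κ δ + mat κ δ * b δ) (τ : ℝ) (γ δ : Γ) :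
    mat κ (γ * δ) * NormedSpace.exp (τ • b (γ * δ)) =
      (mat κ γ * NormedSpace.exp (τ • b γ)) * (mat κ δ * NormedSpace.exp (τ • b δ)) := by
  have h1 : mat κ δ⁻¹ * b γ * mat κ δ = b (γ * δ) - b δ := by
    have h2 := hcoc γ δ
    calc mat κ δ⁻¹ * b γ * mat κ δ = mat κ δ⁻¹ * (b γ * mat κ δ + mat κ δ * b δ) -
          (mat κ δ⁻¹ * mat κ δ) * b δ := by noncomm_ring
      _ = mat κ δ⁻¹ * (mat κ δ * b (γ * δ)) - 1 * b δ := by rw [← h2, mat_inv_mul]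
      _ = (mat κ δ⁻¹ * mat κ δ) * b (γ * δ) - b δ := by noncomm_ring
      _ = _ := by rw [mat_inv_mul, one_mul]
  have h3 : Commute (τ • (mat κ δ⁻¹ * b γ * mat κ δ)) (τ • b δ) := by
    rw [h1]
    exact (((hcomm _ _).sub_left (hcomm _ _)).smul_left _).smul_right _
  have h4 : τ • b (γ * δ) = τ • (mat κ δ⁻¹ * b γ * mat κ δ) + τ • b δ := by
    rw [h1, ← smul_add, sub_add_cancel]
  rw [h4, Matrix.exp_add_of_commute _ _ h3]
  have h5 : τ • (mat κ δ⁻¹ * b γ * mat κ δ) = mat κ δ⁻¹ * (τ • b γ) * mat κ δ := by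
    rw [Matrix.mul_smul, Matrix.smul_mul]
  have h6 := exp_conj_mat κ δ⁻¹ (τ • b γ)
  rw [inv_inv] at h6
  rw [h5, h6, mat_mul]
  calc mat κ γ * mat κ δ * (mat κ δ⁻¹ * NormedSpace.exp (τ • b γ) * mat κ δ *
        NormedSpace.exp (τ • b δ)) = mat κ γ * (mat κ δ * mat κ δ⁻¹) *
        NormedSpace.exp (τ • b γ) * (mat κ δ * NormedSpace.exp (τ • b δ)) := by noncomm_ring
    _ = _ := by rw [mat_mul_inv]; noncomm_ring

lemma Good.exists_scale {N : Subgroup Γ} [N.Normal] [Fintype (Γ ⧸ N)] {κ : Γ →* G}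
    {b : Γ → Matrix (Fin n) (Fin n) ℂ} (h : Good N κ b) (τ : ℝ) :
    ∃ ρ : Γ →* G, ∀ γ, mat ρ γ = mat κ γ * NormedSpace.exp (τ • b γ) :=
  exists_hom (fun γ => (inG_mat κ γ).mul (h.exp γ τ))
    (fun γ δ => scale_mul h.comm h.cocycle τ γ δ)

/-- the scaled homomorphism -/
def Good.scale {N : Subgroup Γ} [N.Normal] [Fintype (Γ ⧸ N)] {κ : Γ →* G}
    {b : Γ → Matrix (Fin n) (Fin n) ℂ} (h : Good N κ b) (τ : ℝ) : Γ →* G :=
  (h.exists_scale τ).choose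

lemma Good.mat_scale {N : Subgroup Γ} [N.Normal] [Fintype (Γ ⧸ N)] {κ : Γ →* G}
    {b : Γ → Matrix (Fin n) (Fin n) ℂ} (h : Good N κ b) (τ : ℝ) (γ : Γ) :
    mat (h.scale τ) γ = mat κ γ * NormedSpace.exp (τ • b γ) :=
  (h.exists_scale τ).choose_spec γ

lemma Good.scale_zero {N : Subgroup Γ} [N.Normal] [Fintype (Γ ⧸ N)] {κ : Γ →* G}
    {b : Γ → Matrix (Fin n) (Fin n) ℂ} (h : Good N κ b) : h.scale 0 = κ := by
  apply hom_ext
  intro γ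
  rw [h.mat_scale, zero_smul, NormedSpace.exp_zero, mul_one]

end Pool.Agent.Lib.MP_a9945b_al
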