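import Mathlib
import Pool.Agent.Lib.MP_a9945b_al.Min

/-!
The adjoint of an infinitesimal centraliser of a normal subgroup of finite index.
-/

set_option autoImplicit false

noncomputable section

namespace Pool.Agent.Lib.MP_a9945b_al

open Matrix Filter Topology
open scoped ComplexOrder

variable {Γ : Type} [Group Γ] {n : ℕ} {G : Subgroup (GL (Fin n) ℂ)}

/-- the conjugates of `e` -/
def conjE (m : Γ →* G) (e : Matrix (Fin n) (Fin n) ℂ) (γ : Γ) : Matrix (Fin n) (Fin n) ℂ :=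
  mat m γ * e * mat m γ⁻¹

lemma conjE_mul_of_comm {m : Γ →* G} {e : Matrix (Fin n) (Fin n) ℂ} (γ : Γ) {ν : Γ}
    (h : Commute (mat m ν) e) : conjE m e (γ * ν) = conjE m e γ := by
  unfold conjE
  rw [_root_.mul_inv_rev, mat_mul, mat_mul]
  calc mat m γ * mat m ν * e * (mat m ν⁻¹ * mat m γ⁻¹)
      = mat m γ * (mat m ν * e) * (mat m ν⁻¹ * mat m γ⁻¹) := by noncomm_ring
    _ = mat m γ * (e * mat m ν) * (mat m ν⁻¹ * mat m γ⁻¹) := by rw [h.eq]
    _ = mat m γ * e * (mat m ν * mat m ν⁻¹) * mat m γ⁻¹ := by noncomm_ring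
    _ = mat m γ * e * mat m γ⁻¹ := by rw [mat_mul_inv, mul_one]

lemma mat_mul_conjE (m : Γ →* G) (e : Matrix (Fin n) (Fin n) ℂ) (γ δ : Γ) :
    mat m γ * conjE m e δ = conjE m e (γ * δ) * mat m γ := by
  unfold conjE
  rw [_root_.mul_inv_rev, mat_mul, mat_mul]
  calc mat m γ * (mat m δ * e * mat m δ⁻¹)
      = mat m γ * mat m δ * e * mat m δ⁻¹ * 1 := by noncomm_ring
    _ = mat m γ * mat m δ * e * mat m δ⁻¹ * (mat m γ⁻¹ * mat m γ) := by rw [mat_inv_mul]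
    _ = _ := by noncomm_ring

lemma inG_exp_conjE {m : Γ →* G} {e : Matrix (Fin n) (Fin n) ℂ}
    (he : ∀ z : ℂ, InG G (NormedSpace.exp (z • e))) (γ : Γ) (z : ℂ) :
    InG G (NormedSpace.exp (z • conjE m e γ)) := by
  have h1 : (mat m γ)⁻¹ = mat m γ⁻¹ := Matrix.inv_eq_right_inv (mat_mul_inv m γ)
  have hu : IsUnit (mat m γ) := (m γ : GL (Fin n) ℂ).isUnit
  have h2 := Matrix.exp_conj (mat m γ) (z • e) hu
  rw [h1] at h2
  have h3 : z • conjE m e γ = mat m γ * (z • e) * mat m γ⁻¹ := by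
    unfold conjE
    rw [Matrix.mul_smul, Matrix.smul_mul]
  rw [h3, h2]
  exact ((inG_mat m γ).mul (he z)).mul (inG_mat m γ⁻¹)

section Identity

/-- the algebraic identity behind the star lemma -/
lemma star_identity {Q : Type*} [Fintype Q] (p : Equiv.Perm Q)
    (E : Q → Matrix (Fin n) (Fin n) ℂ) (A : Matrix (Fin n) (Fin n) ℂ)
    (h : ∀ q, A * E q = E (p q) * A) :
    ∑ q, ((E q * (E q)ᴴ - (E q)ᴴ * E q) * (A * Aᴴ - Aᴴ * A)).trace =
      ∑ q, ((A * (E q)ᴴ - (E (p q))ᴴ * A) * (A * (E q)ᴴ - (E (p q))ᴴ * A)ᴴ).trace := by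
  have h' : ∀ q, (E q)ᴴ * Aᴴ = Aᴴ * (E (p q))ᴴ := by
    intro q
    rw [← Matrix.conjTranspose_mul, h, Matrix.conjTranspose_mul]
  have e1 : ∀ q, ((E q * (E q)ᴴ - (E q)ᴴ * E q) * (A * Aᴴ - Aᴴ * A)).trace =
      (E q * (E q)ᴴ * (A * Aᴴ)).trace - ((E (p q))ᴴ * E (p q) * (A * Aᴴ)).trace
        - ((E q)ᴴ * E q * (A * Aᴴ)).trace + ((E q)ᴴ * E q * (Aᴴ * A)).trace := by
    intro q
    have e2 : (E q * (E q)ᴴ * (Aᴴ * A)).trace = ((E (p q))ᴴ * E (p q) * (A * Aᴴ)).trace := by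
      calc (E q * (E q)ᴴ * (Aᴴ * A)).trace = (E q * ((E q)ᴴ * Aᴴ) * A).trace := by
            congr 1; noncomm_ring
        _ = (E q * (Aᴴ * (E (p q))ᴴ) * A).trace := by rw [h']
        _ = (A * (E q * (Aᴴ * (E (p q))ᴴ))).trace := by rw [Matrix.trace_mul_comm]
        _ = ((A * E q) * (Aᴴ * (E (p q))ᴴ)).trace := by congr 1; noncomm_ring
        _ = ((E (p q) * A) * (Aᴴ * (E (p q))ᴴ)).trace := by rw [h]
        _ = ((E (p q) * (A * Aᴴ)) * (E (p q))ᴴ).trace := by congr 1; noncomm_ring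
        _ = ((E (p q))ᴴ * (E (p q) * (A * Aᴴ))).trace := by rw [Matrix.trace_mul_comm]
        _ = _ := by congr 1; noncomm_ring
    rw [← e2]
    simp only [Matrix.sub_mul, Matrix.mul_sub, Matrix.trace_sub]
    ring
  have e3 : ∀ q, ((A * (E q)ᴴ - (E (p q))ᴴ * A) * (A * (E q)ᴴ - (E (p q))ᴴ * A)ᴴ).trace =
      ((E q)ᴴ * E q * (Aᴴ * A)).trace - 2 * ((E (p q))ᴴ * E (p q) * (A * Aᴴ)).trace
        + (E (p q) * (E (p q))ᴴ * (A * Aᴴ)).trace := by
    intro q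
    have t1 : (A * (E q)ᴴ * (E q * Aᴴ)).trace = ((E q)ᴴ * E q * (Aᴴ * A)).trace := by
      calc (A * (E q)ᴴ * (E q * Aᴴ)).trace = (A * ((E q)ᴴ * E q * Aᴴ)).trace := by
            congr 1; noncomm_ring
        _ = ((E q)ᴴ * E q * Aᴴ * A).trace := by rw [Matrix.trace_mul_comm]
        _ = _ := by congr 1; noncomm_ring
    have t2 : (A * (E q)ᴴ * (Aᴴ * E (p q))).trace =
        ((E (p q))ᴴ * E (p q) * (A * Aᴴ)).trace := by
      calc (A * (E q)ᴴ * (Aᴴ * E (p q))).trace = (A * ((E q)ᴴ * Aᴴ) * E (p q)).trace := by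
            congr 1; noncomm_ring
        _ = (A * (Aᴴ * (E (p q))ᴴ) * E (p q)).trace := by rw [h']
        _ = ((A * Aᴴ) * ((E (p q))ᴴ * E (p q))).trace := by congr 1; noncomm_ring
        _ = _ := by rw [Matrix.trace_mul_comm]
    have t3 : ((E (p q))ᴴ * A * (E q * Aᴴ)).trace =
        ((E (p q))ᴴ * E (p q) * (A * Aᴴ)).trace := by
      calc ((E (p q))ᴴ * A * (E q * Aᴴ)).trace = ((E (p q))ᴴ * (A * E q) * Aᴴ).trace := by
            congr 1; noncomm_ring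
        _ = ((E (p q))ᴴ * (E (p q) * A) * Aᴴ).trace := by rw [h]
        _ = _ := by congr 1; noncomm_ring
    have t4 : ((E (p q))ᴴ * A * (Aᴴ * E (p q))).trace =
        (E (p q) * (E (p q))ᴴ * (A * Aᴴ)).trace := by
      calc ((E (p q))ᴴ * A * (Aᴴ * E (p q))).trace
          = (((E (p q))ᴴ * (A * Aᴴ)) * E (p q)).trace := by congr 1; noncomm_ring
        _ = (E (p q) * ((E (p q))ᴴ * (A * Aᴴ))).trace := by rw [Matrix.trace_mul_comm]
        _ = _ := by congr 1; noncomm_ring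
    rw [Matrix.conjTranspose_sub, Matrix.conjTranspose_mul, Matrix.conjTranspose_mul,
      Matrix.conjTranspose_conjTranspose, Matrix.conjTranspose_conjTranspose, Matrix.sub_mul,
      Matrix.mul_sub, Matrix.mul_sub, Matrix.trace_sub, Matrix.trace_sub, Matrix.trace_sub,
      t1, t2, t3, t4]
    ring
  rw [Finset.sum_congr rfl (fun q _ => e1 q), Finset.sum_congr rfl (fun q _ => e3 q)]
  have s1 : ∑ q, ((E (p q))ᴴ * E (p q) * (A * Aᴴ)).trace =
      ∑ q, ((E q)ᴴ * E q * (A * Aᴴ)).trace :=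
    Equiv.sum_comp p (fun q => ((E q)ᴴ * E q * (A * Aᴴ)).trace)
  have s2 : ∑ q, (E (p q) * (E (p q))ᴴ * (A * Aᴴ)).trace =
      ∑ q, (E q * (E q)ᴴ * (A * Aᴴ)).trace :=
    Equiv.sum_comp p (fun q => (E q * (E q)ᴴ * (A * Aᴴ)).trace)
  simp only [Finset.sum_add_distrib, Finset.sum_sub_distrib, ← Finset.mul_sum, s1, s2]
  ring

end Identity

/-- The star lemma. -/
theorem star_lemma {T : Finset Γ} (hcl : Subgroup.closure (T : Set Γ) = ⊤) {m : Γ →* G}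
    (hmin : ∀ ρ : Γ →* G, point ρ = point m → energy T m ≤ energy T ρ)
    (hstar : ∀ A, InG G A → InG G Aᴴ) (N : Subgroup Γ) [N.Normal] [N.FiniteIndex]
    {e : Matrix (Fin n) (Fin n) ℂ} (he : ∀ z : ℂ, InG G (NormedSpace.exp (z • e)))
    (hcomm : ∀ ν ∈ N, Commute (mat m ν) e) : ∀ ν ∈ N, Commute (mat m ν) eᴴ := by
  have : Fintype (Γ ⧸ N) := Fintype.ofFinite _
  let E : Γ ⧸ N → Matrix (Fin n) (Fin n) ℂ := fun q => conjE m e q.out
  have hE : ∀ γ : Γ, E (γ : Γ ⧸ N) = conjE m e γ := by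
    intro γ
    obtain ⟨ν, hν⟩ := QuotientGroup.mk_out_eq_mul N γ
    change conjE m e (Quotient.out (γ : Γ ⧸ N)) = _
    rw [hν]
    exact conjE_mul_of_comm γ (hcomm _ ν.2)
  have hact : ∀ (γ : Γ) (q : Γ ⧸ N), mat m γ * E q = E (γ • q) * mat m γ := by
    intro γ q
    obtain ⟨δ, rfl⟩ := QuotientGroup.mk_surjective q
    have h1 : γ • (δ : Γ ⧸ N) = ((γ * δ : Γ) : Γ ⧸ N) := rfl
    rw [h1, hE, hE]
    exact mat_mul_conjE m e γ δ
  have hcrit : ∀ q, ((E q * (E q)ᴴ - (E q)ᴴ * E q) * moment T m).trace = 0 := by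
    intro q
    exact critical_bracket hmin hstar (fun z => inG_exp_conjE he _ z)
  have hsum : ∑ σ ∈ T, ∑ q, ((mat m σ * (E q)ᴴ - (E (σ • q))ᴴ * mat m σ) *
      (mat m σ * (E q)ᴴ - (E (σ • q))ᴴ * mat m σ)ᴴ).trace = 0 := by
    have h1 : ∀ σ ∈ T, ∑ q, ((mat m σ * (E q)ᴴ - (E (σ • q))ᴴ * mat m σ) *
      (mat m σ * (E q)ᴴ - (E (σ • q))ᴴ * mat m σ)ᴴ).trace = ∑ q,
      ((E q * (E q)ᴴ - (E q)ᴴ * E q) *
        (mat m σ * (mat m σ)ᴴ - (mat m σ)ᴴ * mat m σ)).trace := by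
      intro σ _
      exact (star_identity (MulAction.toPerm σ) E (mat m σ) (hact σ)).symm
    rw [Finset.sum_congr rfl h1, Finset.sum_comm]
    apply Finset.sum_eq_zero
    intro q _
    rw [← Matrix.trace_sum, ← Finset.mul_sum]
    exact hcrit q
  have hzero : ∀ σ ∈ T, ∀ q, mat m σ * (E q)ᴴ = (E (σ • q))ᴴ * mat m σ := by
    have h1 : ∑ σ ∈ T, ∑ q, nsq (mat m σ * (E q)ᴴ - (E (σ • q))ᴴ * mat m σ) = 0 := by
      have := congrArg Complex.re hsum
      rw [Complex.re_sum] at this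
      simp only [Complex.re_sum, Complex.zero_re] at this
      exact this
    intro σ hσ q
    have h2 := (Finset.sum_eq_zero_iff_of_nonneg (fun σ _ =>
      Finset.sum_nonneg fun q _ => nsq_nonneg _)).mp h1 σ hσ
    have h3 := (Finset.sum_eq_zero_iff_of_nonneg (fun q _ => nsq_nonneg _)).mp h2 q
      (Finset.mem_univ q)
    exact sub_eq_zero.mp (nsq_eq_zero h3)
  have hall : ∀ γ : Γ, ∀ q, mat m γ * (E q)ᴴ = (E (γ • q))ᴴ * mat m γ := by
    intro γ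
    have hmem : γ ∈ Subgroup.closure (T : Set Γ) := by rw [hcl]; trivial
    induction hmem using Subgroup.closure_induction with
    | mem x hx => exact hzero x hx
    | one =>
      intro q
      rw [one_smul, mat_one, one_mul, mul_one]
    | mul x y _ _ hx hy =>
      intro q
      rw [mat_mul, mul_assoc, hy, ← mul_assoc, hx, mul_assoc, mul_smul]
    | inv x _ hx =>
      intro q
      have h1 := hx (x⁻¹ • q)
      rw [smul_inv_smul] at h1
      calc mat m x⁻¹ * (E q)ᴴ = mat m x⁻¹ * ((E q)ᴴ * mat m x) * mat m x⁻¹ := by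
            rw [mul_assoc, mul_assoc, mat_mul_inv, mul_one]
        _ = mat m x⁻¹ * (mat m x * (E (x⁻¹ • q))ᴴ) * mat m x⁻¹ := by rw [h1]
        _ = (mat m x⁻¹ * mat m x) * (E (x⁻¹ • q))ᴴ * mat m x⁻¹ := by noncomm_ring
        _ = (E (x⁻¹ • q))ᴴ * mat m x⁻¹ := by rw [mat_inv_mul, one_mul]
  intro ν hν
  have h1 := hall ν ((1 : Γ) : Γ ⧸ N)
  have h2 : ν • ((1 : Γ) : Γ ⧸ N) = ((1 : Γ) : Γ ⧸ N) := by
    have : ν • ((1 : Γ) : Γ ⧸ N) = ((ν * 1 : Γ) : Γ ⧸ N) := rfl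
    rw [this, mul_one, QuotientGroup.eq]
    simpa using hν
  have h3 : conjE m e 1 = e := by
    unfold conjE
    rw [inv_one, mat_one, one_mul, mul_one]
  rw [h2, hE, h3] at h1
  exact h1

end Pool.Agent.Lib.MP_a9945b_al
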