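import Mathlib
import Pool.Agent.Lib.MP_a9945b_al.Star
import Pool.Agent.Lib.MP_a9945b_al.Good
import Pool.Agent.Lib.MP_a9945b_al.Collect

/-!
The hyperbolic part of a minimal homomorphism on a normal subgroup of finite index.
-/

set_option autoImplicit false

noncomputable section

namespace Pool.Agent.Lib.MP_a9945b_al

open Matrix Filter Topology
open scoped ComplexOrder

variable {Γ : Type} [Group Γ] {n : ℕ} {G : Subgroup (GL (Fin n) ℂ)}

/-- central elements of `m(N)` are diagonalisable for minimal `m` -/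
lemma diag_of_central (hZ : ZariskiClosed G) (hstar : ∀ A, InG G A → InG G Aᴴ) {T : Finset Γ}
    (hcl : Subgroup.closure (T : Set Γ) = ⊤) {m : Γ →* G}
    (hmin : ∀ ρ : Γ →* G, point ρ = point m → energy T m ≤ energy T ρ)
    (N : Subgroup Γ) [N.Normal] [N.FiniteIndex] {ν : Γ} (hν : ν ∈ N)
    (hc : ∀ ν' ∈ N, Commute (mat m ν) (mat m ν')) :
    ∃ (P : GL (Fin n) ℂ) (d : Fin n → ℂˣ), mat m ν = cj P (fun i => (d i : ℂ)) := by
  obtain ⟨L, hL1, hL2, hL3, hL4⟩ := jordan_log hZ (mat m ν) (inG_mat m ν)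
  have h1 : ∀ ν' ∈ N, Commute (mat m ν') L := fun ν' hν' => hL2 _ (hc ν' hν').symm
  have h2 := star_lemma hcl hmin hstar N hL3 h1 ν hν
  have h3 : Commute Lᴴ L := hL2 _ h2.symm
  have h4 : L = 0 := eq_zero_of_normal_nilpotent hL1 h3.symm
  exact hL4 h4

/-- functions of diagonalisable matrices do not depend on the diagonalisation -/
lemma cj_fun_unique {P P' : GL (Fin n) ℂ} {d d' : Fin n → ℂ} (h : cj P d = cj P' d')
    (f : ℂ → ℂ) : cj P (fun i => f (d i)) = cj P' (fun i => f (d' i)) := by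
  set R : Matrix (Fin n) (Fin n) ℂ := ((P'⁻¹ : GL (Fin n) ℂ) : Matrix (Fin n) (Fin n) ℂ) *
    (P : Matrix (Fin n) (Fin n) ℂ) with hR
  have e1 : (P : Matrix (Fin n) (Fin n) ℂ) = (P' : Matrix (Fin n) (Fin n) ℂ) * R := by
    rw [hR, ← Matrix.mul_assoc, coe_mul_inv, Matrix.one_mul]
  have e2 : R * ((P⁻¹ : GL (Fin n) ℂ) : Matrix (Fin n) (Fin n) ℂ) =
      ((P'⁻¹ : GL (Fin n) ℂ) : Matrix (Fin n) (Fin n) ℂ) := by
    rw [hR, Matrix.mul_assoc, coe_mul_inv, Matrix.mul_one]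
  have h1 : R * diagonal d = diagonal d' * R := by
    have h2 : ((P'⁻¹ : GL (Fin n) ℂ) : Matrix (Fin n) (Fin n) ℂ) * cj P d *
        (P : Matrix (Fin n) (Fin n) ℂ) = ((P'⁻¹ : GL (Fin n) ℂ) : Matrix (Fin n) (Fin n) ℂ) *
        cj P' d' * (P : Matrix (Fin n) (Fin n) ℂ) := by rw [h]
    have h3 : ((P'⁻¹ : GL (Fin n) ℂ) : Matrix (Fin n) (Fin n) ℂ) * cj P d *
        (P : Matrix (Fin n) (Fin n) ℂ) = R * diagonal d := by
      unfold cj
      calc _ = ((P'⁻¹ : GL (Fin n) ℂ) : Matrix (Fin n) (Fin n) ℂ) *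
            (P : Matrix (Fin n) (Fin n) ℂ) * diagonal d *
            (((P⁻¹ : GL (Fin n) ℂ) : Matrix (Fin n) (Fin n) ℂ) *
            (P : Matrix (Fin n) (Fin n) ℂ)) := by simp only [Matrix.mul_assoc]
        _ = _ := by rw [coe_inv_mul, Matrix.mul_one]
    have h4 : ((P'⁻¹ : GL (Fin n) ℂ) : Matrix (Fin n) (Fin n) ℂ) * cj P' d' *
        (P : Matrix (Fin n) (Fin n) ℂ) = diagonal d' * R := by
      unfold cj
      calc _ = (((P'⁻¹ : GL (Fin n) ℂ) : Matrix (Fin n) (Fin n) ℂ) *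
            (P' : Matrix (Fin n) (Fin n) ℂ)) * diagonal d' *
            (((P'⁻¹ : GL (Fin n) ℂ) : Matrix (Fin n) (Fin n) ℂ) *
            (P : Matrix (Fin n) (Fin n) ℂ)) := by simp only [Matrix.mul_assoc]
        _ = _ := by rw [coe_inv_mul, Matrix.one_mul]
    rw [h3, h4] at h2
    exact h2
  have h5 : R * diagonal (fun i => f (d i)) = diagonal (fun i => f (d' i)) * R := by
    ext i j
    have h6 := congrFun (congrFun h1 i) j
    rw [Matrix.mul_diagonal, Matrix.diagonal_mul] at h6 ⊢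
    by_cases hR0 : R i j = 0
    · rw [hR0, zero_mul, mul_zero]
    · have h7 : d j = d' i := by
        rw [mul_comm] at h6
        exact mul_right_cancel₀ hR0 h6
      rw [h7, mul_comm]
  unfold cj
  rw [e1, Matrix.mul_assoc (P' : Matrix (Fin n) (Fin n) ℂ) R, h5, ← Matrix.mul_assoc,
    Matrix.mul_assoc, e2]

/-- the multiplicative map `μ ↦ exp(z log |μ|)` -/
def absPow (z : ℂ) : ℂˣ →* ℂˣ where
  toFun μ := Units.mk0 (Complex.exp (z * (Real.log ‖(μ : ℂ)‖ : ℂ))) (Complex.exp_ne_zero _)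
  map_one' := by
    apply Units.ext
    simp
  map_mul' μ ν := by
    apply Units.ext
    simp only [Units.val_mk0, Units.val_mul]
    rw [norm_mul, Real.log_mul (by simp) (by simp), ← Complex.exp_add]
    push_cast
    ring_nf

/-- Data of the hyperbolic part of `m` on `N`. -/
structure Hyp (m : Γ →* G) (N : Subgroup Γ) (P : GL (Fin n) ℂ) (χ : Γ → Fin n → ℂˣ) : Prop where
  eq : ∀ x ∈ N, mat m x = cj P (fun i => (χ x i : ℂ))

/-- the logarithm of the hyperbolic part -/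
def hlog (P : GL (Fin n) ℂ) (χ : Γ → Fin n → ℂˣ) (x : Γ) : Matrix (Fin n) (Fin n) ℂ :=
  cj P (fun i => ((Real.log ‖(χ x i : ℂ)‖ : ℝ) : ℂ))

section

variable {m : Γ →* G} {N : Subgroup Γ} {P : GL (Fin n) ℂ} {χ : Γ → Fin n → ℂˣ}

lemma Hyp.mul (h : Hyp m N P χ) {x y : Γ} (hx : x ∈ N) (hy : y ∈ N) (i : Fin n) :
    (χ (x * y) i : ℂ) = χ x i * χ y i := by
  have h1 := h.eq _ (N.mul_mem hx hy)
  rw [mat_mul, h.eq x hx, h.eq y hy, cj_mul] at h1
  exact (congrFun (cj_injective P h1) i).symm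

lemma Hyp.hlog_mul (h : Hyp m N P χ) {x y : Γ} (hx : x ∈ N) (hy : y ∈ N) :
    hlog P χ (x * y) = hlog P χ x + hlog P χ y := by
  unfold hlog
  rw [cj_add]
  congr 1
  funext i
  rw [h.mul hx hy, norm_mul, Real.log_mul (by simp) (by simp), Complex.ofReal_add]
  rfl

lemma Hyp.commute_hlog (h : Hyp m N P χ) {x : Γ} (hx : x ∈ N) {X : Matrix (Fin n) (Fin n) ℂ}
    (hX : Commute X (mat m x)) : Commute X (hlog P χ x) := by
  rw [h.eq x hx] at hX
  refine commute_cj ?_ hX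
  intro i j hij
  rw [hij]

lemma Hyp.exp_mem (h : Hyp m N P χ) (hZ : ZariskiClosed G) {x : Γ} (hx : x ∈ N) (z : ℂ) :
    InG G (NormedSpace.exp (z • hlog P χ x)) := by
  have h1 := inG_diag hZ P (χ x) (by
    have := inG_mat m x
    rw [h.eq x hx] at this
    exact this) (absPow z)
  have h2 : NormedSpace.exp (z • hlog P χ x) =
      cj P (fun i => (absPow z (χ x i) : ℂ)) := by
    unfold hlog
    rw [cj_smul, exp_cj]
    rfl
  rw [h2]
  exact h1

lemma Hyp.herm (h : Hyp m N P χ) [N.Normal] [N.FiniteIndex] (hZ : ZariskiClosed G)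
    (hstar : ∀ A, InG G A → InG G Aᴴ) {T : Finset Γ}
    (hcl : Subgroup.closure (T : Set Γ) = ⊤)
    (hmin : ∀ ρ : Γ →* G, point ρ = point m → energy T m ≤ energy T ρ) {x : Γ} (hx : x ∈ N) :
    (hlog P χ x)ᴴ = hlog P χ x := by
  have h1 : ∀ ν ∈ N, Commute (mat m ν) (hlog P χ x) := by
    intro ν hν
    rw [h.eq ν hν]
    exact cj_commute _ _ _
  have h2 := star_lemma hcl hmin hstar N (h.exp_mem hZ hx) h1 x hx
  have h3 := h.commute_hlog hx h2.symm
  refine isHermitian_of_normal ?_ ?_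
  · intro i
    exact Complex.conj_ofReal _
  · exact h3.symm

lemma Hyp.conj (h : Hyp m N P χ) [N.Normal] {x : Γ} (hx : x ∈ N) (γ : Γ) :
    mat m γ * hlog P χ (γ⁻¹ * x * γ) = hlog P χ x * mat m γ := by
  have hx' : γ⁻¹ * x * γ ∈ N := by
    have := (inferInstance : N.Normal).conj_mem x hx γ⁻¹
    simpa using this
  have h1 : mat m (γ⁻¹ * x * γ) = cj ((m γ : GL (Fin n) ℂ)⁻¹ * P) (fun i => (χ x i : ℂ)) := by
    rw [mat_mul, mat_mul, h.eq x hx]
    unfold cj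
    have e1 : (((m γ : GL (Fin n) ℂ)⁻¹ * P : GL (Fin n) ℂ) : Matrix (Fin n) (Fin n) ℂ) =
        mat m γ⁻¹ * (P : Matrix (Fin n) (Fin n) ℂ) := by
      simp [mat]
    have e2 : (((((m γ : GL (Fin n) ℂ)⁻¹ * P)⁻¹ : GL (Fin n) ℂ)) :
        Matrix (Fin n) (Fin n) ℂ) =
        ((P⁻¹ : GL (Fin n) ℂ) : Matrix (Fin n) (Fin n) ℂ) * mat m γ := by
      rw [_root_.mul_inv_rev, inv_inv, Units.val_mul]
    rw [e1, e2]
    simp only [Matrix.mul_assoc]
  rw [h.eq _ hx'] at h1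
  have h2 := cj_fun_unique h1 (fun z => ((Real.log ‖z‖ : ℝ) : ℂ))
  have h3 : hlog P χ (γ⁻¹ * x * γ) = mat m γ⁻¹ * hlog P χ x * mat m γ := by
    unfold hlog
    rw [h2]
    unfold cj
    have e1 : (((m γ : GL (Fin n) ℂ)⁻¹ * P : GL (Fin n) ℂ) : Matrix (Fin n) (Fin n) ℂ) =
        mat m γ⁻¹ * (P : Matrix (Fin n) (Fin n) ℂ) := by
      simp [mat]
    have e2 : (((((m γ : GL (Fin n) ℂ)⁻¹ * P)⁻¹ : GL (Fin n) ℂ)) :
        Matrix (Fin n) (Fin n) ℂ) =
        ((P⁻¹ : GL (Fin n) ℂ) : Matrix (Fin n) (Fin n) ℂ) * mat m γ := by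
      rw [_root_.mul_inv_rev, inv_inv, Units.val_mul]
    rw [e1, e2]
    simp only [Matrix.mul_assoc]
  rw [h3, ← Matrix.mul_assoc, ← Matrix.mul_assoc, mat_mul_inv, Matrix.one_mul]

end

/-- existence of the hyperbolic part -/
lemma exists_hyp {m : Γ →* G} {N : Subgroup Γ}
    (hd : ∀ x ∈ N, ∃ (P : GL (Fin n) ℂ) (d : Fin n → ℂˣ), mat m x = cj P (fun i => (d i : ℂ)))
    (hc : ∀ x ∈ N, ∀ y ∈ N, Commute (mat m x) (mat m y)) :
    ∃ (P : GL (Fin n) ℂ) (χ : Γ → Fin n → ℂˣ), Hyp m N P χ := by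
  obtain ⟨P, χ, hχ⟩ := sim_diag (fun x : N => mat m (x : Γ))
    (fun x => by
      obtain ⟨P, d, h⟩ := hd x x.2
      exact ⟨P, _, h⟩) (fun x y => hc x x.2 y y.2)
  have hne : ∀ (x : N) i, χ x i ≠ 0 := by
    intro x i h0
    have h1 : cj P (χ x) * cj P (χ x⁻¹) = cj P 1 := by
      rw [← hχ, ← hχ, cj_one, ← mat_mul]
      simp [mat]
    rw [cj_mul] at h1
    have h2 := congrFun (cj_injective P h1) i
    rw [Pi.mul_apply, h0, zero_mul] at h2
    exact zero_ne_one h2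
  classical
  refine ⟨P, fun x i => if hx : x ∈ N then Units.mk0 (χ ⟨x, hx⟩ i) (hne _ _) else 1, ⟨?_⟩⟩
  intro x hx
  rw [hχ ⟨x, hx⟩]
  congr 1
  funext i
  rw [dif_pos hx]
  rfl

end Pool.Agent.Lib.MP_a9945b_al
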