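import Mathlib
import Pool.Agent.Lib.MP_a9945b_al.Torus

/-!
Every point of the character variety of a supersolvable group is represented by a good pair.
-/

set_option autoImplicit false

noncomputable section

namespace Pool.Agent.Lib.MP_a9945b_al

open Matrix Filter Topology
open scoped ComplexOrder

variable {Γ : Type} [Group Γ] {n : ℕ} {G : Subgroup (GL (Fin n) ℂ)}

/-- exponents of the averaged cocycle -/
def bexp (N : Subgroup Γ) [N.Normal] [Fintype (Γ ⧸ N)] (χ : Γ → Fin n → ℂˣ) (γ : Γ)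
    (i : Fin n) : ℂ :=
  (((Fintype.card (Γ ⧸ N) : ℝ)⁻¹ * ∑ q : Γ ⧸ N, Real.log ‖(χ (wq N q γ) i : ℂ)‖ : ℝ) : ℂ)

/-- the averaged cocycle -/
def bcoc (N : Subgroup Γ) [N.Normal] [Fintype (Γ ⧸ N)] (P : GL (Fin n) ℂ)
    (χ : Γ → Fin n → ℂˣ) (γ : Γ) : Matrix (Fin n) (Fin n) ℂ :=
  cj P (bexp N χ γ)

section

variable {m : Γ →* G} {N : Subgroup Γ} [N.Normal] [Fintype (Γ ⧸ N)] {P : GL (Fin n) ℂ}
  {χ : Γ → Fin n → ℂˣ}

lemma card_ne_zero : (Fintype.card (Γ ⧸ N) : ℝ) ≠ 0 := by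
  have : 0 < Fintype.card (Γ ⧸ N) := Fintype.card_pos
  positivity

lemma cj_sum {ι : Type*} (s : Finset ι) (P : GL (Fin n) ℂ) (d : ι → Fin n → ℂ) :
    ∑ q ∈ s, cj P (d q) = cj P (∑ q ∈ s, d q) := by
  classical
  induction s using Finset.induction_on with
  | empty =>
    rw [Finset.sum_empty, Finset.sum_empty]
    have := cj_const P 0
    rw [zero_smul] at this
    exact this.symm
  | insert a s ha ih =>
    rw [Finset.sum_insert ha, Finset.sum_insert ha, ih, cj_add]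

lemma card_smul_bcoc (γ : Γ) : (Fintype.card (Γ ⧸ N) : ℝ) • bcoc N P χ γ =
    ∑ q : Γ ⧸ N, hlog P χ (wq N q γ) := by
  unfold hlog
  rw [cj_sum, bcoc, ← Complex.coe_smul, cj_smul]
  congr 1
  funext i
  rw [Pi.smul_apply, bexp, Finset.sum_apply, smul_eq_mul]
  push_cast
  rw [← mul_assoc, mul_inv_cancel₀, one_mul]
  exact_mod_cast card_ne_zero (N := N)

lemma bcoc_of_mem {ν : Γ} (hν : ν ∈ N) : bcoc N P χ ν = hlog P χ ν := by
  have h1 := card_smul_bcoc (N := N) (P := P) (χ := χ) ν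
  have h2 : ∑ q : Γ ⧸ N, hlog P χ (wq N q ν) =
      (Fintype.card (Γ ⧸ N) : ℝ) • hlog P χ ν := by
    rw [Finset.sum_congr rfl (fun q _ => by rw [wq_of_mem N q hν]), Finset.sum_const,
      Finset.card_univ, ← Nat.cast_smul_eq_nsmul ℝ]
  rw [h2] at h1
  exact smul_right_injective _ (card_ne_zero (N := N)) h1

lemma bcoc_comm (γ δ : Γ) : Commute (bcoc N P χ γ) (bcoc N P χ δ) := cj_commute _ _ _

lemma bcoc_cocycle_aux (h : Hyp m N P χ) (γ δ : Γ) :
    ∑ q : Γ ⧸ N, hlog P χ (wq N q (γ * δ)) = (∑ q : Γ ⧸ N, hlog P χ (wq N q δ)) +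
      ∑ q : Γ ⧸ N, hlog P χ (δ⁻¹ * wq N q γ * δ) := by
  have h1 : ∀ q : Γ ⧸ N, hlog P χ (wq N q (γ * δ)) =
      hlog P χ (wq N (q * (γ : Γ ⧸ N)) δ) + hlog P χ (δ⁻¹ * wq N q γ * δ) := by
    intro q
    rw [wq_mul, h.hlog_mul (wq_mem N _ _)]
    have := (inferInstance : N.Normal).conj_mem _ (wq_mem N q γ) δ⁻¹
    simpa using this
  rw [Finset.sum_congr rfl (fun q _ => h1 q), Finset.sum_add_distrib]
  congr 1
  exact Equiv.sum_comp (Equiv.mulRight (γ : Γ ⧸ N)) (fun q => hlog P χ (wq N q δ))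

lemma bcoc_cocycle (h : Hyp m N P χ) (γ δ : Γ) :
    mat m δ * bcoc N P χ (γ * δ) = bcoc N P χ γ * mat m δ + mat m δ * bcoc N P χ δ := by
  have hne := card_ne_zero (N := N)
  have h2 : (Fintype.card (Γ ⧸ N) : ℝ) • (mat m δ * bcoc N P χ (γ * δ)) =
      (Fintype.card (Γ ⧸ N) : ℝ) • (bcoc N P χ γ * mat m δ + mat m δ * bcoc N P χ δ) := by
    have e1 : (Fintype.card (Γ ⧸ N) : ℝ) • (mat m δ * bcoc N P χ (γ * δ)) =
        mat m δ * ((Fintype.card (Γ ⧸ N) : ℝ) • bcoc N P χ (γ * δ)) :=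
      (Matrix.mul_smul _ _ _).symm
    have e2 : (Fintype.card (Γ ⧸ N) : ℝ) • (bcoc N P χ γ * mat m δ + mat m δ * bcoc N P χ δ) =
        ((Fintype.card (Γ ⧸ N) : ℝ) • bcoc N P χ γ) * mat m δ +
        mat m δ * ((Fintype.card (Γ ⧸ N) : ℝ) • bcoc N P χ δ) := by
      rw [smul_add, Matrix.smul_mul, Matrix.mul_smul]
    rw [e1, e2, card_smul_bcoc, card_smul_bcoc, card_smul_bcoc, bcoc_cocycle_aux h,
      Matrix.mul_add, add_comm]
    congr 1
    rw [Finset.mul_sum, Finset.sum_mul]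
    refine Finset.sum_congr rfl fun q _ => ?_
    exact h.conj (wq_mem N q γ) δ
  exact (smul_right_injective (Matrix (Fin n) (Fin n) ℂ) hne) h2

lemma exp_bcoc_mem (h : Hyp m N P χ) (hZ : ZariskiClosed G) (γ : Γ) (τ : ℝ) :
    InG G (NormedSpace.exp (τ • bcoc N P χ γ)) := by
  have h1 : τ • bcoc N P χ γ =
      cj P (∑ q : Γ ⧸ N, fun i => (((Fintype.card (Γ ⧸ N) : ℝ)⁻¹ * τ : ℝ) : ℂ) *
        ((Real.log ‖(χ (wq N q γ) i : ℂ)‖ : ℝ) : ℂ)) := by
    rw [bcoc, ← Complex.coe_smul, cj_smul]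
    congr 1
    funext i
    rw [Pi.smul_apply, bexp, Finset.sum_apply, smul_eq_mul, ← Finset.mul_sum]
    push_cast
    ring
  rw [h1]
  have key : ∀ s : Finset (Γ ⧸ N), InG G (NormedSpace.exp (cj P (∑ q ∈ s, fun i =>
      (((Fintype.card (Γ ⧸ N) : ℝ)⁻¹ * τ : ℝ) : ℂ) *
        ((Real.log ‖(χ (wq N q γ) i : ℂ)‖ : ℝ) : ℂ)))) := by
    classical
    intro s
    induction s using Finset.induction_on with
    | empty =>
      rw [Finset.sum_empty]
      have := cj_const P 0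
      rw [zero_smul] at this
      change InG G (NormedSpace.exp (cj P (fun _ => 0)))
      rw [this, NormedSpace.exp_zero]
      exact InG.one
    | insert a s ha ih =>
      rw [Finset.sum_insert ha, ← cj_add, Matrix.exp_add_of_commute _ _ (cj_commute _ _ _)]
      refine InG.mul ?_ ih
      have h2 := h.exp_mem hZ (wq_mem N a γ) ((((Fintype.card (Γ ⧸ N) : ℝ)⁻¹ * τ : ℝ) : ℂ))
      unfold hlog at h2
      rw [cj_smul] at h2
      exact h2
  exact key _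

lemma bcoc_herm (h : Hyp m N P χ) [N.FiniteIndex] (hZ : ZariskiClosed G)
    (hstar : ∀ A, InG G A → InG G Aᴴ) {T : Finset Γ}
    (hcl : Subgroup.closure (T : Set Γ) = ⊤)
    (hmin : ∀ ρ : Γ →* G, point ρ = point m → energy T m ≤ energy T ρ) (γ : Γ) :
    (bcoc N P χ γ)ᴴ = bcoc N P χ γ := by
  apply smul_right_injective _ (card_ne_zero (N := N))
  change (Fintype.card (Γ ⧸ N) : ℝ) • _ = (Fintype.card (Γ ⧸ N) : ℝ) • _
  rw [card_smul_bcoc]
  have h1 : (Fintype.card (Γ ⧸ N) : ℝ) • (bcoc N P χ γ)ᴴ =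
      ((Fintype.card (Γ ⧸ N) : ℝ) • bcoc N P χ γ)ᴴ := by
    rw [Matrix.conjTranspose_smul, star_trivial]
  rw [h1, card_smul_bcoc, Matrix.conjTranspose_sum]
  refine Finset.sum_congr rfl fun q _ => ?_
  exact h.herm hZ hstar hcl hmin (wq_mem N q γ)

/-- the hom with the hyperbolic part removed -/
lemma exists_kt (h : Hyp m N P χ) (hZ : ZariskiClosed G) :
    ∃ k : Γ →* G, ∀ γ, mat k γ = mat m γ * NormedSpace.exp (-(bcoc N P χ γ)) := by
  refine exists_hom (fun γ => (inG_mat m γ).mul ?_) (fun γ δ => ?_)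
  · have := exp_bcoc_mem h hZ γ (-1)
    rwa [neg_one_smul] at this
  · have := scale_mul (κ := m) (b := bcoc N P χ) (fun γ δ => bcoc_comm γ δ)
      (fun γ δ => bcoc_cocycle h γ δ) (-1) γ δ
    simpa only [neg_one_smul] using this

lemma kt_bounded (h : Hyp m N P χ) {k : Γ →* G}
    (hk : ∀ γ, mat k γ = mat m γ * NormedSpace.exp (-(bcoc N P χ γ))) :
    ∃ B : ℝ, ∀ γ i j, ‖mat k γ i j‖ ≤ B := by
  -- bound on `N`
  have h1 : ∀ ν ∈ N, mat k ν = cj P (fun i => (χ ν i : ℂ) *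
      Complex.exp (-((Real.log ‖(χ ν i : ℂ)‖ : ℝ) : ℂ))) := by
    intro ν hν
    rw [hk, h.eq ν hν, bcoc_of_mem hν, hlog, ← neg_one_smul ℂ, cj_smul, exp_cj, cj_mul]
    congr 1
    funext i
    rw [Pi.mul_apply, Pi.smul_apply, neg_one_smul]
  have h2 : ∀ ν i, ‖(χ ν i : ℂ) * Complex.exp (-((Real.log ‖(χ ν i : ℂ)‖ : ℝ) : ℂ))‖ = 1 := by
    intro ν i
    rw [norm_mul, Complex.norm_exp, Complex.neg_re, Complex.ofReal_re, Real.exp_neg,
      Real.exp_log (by simp), mul_inv_cancel₀ (by simp)]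
  have hb1 : BddAlong (⊤ : Filter N) (fun ν : N => mat k (ν : Γ)) := by
    have hP : ∀ A : Matrix (Fin n) (Fin n) ℂ, BddAlong (⊤ : Filter N) (fun _ : N => A) := by
      intro A
      refine ⟨∑ i, ∑ j, ‖A i j‖, Eventually.of_forall fun _ a b => ?_⟩
      exact (Finset.single_le_sum (f := fun j => ‖A a j‖) (fun _ _ => norm_nonneg _)
        (Finset.mem_univ b)).trans (Finset.single_le_sum (f := fun i => ∑ j, ‖A i j‖)
        (fun _ _ => Finset.sum_nonneg fun _ _ => norm_nonneg _) (Finset.mem_univ a))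
    have hD : BddAlong (⊤ : Filter N) (fun ν : N => diagonal (fun i => (χ ν i : ℂ) *
      Complex.exp (-((Real.log ‖(χ ν i : ℂ)‖ : ℝ) : ℂ)))) := by
      refine ⟨1, Eventually.of_forall fun ν a b => ?_⟩
      change ‖Matrix.diagonal (fun i => (χ ν i : ℂ) *
        Complex.exp (-((Real.log ‖(χ ν i : ℂ)‖ : ℝ) : ℂ))) a b‖ ≤ 1
      rw [Matrix.diagonal_apply]
      split_ifs
      · exact (h2 _ _).le
      · simp
    have := ((hP (P : Matrix (Fin n) (Fin n) ℂ)).mul hD).mul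
      (hP ((P⁻¹ : GL (Fin n) ℂ) : Matrix (Fin n) (Fin n) ℂ))
    obtain ⟨B, hB⟩ := this
    refine ⟨B, ?_⟩
    filter_upwards [hB] with ν hν
    rw [h1 ν ν.2]
    exact hν
  obtain ⟨B1, hB1⟩ := hb1
  have hB1' : ∀ ν ∈ N, ∀ a b, ‖mat k ν a b‖ ≤ B1 := by
    intro ν hν
    have := (Filter.eventually_top.mp hB1) ⟨ν, hν⟩
    exact this
  let B2 : ℝ := ∑ q : Γ ⧸ N, ∑ i, ∑ j, ‖mat k q.out i j‖
  have hB2 : ∀ (q : Γ ⧸ N) a b, ‖mat k q.out a b‖ ≤ B2 := by
    intro q a b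
    exact ((Finset.single_le_sum (f := fun j => ‖mat k q.out a j‖) (fun _ _ => norm_nonneg _)
        (Finset.mem_univ b)).trans (Finset.single_le_sum (f := fun i => ∑ j, ‖mat k q.out i j‖)
        (fun _ _ => Finset.sum_nonneg fun _ _ => norm_nonneg _) (Finset.mem_univ a))).trans
        (Finset.single_le_sum (f := fun q : Γ ⧸ N => ∑ i, ∑ j, ‖mat k q.out i j‖)
        (fun _ _ => Finset.sum_nonneg fun _ _ => Finset.sum_nonneg fun _ _ => norm_nonneg _)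
        (Finset.mem_univ q))
  refine ⟨∑ _ : Fin n, B2 * B1, fun γ a b => ?_⟩
  have h3 : γ = (γ : Γ ⧸ N).out * ((γ : Γ ⧸ N).out⁻¹ * γ) := by group
  have h4 : (γ : Γ ⧸ N).out⁻¹ * γ ∈ N := by
    rw [← QuotientGroup.eq_one_iff, QuotientGroup.mk_mul, QuotientGroup.mk_inv,
      QuotientGroup.out_eq']
    group
  rw [h3, mat_mul, Matrix.mul_apply]
  refine (norm_sum_le _ _).trans (Finset.sum_le_sum fun c _ => ?_)
  rw [norm_mul]
  exact mul_le_mul (hB2 _ _ _) (hB1' _ h4 _ _) (norm_nonneg _)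
    ((norm_nonneg _).trans (hB2 (γ : Γ ⧸ N) a c))

end

end Pool.Agent.Lib.MP_a9945b_al
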