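import Mathlib
import Pool.Agent.Lib.MP_a9945b_al.Struct

/-!
Every point of the character variety of a supersolvable group is represented by a good pair.
-/

set_option autoImplicit false

noncomputable section

namespace Pool.Agent.Lib.MP_a9945b_al

open Matrix Filter Topology
open scoped ComplexOrder

variable {Γ : Type} [Group Γ] {n : ℕ} {G : Subgroup (GL (Fin n) ℂ)}

section

variable {m : Γ →* G} {N : Subgroup Γ} [N.Normal] [Fintype (Γ ⧸ N)] {P : GL (Fin n) ℂ}
  {χ : Γ → Fin n → ℂˣ}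

lemma exp_neg_bcoc (γ : Γ) : NormedSpace.exp (-(bcoc N P χ γ)) =
    cj P (fun i => Complex.exp (-(bexp N χ γ i))) := by
  rw [bcoc, ← neg_one_smul ℂ, cj_smul, exp_cj]
  congr 1
  funext i
  rw [Pi.smul_apply, neg_one_smul]

lemma exp_bcoc (γ : Γ) : NormedSpace.exp (bcoc N P χ γ) =
    cj P (fun i => Complex.exp (bexp N χ γ i)) := by
  rw [bcoc, exp_cj]

lemma exp_neg_mul_exp (γ : Γ) : NormedSpace.exp (-(bcoc N P χ γ)) *
    NormedSpace.exp (bcoc N P χ γ) = 1 := by
  rw [exp_neg_bcoc, exp_bcoc, cj_mul, ← cj_one P]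
  congr 1
  funext i
  rw [Pi.mul_apply, ← Complex.exp_add, neg_add_cancel, Complex.exp_zero]
  rfl

lemma kt_cocycle (h : Hyp m N P χ) {k : Γ →* G}
    (hk : ∀ γ, mat k γ = mat m γ * NormedSpace.exp (-(bcoc N P χ γ))) (γ δ : Γ) :
    mat k δ * bcoc N P χ (γ * δ) = bcoc N P χ γ * mat k δ + mat k δ * bcoc N P χ δ := by
  have h1 := bcoc_cocycle h γ δ
  have h2 : Commute (NormedSpace.exp (-(bcoc N P χ δ))) (bcoc N P χ (γ * δ)) := by
    rw [exp_neg_bcoc]
    exact cj_commute _ _ _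
  have h3 : Commute (NormedSpace.exp (-(bcoc N P χ δ))) (bcoc N P χ δ) := by
    rw [exp_neg_bcoc]
    exact cj_commute _ _ _
  rw [hk]
  calc mat m δ * NormedSpace.exp (-(bcoc N P χ δ)) * bcoc N P χ (γ * δ)
      = mat m δ * (NormedSpace.exp (-(bcoc N P χ δ)) * bcoc N P χ (γ * δ)) := by
        rw [mul_assoc]
    _ = (mat m δ * bcoc N P χ (γ * δ)) * NormedSpace.exp (-(bcoc N P χ δ)) := by
        rw [h2.eq, mul_assoc]
    _ = (bcoc N P χ γ * mat m δ + mat m δ * bcoc N P χ δ) *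
        NormedSpace.exp (-(bcoc N P χ δ)) := by rw [h1]
    _ = bcoc N P χ γ * (mat m δ * NormedSpace.exp (-(bcoc N P χ δ))) +
        mat m δ * (bcoc N P χ δ * NormedSpace.exp (-(bcoc N P χ δ))) := by noncomm_ring
    _ = _ := by rw [← h3.eq]; noncomm_ring

lemma commute_bexp_fun {X : Matrix (Fin n) (Fin n) ℂ} {γ : Γ}
    (hX : Commute X (bcoc N P χ γ)) : Commute X (NormedSpace.exp (bcoc N P χ γ)) := by
  rw [exp_bcoc]
  refine commute_cj ?_ hX
  intro i j hij
  rw [hij]

theorem exists_good_of_hyp (h : Hyp m N P χ) [N.FiniteIndex] (hZ : ZariskiClosed G)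
    (hstar : ∀ A, InG G A → InG G Aᴴ) {T : Finset Γ}
    (hcl : Subgroup.closure (T : Set Γ) = ⊤)
    (hmin : ∀ ρ : Γ →* G, point ρ = point m → energy T m ≤ energy T ρ) :
    ∃ (κ : Γ →* G) (b : Γ → Matrix (Fin n) (Fin n) ℂ) (hg : Good N κ b),
      point (hg.scale 1) = point m := by
  obtain ⟨k, hk⟩ := exists_kt h hZ
  obtain ⟨B, hB⟩ := kt_bounded h hk
  have hherm : ∀ γ, (bcoc N P χ γ)ᴴ = bcoc N P χ γ := bcoc_herm h hZ hstar hcl hmin
  have hkc := kt_cocycle h hk
  obtain ⟨r, hrG, hrpos, hrcomm, hrfix⟩ := cartan hZ hstar (Set.range (bcoc N P χ))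
    (k.range.map G.subtype)
    (by
      rintro _ ⟨x, -, rfl⟩
      exact x.2) B
    (by
      rintro _ ⟨_, ⟨γ, rfl⟩, rfl⟩ i j
      exact hB γ i j)
    (by
      rintro _ ⟨_, ⟨γ, rfl⟩, rfl⟩ x - hx _ ⟨δ, rfl⟩
      change Commute (bcoc N P χ δ) (mat k γ * x * (mat k γ)ᴴ)
      set c := bcoc N P χ (δ * γ) - bcoc N P χ γ with hc
      have e1 : bcoc N P χ δ * mat k γ = mat k γ * c := by
        have := hkc δ γ
        rw [hc, Matrix.mul_sub, this]
        abel
      have hcx : Commute c x :=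
        (hx _ ⟨_, rfl⟩).sub_left (hx _ ⟨_, rfl⟩)
      have hcH : cᴴ = c := by
        rw [hc, Matrix.conjTranspose_sub, hherm, hherm]
      have e2 : (mat k γ)ᴴ * bcoc N P χ δ = c * (mat k γ)ᴴ := by
        have := congrArg Matrix.conjTranspose e1
        rwa [Matrix.conjTranspose_mul, Matrix.conjTranspose_mul, hherm, hcH] at this
      change bcoc N P χ δ * (mat k γ * x * (mat k γ)ᴴ) = mat k γ * x * (mat k γ)ᴴ *
        bcoc N P χ δ
      calc bcoc N P χ δ * (mat k γ * x * (mat k γ)ᴴ)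
          = (bcoc N P χ δ * mat k γ) * x * (mat k γ)ᴴ := by noncomm_ring
        _ = mat k γ * (c * x) * (mat k γ)ᴴ := by rw [e1]; noncomm_ring
        _ = mat k γ * (x * c) * (mat k γ)ᴴ := by rw [hcx.eq]
        _ = mat k γ * x * (c * (mat k γ)ᴴ) := by noncomm_ring
        _ = mat k γ * x * ((mat k γ)ᴴ * bcoc N P χ δ) := by rw [e2]
        _ = _ := by noncomm_ring)
  obtain ⟨g, hg, hgr⟩ := hrG
  set s : Matrix (Fin n) (Fin n) ℂ := ((g⁻¹ : GL (Fin n) ℂ) : Matrix (Fin n) (Fin n) ℂ) with hs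
  have hrs : r * s = 1 := by rw [← hgr]; exact coe_mul_inv g
  have hsr : s * r = 1 := by rw [← hgr]; exact coe_inv_mul g
  have hrH : rᴴ = r := hrpos.isHermitian
  have hsH : sᴴ = s := by
    have h1 : sᴴ * r = 1 := by
      have := congrArg Matrix.conjTranspose hrs
      rwa [Matrix.conjTranspose_mul, hrH, Matrix.conjTranspose_one] at this
    calc sᴴ = sᴴ * (r * s) := by rw [hrs, mul_one]
      _ = s := by rw [← mul_assoc, h1, one_mul]
  have hrb : ∀ γ, bcoc N P χ γ * r = r * bcoc N P χ γ := fun γ => (hrcomm _ ⟨γ, rfl⟩).eq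
  have hsb : ∀ γ, bcoc N P χ γ * s = s * bcoc N P χ γ := by
    intro γ
    calc bcoc N P χ γ * s = (s * r) * bcoc N P χ γ * s := by rw [hsr, one_mul]
      _ = s * (r * bcoc N P χ γ) * s := by noncomm_ring
      _ = s * (bcoc N P χ γ * r) * s := by rw [hrb]
      _ = s * bcoc N P χ γ * (r * s) := by noncomm_ring
      _ = _ := by rw [hrs, mul_one]
  let κ : Γ →* G := (MulAut.conj (⟨g, hg⟩⁻¹ : G)).toMonoidHom.comp k
  have hκ : ∀ γ, mat κ γ = s * mat k γ * r := by
    intro γ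
    have := mat_conj (⟨g, hg⟩⁻¹ : G) k γ
    rw [show κ = (MulAut.conj (⟨g, hg⟩⁻¹ : G)).toMonoidHom.comp k from rfl, this]
    change s * mat k γ * (((g⁻¹)⁻¹ : GL (Fin n) ℂ) : Matrix (Fin n) (Fin n) ℂ) = _
    rw [inv_inv, hgr]
  have hgood : Good N κ (bcoc N P χ) := by
    refine ⟨?_, hherm, fun γ τ => exp_bcoc_mem h hZ γ τ, fun γ δ => bcoc_comm γ δ, ?_, ?_, ?_⟩
    · intro γ
      have h1 : mat k γ * (r * r) * (mat k γ)ᴴ = r * r :=
        hrfix _ ⟨k γ, ⟨γ, rfl⟩, rfl⟩
      rw [hκ, Matrix.conjTranspose_mul, Matrix.conjTranspose_mul, hrH, hsH]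
      calc s * mat k γ * r * (r * ((mat k γ)ᴴ * s))
          = s * (mat k γ * (r * r) * (mat k γ)ᴴ) * s := by noncomm_ring
        _ = (s * r) * (r * s) := by rw [h1]; noncomm_ring
        _ = 1 := by rw [hsr, hrs, one_mul]
    · intro γ δ
      rw [hκ]
      calc s * mat k δ * r * bcoc N P χ (γ * δ)
          = s * mat k δ * (r * bcoc N P χ (γ * δ)) := by noncomm_ring
        _ = s * (mat k δ * bcoc N P χ (γ * δ)) * r := by rw [← hrb]; noncomm_ring
        _ = s * (bcoc N P χ γ * mat k δ + mat k δ * bcoc N P χ δ) * r := by rw [hkc]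
        _ = (s * bcoc N P χ γ) * mat k δ * r + s * mat k δ * (bcoc N P χ δ * r) := by
            noncomm_ring
        _ = _ := by rw [← hsb, hrb]; noncomm_ring
    · intro ν hν γ
      have h1 : Commute (mat k ν) (bcoc N P χ γ) := by
        rw [hk, h.eq ν hν, exp_neg_bcoc, cj_mul]
        exact cj_commute _ _ _
      rw [hκ]
      change s * mat k ν * r * bcoc N P χ γ = bcoc N P χ γ * (s * mat k ν * r)
      calc s * mat k ν * r * bcoc N P χ γ = s * mat k ν * (r * bcoc N P χ γ) := by noncomm_ring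
        _ = s * (mat k ν * bcoc N P χ γ) * r := by rw [← hrb]; noncomm_ring
        _ = s * (bcoc N P χ γ * mat k ν) * r := by rw [h1.eq]
        _ = (s * bcoc N P χ γ) * mat k ν * r := by noncomm_ring
        _ = _ := by rw [← hsb]; noncomm_ring
    · intro γ
      rw [card_smul_bcoc]
      refine Finset.sum_congr rfl fun q _ => ?_
      rw [bcoc_of_mem (wq_mem N q γ)]
  refine ⟨κ, bcoc N P χ, hgood, ?_⟩
  have h2 : hgood.scale 1 = (MulAut.conj (⟨g, hg⟩⁻¹ : G)).toMonoidHom.comp m := by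
    apply hom_ext
    intro γ
    rw [hgood.mat_scale, one_smul, hκ, mat_conj]
    change _ = s * mat m γ * (((g⁻¹)⁻¹ : GL (Fin n) ℂ) : Matrix (Fin n) (Fin n) ℂ)
    rw [inv_inv, hgr]
    have h3 : Commute r (NormedSpace.exp (bcoc N P χ γ)) :=
      commute_bexp_fun (show Commute r (bcoc N P χ γ) from (hrb γ).symm)
    calc s * mat k γ * r * NormedSpace.exp (bcoc N P χ γ)
        = s * mat k γ * (r * NormedSpace.exp (bcoc N P χ γ)) := by noncomm_ring
      _ = s * (mat k γ * NormedSpace.exp (bcoc N P χ γ)) * r := by rw [h3.eq]; noncomm_ring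
      _ = s * (mat m γ * (NormedSpace.exp (-(bcoc N P χ γ)) *
          NormedSpace.exp (bcoc N P χ γ))) * r := by rw [hk]; noncomm_ring
      _ = _ := by rw [exp_neg_mul_exp, mul_one]
  rw [h2, point_conj]

end

/-- the uniform normal subgroup of finite index -/
theorem exists_uniform_subgroup (hs : Supersolvable Γ) (n : ℕ) :
    ∃ N : Subgroup Γ, N.Normal ∧ N.FiniteIndex ∧
      ∀ {G : Subgroup (GL (Fin n) ℂ)} (hZ : ZariskiClosed G)
        (hstar : ∀ A, InG G A → InG G Aᴴ) {T : Finset Γ}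
        (hcl : Subgroup.closure (T : Set Γ) = ⊤) (m : Γ →* G)
        (hmin : ∀ ρ : Γ →* G, point ρ = point m → energy T m ≤ energy T ρ),
        ∃ (P : GL (Fin n) ℂ) (χ : Γ → Fin n → ℂˣ), Hyp m N P χ := by
  obtain ⟨N, hN1, hN2, hN3⟩ := hs.exists_nilpotent
  obtain ⟨M, hM, hMprop⟩ := exists_center_exponent N n
  let S : Set Γ := {x | ∃ ν ∈ N, x = ν ^ M}
  have hSN : Subgroup.closure S ≤ N := by
    rw [Subgroup.closure_le]
    rintro _ ⟨ν, hν, rfl⟩
    exact N.pow_mem hν M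
  have hSnorm : (Subgroup.closure S).Normal := by
    constructor
    intro x hx g
    induction hx using Subgroup.closure_induction with
    | mem x hx =>
      obtain ⟨ν, hν, rfl⟩ := hx
      apply Subgroup.subset_closure
      exact ⟨g * ν * g⁻¹, hN1.conj_mem ν hν g, conj_pow.symm⟩
    | one => simp
    | mul x y _ _ hx hy =>
      have : g * (x * y) * g⁻¹ = (g * x * g⁻¹) * (g * y * g⁻¹) := by group
      rw [this]
      exact mul_mem hx hy
    | inv x _ hx =>
      have : g * x⁻¹ * g⁻¹ = (g * x * g⁻¹)⁻¹ := by group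
      rw [this]
      exact inv_mem hx
  have hSfin : (Subgroup.closure S).FiniteIndex := by
    apply hs.finiteIndex _ hSnorm
    intro x
    refine ⟨N.index * M, Nat.mul_pos (Nat.pos_of_ne_zero hN2.index_ne_zero) hM, ?_⟩
    apply Subgroup.subset_closure
    exact ⟨x ^ N.index, N.pow_index_mem x, pow_mul x _ _⟩
  refine ⟨Subgroup.closure S, hSnorm, hSfin, ?_⟩
  intro G hZ hstar T hcl m hmin
  have hcent : ∀ x ∈ Subgroup.closure S, ∀ ν' ∈ N, Commute (mat m x) (mat m ν') := by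
    intro x hx ν' hν'
    induction hx using Subgroup.closure_induction with
    | mem x hx =>
      obtain ⟨ν, hν, rfl⟩ := hx
      have h1 := hMprop (G.subtype.comp (m.comp N.subtype)) (by
        intro ν hc
        have h2 := diag_of_central hZ hstar hcl hmin N ν.2 (by
          intro ν' hν'
          have h3 := hc ⟨ν', hν'⟩
          have h4 := congrArg (fun u : GL (Fin n) ℂ => (u : Matrix (Fin n) (Fin n) ℂ)) h3.eq
          exact h4)
        exact h2) ⟨ν, hν⟩ ⟨ν', hν'⟩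
      have h4 := congrArg (fun u : GL (Fin n) ℂ => (u : Matrix (Fin n) (Fin n) ℂ)) h1.eq
      exact h4
    | one =>
      rw [mat_one]
      exact Commute.one_left _
    | mul x y _ _ hx hy =>
      rw [mat_mul]
      exact hx.mul_left hy
    | inv x _ hx =>
      change mat m x⁻¹ * mat m ν' = mat m ν' * mat m x⁻¹
      calc mat m x⁻¹ * mat m ν' = mat m x⁻¹ * mat m ν' * (mat m x * mat m x⁻¹) := by
            rw [mat_mul_inv, mul_one]
        _ = mat m x⁻¹ * (mat m ν' * mat m x) * mat m x⁻¹ := by noncomm_ring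
        _ = mat m x⁻¹ * (mat m x * mat m ν') * mat m x⁻¹ := by rw [hx.eq]
        _ = (mat m x⁻¹ * mat m x) * mat m ν' * mat m x⁻¹ := by noncomm_ring
        _ = _ := by rw [mat_inv_mul, one_mul]
  apply exists_hyp
  · intro x hx
    exact diag_of_central hZ hstar hcl hmin N (hSN hx) (hcent x hx)
  · intro x hx y hy
    exact hcent x hx y (hSN hy)

end Pool.Agent.Lib.MP_a9945b_al
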