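import Mathlib
import Pool.Agent.Lib.MP_a9945b_al.Exists

/-!
The scaling of good pairs is well defined on the character variety.
-/

set_option autoImplicit false

noncomputable section

namespace Pool.Agent.Lib.MP_a9945b_al

open Matrix Filter Topology
open scoped ComplexOrder

variable {Γ : Type} [Group Γ] {n : ℕ} {G : Subgroup (GL (Fin n) ℂ)}

/-! ### Exponential sums -/

lemma W_vanish {Φ : (ℂˣ →* ℂˣ) × ℂ → ℂ} (hΦ : Φ ∈ EP.W)
    (h : ∀ k : ℕ, Φ (powMonoidHom k, (k : ℂ)) = 0) : Φ = 0 := by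
  obtain ⟨a, rfl⟩ := hΦ
  have : a = 0 := EP.vanish a h
  rw [this, map_zero]

lemma regT_W {F : (Γ → Matrix (Fin n) (Fin n) ℂ) → ℂ} (hF : F ∈ regT Γ n)
    {x : (ℂˣ →* ℂˣ) × ℂ → Γ → Matrix (Fin n) (Fin n) ℂ}
    (hx : ∀ γ, EP.MW (fun q => x q γ)) : (fun q => F (x q)) ∈ EP.W := by
  induction hF using Algebra.adjoin_induction with
  | mem f hf =>
    obtain ⟨γ, i, j, rfl⟩ := hf
    exact hx γ i j
  | algebraMap r => exact EP.W_const r
  | add f g _ _ h1 h2 => exact Subring.add_mem _ h1 h2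
  | mul f g _ _ h1 h2 => exact Subring.mul_mem _ h1 h2

lemma MW_list {ι : Type*} (l : List ι)
    {A : ι → (ℂˣ →* ℂˣ) × ℂ → Matrix (Fin n) (Fin n) ℂ} (h : ∀ a, EP.MW (A a)) :
    EP.MW (fun q => (l.map (fun a => A a q)).prod) := by
  induction l with
  | nil =>
    simp only [List.map_nil, List.prod_nil]
    exact EP.MW.const 1
  | cons a l ih =>
    simp only [List.map_cons, List.prod_cons]
    exact (h a).mul ih

/-! ### Regular matrix valued functions -/

/-- all entries are regular functions of the homomorphism -/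
def MR (A : (Γ →* G) → Matrix (Fin n) (Fin n) ℂ) : Prop :=
  ∀ i j, (fun ρ => A ρ i j) ∈ regHom Γ G

lemma MR.mat (γ : Γ) : MR (G := G) (fun ρ => mat ρ γ) := fun i j =>
  Algebra.subset_adjoin ⟨γ, i, j, rfl⟩

lemma MR.mul {A B : (Γ →* G) → Matrix (Fin n) (Fin n) ℂ} (hA : MR A) (hB : MR B) :
    MR (fun ρ => A ρ * B ρ) := by
  intro i j
  have : (fun ρ => (A ρ * B ρ) i j) = ∑ k, (fun ρ => A ρ i k) * (fun ρ => B ρ k j) := by
    funext ρ
    simp [Matrix.mul_apply, Finset.sum_apply]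
  rw [this]
  exact Subalgebra.sum_mem _ (fun k _ => Subalgebra.mul_mem _ (hA i k) (hB k j))

lemma MR.one : MR (G := G) (Γ := Γ) (fun _ => (1 : Matrix (Fin n) (Fin n) ℂ)) := by
  intro i j
  exact Subalgebra.algebraMap_mem _ ((1 : Matrix (Fin n) (Fin n) ℂ) i j)

lemma MR.pow {A : (Γ →* G) → Matrix (Fin n) (Fin n) ℂ} (hA : MR A) (k : ℕ) :
    MR (fun ρ => A ρ ^ k) := by
  induction k with
  | zero =>
    simp only [pow_zero]
    exact MR.one
  | succ k ih =>
    simp only [pow_succ]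
    exact ih.mul hA

lemma MR.list {ι : Type*} (l : List ι) {A : ι → (Γ →* G) → Matrix (Fin n) (Fin n) ℂ}
    (h : ∀ a, MR (A a)) : MR (fun ρ => (l.map (fun a => A a ρ)).prod) := by
  induction l with
  | nil =>
    simp only [List.map_nil, List.prod_nil]
    exact MR.one
  | cons a l ih =>
    simp only [List.map_cons, List.prod_cons]
    exact (h a).mul ih

lemma regT_MR {F : (Γ → Matrix (Fin n) (Fin n) ℂ) → ℂ} (hF : F ∈ regT Γ n)
    {x : (Γ →* G) → Γ → Matrix (Fin n) (Fin n) ℂ} (hx : ∀ γ, MR (fun ρ => x ρ γ)) :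
    (fun ρ => F (x ρ)) ∈ regHom Γ G := by
  induction hF using Algebra.adjoin_induction with
  | mem f hf =>
    obtain ⟨γ, i, j, rfl⟩ := hf
    exact hx γ i j
  | algebraMap r => exact Subalgebra.algebraMap_mem _ r
  | add f g _ _ h1 h2 => exact Subalgebra.add_mem _ h1 h2
  | mul f g _ _ h1 h2 => exact Subalgebra.mul_mem _ h1 h2

/-- the word map -/
def word (N : Subgroup Γ) [N.Normal] [Fintype (Γ ⧸ N)] (k : ℕ) (ρ : Γ →* G) (γ : Γ) :
    Matrix (Fin n) (Fin n) ℂ :=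
  mat ρ γ * ((Finset.univ : Finset (Γ ⧸ N)).toList.map
    (fun q => mat ρ (wq N q γ) ^ k)).prod

lemma list_conj {ι : Type*} (l : List ι) (A : ι → Matrix (Fin n) (Fin n) ℂ)
    (g : GL (Fin n) ℂ) :
    (l.map (fun a => (g : Matrix (Fin n) (Fin n) ℂ) * A a *
      ((g⁻¹ : GL (Fin n) ℂ) : Matrix (Fin n) (Fin n) ℂ))).prod =
      (g : Matrix (Fin n) (Fin n) ℂ) * (l.map A).prod *
        ((g⁻¹ : GL (Fin n) ℂ) : Matrix (Fin n) (Fin n) ℂ) := by
  induction l with
  | nil => simp only [List.map_nil, List.prod_nil, mul_one, coe_mul_inv]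
  | cons a l ih =>
    simp only [List.map_cons, List.prod_cons]
    rw [ih]
    calc (g : Matrix (Fin n) (Fin n) ℂ) * A a *
          ((g⁻¹ : GL (Fin n) ℂ) : Matrix (Fin n) (Fin n) ℂ) *
          ((g : Matrix (Fin n) (Fin n) ℂ) * (l.map A).prod *
          ((g⁻¹ : GL (Fin n) ℂ) : Matrix (Fin n) (Fin n) ℂ)) =
          (g : Matrix (Fin n) (Fin n) ℂ) * A a *
          (((g⁻¹ : GL (Fin n) ℂ) : Matrix (Fin n) (Fin n) ℂ) *
          (g : Matrix (Fin n) (Fin n) ℂ)) * (l.map A).prod *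
          ((g⁻¹ : GL (Fin n) ℂ) : Matrix (Fin n) (Fin n) ℂ) := by noncomm_ring
      _ = _ := by rw [coe_inv_mul]; noncomm_ring

lemma pow_conj (A : Matrix (Fin n) (Fin n) ℂ) (g : GL (Fin n) ℂ) (k : ℕ) :
    ((g : Matrix (Fin n) (Fin n) ℂ) * A *
      ((g⁻¹ : GL (Fin n) ℂ) : Matrix (Fin n) (Fin n) ℂ)) ^ k =
      (g : Matrix (Fin n) (Fin n) ℂ) * A ^ k *
        ((g⁻¹ : GL (Fin n) ℂ) : Matrix (Fin n) (Fin n) ℂ) := by
  induction k with
  | zero => rw [pow_zero, pow_zero, mul_one, coe_mul_inv]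
  | succ k ih =>
    rw [pow_succ, ih, pow_succ]
    calc _ = (g : Matrix (Fin n) (Fin n) ℂ) * A ^ k *
          (((g⁻¹ : GL (Fin n) ℂ) : Matrix (Fin n) (Fin n) ℂ) *
          (g : Matrix (Fin n) (Fin n) ℂ)) * A *
          ((g⁻¹ : GL (Fin n) ℂ) : Matrix (Fin n) (Fin n) ℂ) := by noncomm_ring
      _ = _ := by rw [coe_inv_mul]; noncomm_ring

lemma word_conj (N : Subgroup Γ) [N.Normal] [Fintype (Γ ⧸ N)] (k : ℕ) (ρ : Γ →* G) (g : G)
    (γ : Γ) : word N k ((MulAut.conj g).toMonoidHom.comp ρ) γ =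
      ((g : GL (Fin n) ℂ) : Matrix (Fin n) (Fin n) ℂ) * word N k ρ γ *
        (((g : GL (Fin n) ℂ)⁻¹ : GL (Fin n) ℂ) : Matrix (Fin n) (Fin n) ℂ) := by
  unfold word
  simp only [mat_conj, pow_conj, list_conj]
  calc _ = ((g : GL (Fin n) ℂ) : Matrix (Fin n) (Fin n) ℂ) * mat ρ γ *
        ((((g : GL (Fin n) ℂ)⁻¹ : GL (Fin n) ℂ) : Matrix (Fin n) (Fin n) ℂ) *
        ((g : GL (Fin n) ℂ) : Matrix (Fin n) (Fin n) ℂ)) *
        ((Finset.univ : Finset (Γ ⧸ N)).toList.map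
          (fun q => mat ρ (wq N q γ) ^ k)).prod *
        (((g : GL (Fin n) ℂ)⁻¹ : GL (Fin n) ℂ) : Matrix (Fin n) (Fin n) ℂ) := by
          noncomm_ring
    _ = _ := by rw [coe_inv_mul]; noncomm_ring

lemma word_inv {F : (Γ → Matrix (Fin n) (Fin n) ℂ) → ℂ} (hF : F ∈ regT Γ n)
    (hinv : ∀ g ∈ G, ∀ x : Γ → Matrix (Fin n) (Fin n) ℂ,
        F (fun γ => (g : Matrix (Fin n) (Fin n) ℂ) * x γ *
          ((g⁻¹ : GL (Fin n) ℂ) : Matrix (Fin n) (Fin n) ℂ)) = F x)
    (N : Subgroup Γ) [N.Normal] [Fintype (Γ ⧸ N)] (k : ℕ) :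
    (fun ρ : Γ →* G => F (word N k ρ)) ∈ invHom Γ G := by
  refine ⟨?_, ?_⟩
  · apply regT_MR hF
    intro γ
    exact (MR.mat γ).mul (MR.list _ (fun q => (MR.mat _).pow k))
  · intro g ρ
    have h1 : word N k ((MulAut.conj g).toMonoidHom.comp ρ) =
        fun γ => ((g : GL (Fin n) ℂ) : Matrix (Fin n) (Fin n) ℂ) * word N k ρ γ *
        (((g : GL (Fin n) ℂ)⁻¹ : GL (Fin n) ℂ) : Matrix (Fin n) (Fin n) ℂ) :=
      funext fun γ => word_conj N k ρ g γ
    change F _ = F _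
    rw [h1]
    exact hinv g g.2 _

/-! ### Diagonalisation -/

lemma herm_diag {A : Matrix (Fin n) (Fin n) ℂ} (hA : Aᴴ = A) :
    ∃ (P : GL (Fin n) ℂ) (d : Fin n → ℝ), A = cj P (fun i => (d i : ℂ)) := by
  have hA' : A.IsHermitian := hA
  let U := hA'.eigenvectorUnitary
  have h1 : (U : Matrix (Fin n) (Fin n) ℂ) * star (U : Matrix (Fin n) (Fin n) ℂ) = 1 :=
    Unitary.mul_star_self_of_mem U.2
  have h2 : star (U : Matrix (Fin n) (Fin n) ℂ) * (U : Matrix (Fin n) (Fin n) ℂ) = 1 :=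
    Unitary.star_mul_self_of_mem U.2
  refine ⟨⟨(U : Matrix (Fin n) (Fin n) ℂ), star (U : Matrix (Fin n) (Fin n) ℂ), h1, h2⟩,
    hA'.eigenvalues, ?_⟩
  have h3 := hA'.spectral_theorem
  rw [Unitary.conjStarAlgAut_apply] at h3
  exact h3

lemma real_of_herm {P : GL (Fin n) ℂ} {d : Fin n → ℂ} (h : (cj P d)ᴴ = cj P d) (i : Fin n) :
    star (d i) = d i := by
  obtain ⟨Q, e, he⟩ := herm_diag h
  have h1 := cj_fun_unique he (fun z => star z)
  have h2 : cj Q (fun i => star ((e i : ℝ) : ℂ)) = cj Q (fun i => ((e i : ℝ) : ℂ)) := by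
    congr 1
    funext i
    exact Complex.conj_ofReal _
  rw [h2, ← he] at h1
  exact congrFun (cj_injective P h1) i

lemma unitary_herm_diag {κ b : Matrix (Fin n) (Fin n) ℂ} (hκ : κ * κᴴ = 1) (hb : bᴴ = b)
    (hc : Commute κ b) : ∃ (P : GL (Fin n) ℂ) (θ : Fin n → ℂ) (β : Fin n → ℝ),
      κ = cj P θ ∧ (∀ i, ‖θ i‖ = 1) ∧ b = cj P (fun i => (β i : ℂ)) := by
  have hκ' : κᴴ * κ = 1 := mul_eq_one_comm.mp hκ
  have hκn : Commute κ κᴴ := by
    change κ * κᴴ = κᴴ * κ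
    rw [hκ, hκ']
  have hcH : Commute κᴴ b := by
    have := congrArg Matrix.conjTranspose hc.eq
    rw [Matrix.conjTranspose_mul, Matrix.conjTranspose_mul, hb] at this
    exact this.symm
  set H1 : Matrix (Fin n) (Fin n) ℂ := κ + κᴴ with hH1
  set H2 : Matrix (Fin n) (Fin n) ℂ := Complex.I • (κ - κᴴ) with hH2
  have hH1h : H1ᴴ = H1 := by
    rw [hH1, Matrix.conjTranspose_add, Matrix.conjTranspose_conjTranspose, add_comm]
  have hH2h : H2ᴴ = H2 := by
    rw [hH2, Matrix.conjTranspose_smul, Matrix.conjTranspose_sub,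
      Matrix.conjTranspose_conjTranspose, Complex.star_def, Complex.conj_I, neg_smul,
      ← smul_neg, neg_sub]
  have hs1 : Commute κ κ := Commute.refl _
  have hs2 : Commute κᴴ κᴴ := Commute.refl _
  have c12 : Commute H1 H2 :=
    (((hs1.sub_right hκn).add_left (hκn.symm.sub_right hs2))).smul_right _
  have c1b : Commute H1 b := hc.add_left hcH
  have c2b : Commute H2 b := (hc.sub_left hcH).smul_left _
  let A : Fin 3 → Matrix (Fin n) (Fin n) ℂ := ![H1, H2, b]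
  obtain ⟨P, χ, hχ⟩ := sim_diag A (by
    intro i
    fin_cases i
    · obtain ⟨P, d, h⟩ := herm_diag hH1h
      exact ⟨P, _, h⟩
    · obtain ⟨P, d, h⟩ := herm_diag hH2h
      exact ⟨P, _, h⟩
    · obtain ⟨P, d, h⟩ := herm_diag hb
      exact ⟨P, _, h⟩) (by
    intro i j
    fin_cases i <;> fin_cases j
    · exact Commute.refl _
    · exact c12
    · exact c1b
    · exact c12.symm
    · exact Commute.refl _
    · exact c2b
    · exact c1b.symm
    · exact c2b.symm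
    · exact Commute.refl _)
  have e1 : H1 = cj P (χ 0) := hχ 0
  have e2 : H2 = cj P (χ 1) := hχ 1
  have e3 : b = cj P (χ 2) := hχ 2
  have r1 : ∀ i, star (χ 0 i) = χ 0 i := real_of_herm (by rw [← e1]; exact hH1h)
  have r2 : ∀ i, star (χ 1 i) = χ 1 i := real_of_herm (by rw [← e2]; exact hH2h)
  have r3 : ∀ i, star (χ 2 i) = χ 2 i := real_of_herm (by rw [← e3]; exact hb)
  have k1 : κ = cj P (fun i => (2 : ℂ)⁻¹ * (χ 0 i - Complex.I * χ 1 i)) := by
    have : κ = (2 : ℂ)⁻¹ • (H1 - Complex.I • H2) := by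
      rw [hH1, hH2, smul_smul, Complex.I_mul_I, neg_one_smul]
      have : κ + κᴴ - -(κ - κᴴ) = (2 : ℂ) • κ := by
        rw [two_smul]
        abel
      rw [this, smul_smul, inv_mul_cancel₀ two_ne_zero, one_smul]
    rw [this, e1, e2, cj_smul, cj_sub, cj_smul]
    rfl
  have k2 : κᴴ = cj P (fun i => (2 : ℂ)⁻¹ * (χ 0 i + Complex.I * χ 1 i)) := by
    have : κᴴ = (2 : ℂ)⁻¹ • (H1 + Complex.I • H2) := by
      rw [hH1, hH2, smul_smul, Complex.I_mul_I, neg_one_smul]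
      have : κ + κᴴ + -(κ - κᴴ) = (2 : ℂ) • κᴴ := by
        rw [two_smul]
        abel
      rw [this, smul_smul, inv_mul_cancel₀ two_ne_zero, one_smul]
    rw [this, e1, e2, cj_smul, cj_add, cj_smul]
    rfl
  refine ⟨P, _, fun i => (χ 2 i).re, k1, ?_, ?_⟩
  · intro i
    have h1 := hκ
    rw [k2] at h1
    nth_rewrite 1 [k1] at h1
    rw [cj_mul, ← cj_one P] at h1
    have h2 := congrFun (cj_injective P h1) i
    simp only [Pi.mul_apply, Pi.one_apply] at h2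
    have h3 : (2 : ℂ)⁻¹ * (χ 0 i + Complex.I * χ 1 i) =
        star ((2 : ℂ)⁻¹ * (χ 0 i - Complex.I * χ 1 i)) := by
      rw [star_mul', star_sub, star_mul', r1, r2]
      simp
    rw [h3, Complex.star_def, Complex.mul_conj, Complex.normSq_eq_norm_sq] at h2
    have h4 : ‖(2 : ℂ)⁻¹ * (χ 0 i - Complex.I * χ 1 i)‖ ^ 2 = 1 := by exact_mod_cast h2
    exact (pow_eq_one_iff_of_nonneg (norm_nonneg _) two_ne_zero).mp h4
  · rw [e3]
    congr 1
    funext i
    have := r3 i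
    exact (Complex.conj_eq_iff_re.mp this).symm

lemma exp_list {ι : Type*} (l : List ι) (B : ι → Matrix (Fin n) (Fin n) ℂ)
    (hB : ∀ a b, Commute (B a) (B b)) (c : ℝ) :
    (l.map (fun a => NormedSpace.exp (c • B a))).prod =
      NormedSpace.exp (c • (l.map B).sum) := by
  induction l with
  | nil => simp
  | cons a l ih =>
    simp only [List.map_cons, List.prod_cons, List.sum_cons]
    rw [ih, smul_add, Matrix.exp_add_of_commute]
    refine (Commute.smul_right ?_ _).smul_left _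
    clear ih
    induction l with
    | nil => simp
    | cons b l ih =>
      simp only [List.map_cons, List.sum_cons]
      exact (hB a b).add_right ih

lemma Good.local_diag {N : Subgroup Γ} [N.Normal] [Fintype (Γ ⧸ N)] {κ : Γ →* G}
    {b : Γ → Matrix (Fin n) (Fin n) ℂ} (h : Good N κ b) {w : Γ} (hw : w ∈ N) :
    ∃ (P : GL (Fin n) ℂ) (u : Fin n → ℂˣ) (β : Fin n → ℝ),
      mat (h.scale 1) w = cj P (fun i => (u i : ℂ)) ∧ b w = cj P (fun i => (β i : ℂ)) ∧
        ∀ i, ‖(u i : ℂ)‖ = Real.exp (β i) := by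
  obtain ⟨P, θ, β, h1, h2, h3⟩ := unitary_herm_diag (h.unit w) (h.herm w) (h.triv w hw w)
  have hθ : ∀ i, θ i * Complex.exp (β i) ≠ 0 := by
    intro i
    refine mul_ne_zero ?_ (Complex.exp_ne_zero _)
    intro h0
    have := h2 i
    rw [h0, norm_zero] at this
    exact zero_ne_one this
  refine ⟨P, fun i => Units.mk0 _ (hθ i), β, ?_, h3, ?_⟩
  · rw [h.mat_scale, one_smul, h1, h3, exp_cj, cj_mul]
    rfl
  · intro i
    rw [Units.val_mk0, norm_mul, h2, one_mul, Complex.norm_exp, Complex.ofReal_re]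

lemma Good.exists_Phi {N : Subgroup Γ} [N.Normal] [Fintype (Γ ⧸ N)] {κ : Γ →* G}
    {b : Γ → Matrix (Fin n) (Fin n) ℂ} (h : Good N κ b)
    {F : (Γ → Matrix (Fin n) (Fin n) ℂ) → ℂ} (hF : F ∈ regT Γ n) :
    ∃ Φ ∈ EP.W, (∀ k : ℕ, Φ (powMonoidHom k, (k : ℂ)) = F (word N k (h.scale 1))) ∧
      ∀ τ : ℝ, Φ (absPow (((τ - 1) * (Fintype.card (Γ ⧸ N) : ℝ)⁻¹ : ℝ) : ℂ), 0) =
        F (fun γ => mat (h.scale τ) γ) := by
  have hloc : ∀ w ∈ N, ∃ (P : GL (Fin n) ℂ) (u : Fin n → ℂˣ) (β : Fin n → ℝ),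
      mat (h.scale 1) w = cj P (fun i => (u i : ℂ)) ∧ b w = cj P (fun i => (β i : ℂ)) ∧
        ∀ i, ‖(u i : ℂ)‖ = Real.exp (β i) := fun w hw => h.local_diag hw
  choose! P u β hP using hloc
  let x : (ℂˣ →* ℂˣ) × ℂ → Γ → Matrix (Fin n) (Fin n) ℂ := fun q γ =>
    mat (h.scale 1) γ * ((Finset.univ : Finset (Γ ⧸ N)).toList.map
      (fun p => cj (P (wq N p γ)) (fun i => ((q.1 (u (wq N p γ) i) : ℂˣ) : ℂ)))).prod
  refine ⟨fun q => F (x q), ?_, ?_, ?_⟩
  · apply regT_W hF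
    intro γ
    refine (EP.MW.const _).mul (MW_list _ fun p => ?_)
    exact ((EP.MW.const _).mul (EP.MW.diag _)).mul (EP.MW.const _)
  · intro k
    have h5 : x (powMonoidHom k, (k : ℂ)) = word N k (h.scale 1) := by
      funext γ
      have h6 : ∀ p : Γ ⧸ N, cj (P (wq N p γ)) (fun i =>
          ((powMonoidHom k (u (wq N p γ) i) : ℂˣ) : ℂ)) =
          mat (h.scale 1) (wq N p γ) ^ k := by
        intro p
        rw [(hP _ (wq_mem N p γ)).1, cj_pow]
        rfl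
      change mat (h.scale 1) γ * ((Finset.univ : Finset (Γ ⧸ N)).toList.map
        (fun p => cj (P (wq N p γ)) (fun i =>
          ((powMonoidHom k (u (wq N p γ) i) : ℂˣ) : ℂ)))).prod =
        mat (h.scale 1) γ * ((Finset.univ : Finset (Γ ⧸ N)).toList.map
        (fun q => mat (h.scale 1) (wq N q γ) ^ k)).prod
      rw [List.map_congr_left (fun p _ => h6 p)]
    exact congrArg F h5
  · intro τ
    set c : ℝ := (τ - 1) * (Fintype.card (Γ ⧸ N) : ℝ)⁻¹ with hc
    have h5 : x (absPow (c : ℂ), 0) = fun γ => mat (h.scale τ) γ := by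
      funext γ
      have h1 : ∀ p : Γ ⧸ N, cj (P (wq N p γ)) (fun i =>
          ((absPow (c : ℂ) (u (wq N p γ) i) : ℂˣ) : ℂ)) =
          NormedSpace.exp (c • b (wq N p γ)) := by
        intro p
        obtain ⟨-, h2, h3⟩ := hP _ (wq_mem N p γ)
        rw [h2, ← Complex.coe_smul, cj_smul, exp_cj]
        congr 1
        funext i
        change Complex.exp ((c : ℂ) * (Real.log ‖((u (wq N p γ) i : ℂˣ) : ℂ)‖ : ℂ)) = _
        rw [h3, Real.log_exp]
        rfl
      have h4 : ((Finset.univ : Finset (Γ ⧸ N)).toList.map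
        (fun p => cj (P (wq N p γ)) (fun i =>
          ((absPow (c : ℂ) (u (wq N p γ) i) : ℂˣ) : ℂ)))).prod =
          NormedSpace.exp ((τ - 1) • b γ) := by
        rw [List.map_congr_left (fun p _ => h1 p),
          exp_list _ (fun p => b (wq N p γ)) (fun _ _ => h.comm _ _), Finset.sum_map_toList,
          ← h.cent γ, smul_smul, hc, mul_assoc, inv_mul_cancel₀ (card_ne_zero (N := N)),
          mul_one]
      change mat (h.scale 1) γ * ((Finset.univ : Finset (Γ ⧸ N)).toList.map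
        (fun p => cj (P (wq N p γ)) (fun i =>
          ((absPow (c : ℂ) (u (wq N p γ) i) : ℂˣ) : ℂ)))).prod = mat (h.scale τ) γ
      rw [h4, h.mat_scale, h.mat_scale, mul_assoc, ← Matrix.exp_add_of_commute, ← add_smul]
      · congr 3
        ring
      · exact ((Commute.refl _).smul_left _).smul_right _
    exact congrArg F h5

/-- the scaling is well defined on points -/
theorem scale_wd (hR : Reductive G) {N : Subgroup Γ} [N.Normal] [Fintype (Γ ⧸ N)]
    {κ κ' : Γ →* G} {b b' : Γ → Matrix (Fin n) (Fin n) ℂ} (h : Good N κ b)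
    (h' : Good N κ' b') (hp : point (h.scale 1) = point (h'.scale 1)) (τ : ℝ) :
    point (h.scale τ) = point (h'.scale τ) := by
  rw [point_eq_iff]
  intro f hf
  obtain ⟨F, hF, hFinv, hFf⟩ := exists_invariant_extension hR f hf
  obtain ⟨Φ, hΦ, h1, h2⟩ := h.exists_Phi hF
  obtain ⟨Φ', hΦ', h1', h2'⟩ := h'.exists_Phi hF
  have h3 : Φ - Φ' = 0 := by
    apply W_vanish (Subring.sub_mem _ hΦ hΦ')
    intro k
    rw [Pi.sub_apply, h1, h1', sub_eq_zero]
    exact (point_eq_iff _ _).mp hp _ (word_inv hF hFinv N k)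
  have h4 : Φ = Φ' := sub_eq_zero.mp h3
  rw [hFf, hFf]
  change F (fun γ => mat (h.scale τ) γ) = F (fun γ => mat (h'.scale τ) γ)
  rw [← h2, ← h2', h4]

end Pool.Agent.Lib.MP_a9945b_al
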