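import Mathlib
import Pool.Agent.Lib.MP_a9945b_al.Scaling

/-!
Continuity of the scaling, and the deformation retraction for a self-adjoint group.
-/

set_option autoImplicit false

noncomputable section

namespace Pool.Agent.Lib.MP_a9945b_al

open Matrix Filter Topology
open scoped ComplexOrder

variable {Γ : Type} [Group Γ] {n : ℕ} {G : Subgroup (GL (Fin n) ℂ)}

/-- evaluation at a homomorphism -/
def evHom (ρ : Γ →* G) : regHom Γ G →+* ℂ :=
  ((Pi.evalAlgHom ℂ (fun _ : Γ →* G => ℂ) ρ).comp (regHom Γ G).val : regHom Γ G →ₐ[ℂ] ℂ)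

lemma coeff_charpoly_mem (w : Γ) (k : ℕ) :
    (fun ρ : Γ →* G => (mat ρ w).charpoly.coeff k) ∈ invHom Γ G := by
  let A : Matrix (Fin n) (Fin n) (regHom Γ G) := fun i j =>
    ⟨fun ρ => mat ρ w i j, Algebra.subset_adjoin ⟨w, i, j, rfl⟩⟩
  have h1 : ∀ ρ : Γ →* G, A.map (evHom ρ) = mat ρ w := fun ρ => rfl
  have h2 : (fun ρ : Γ →* G => (mat ρ w).charpoly.coeff k) = (A.charpoly.coeff k).1 := by
    funext ρ
    rw [← h1, Matrix.charpoly_map, Polynomial.coeff_map]
    rfl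
  refine ⟨?_, ?_⟩
  · rw [h2]
    exact (A.charpoly.coeff k).2
  · intro g ρ
    change (mat _ w).charpoly.coeff k = (mat ρ w).charpoly.coeff k
    rw [mat_conj, Matrix.coe_units_inv, Matrix.charpoly_units_conj]

lemma root_bound {A : Matrix (Fin n) (Fin n) ℂ} {C : ℝ} (hC : ∀ k < n, ‖A.charpoly.coeff k‖ ≤ C)
    (hC0 : 0 ≤ C) {P : GL (Fin n) ℂ} {d : Fin n → ℂ} (hA : A = cj P d) (i : Fin n) :
    ‖d i‖ ≤ C + 1 := by
  have h1 : A.charpoly.IsRoot (d i) := by
    have h2 : A.charpoly = (diagonal d).charpoly := by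
      rw [hA]
      unfold cj
      rw [Matrix.coe_units_inv, Matrix.charpoly_units_conj]
    rw [h2, Polynomial.IsRoot, Matrix.eval_charpoly]
    have h3 : (Matrix.scalar (Fin n) (d i) - diagonal d) = diagonal (fun j => d i - d j) := by
      ext a b
      rw [Matrix.sub_apply, Matrix.scalar_apply, Matrix.diagonal_apply, Matrix.diagonal_apply,
        Matrix.diagonal_apply]
      split_ifs <;> simp
    rw [h3, Matrix.det_diagonal]
    exact Finset.prod_eq_zero (Finset.mem_univ i) (sub_self _)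
  have h4 := h1.norm_lt_cauchyBound A.charpoly_monic.ne_zero
  have h5 : A.charpoly.cauchyBound ≤ Real.toNNReal C + 1 := by
    unfold Polynomial.cauchyBound
    rw [A.charpoly_monic.leadingCoeff, nnnorm_one, div_one]
    gcongr
    apply Finset.sup_le
    intro k hk
    rw [Finset.mem_range, Matrix.charpoly_natDegree_eq_dim, Fintype.card_fin] at hk
    have := hC k hk
    rw [← NNReal.coe_le_coe, coe_nnnorm, Real.coe_toNNReal C hC0]
    exact this
  have h6 : ‖d i‖₊ ≤ Real.toNNReal C + 1 := h4.le.trans h5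
  have h7 : (‖d i‖₊ : ℝ) ≤ ((Real.toNNReal C + 1 : NNReal) : ℝ) := by exact_mod_cast h6
  rw [coe_nnnorm, NNReal.coe_add, Real.coe_toNNReal C hC0, NNReal.coe_one] at h7
  exact h7

lemma tendsto_val {ι : Type*} {l : Filter ι} {y : ι → CharVar Γ G} {x : CharVar Γ G}
    (h : Tendsto y l (𝓝 x)) (f : invHom Γ G) :
    Tendsto (fun i => (y i).val f) l (𝓝 (x.val f)) := by
  have hcont : Continuous (fun z : CharVar Γ G => z.val f) :=
    (continuous_apply f).comp continuous_induced_dom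
  exact (hcont.tendsto x).comp h

lemma tendsto_of_val {ι : Type*} {l : Filter ι} {y : ι → CharVar Γ G} {x : CharVar Γ G}
    (h : ∀ f : invHom Γ G, Tendsto (fun i => (y i).val f) l (𝓝 (x.val f))) :
    Tendsto y l (𝓝 x) := by
  rw [nhds_induced, tendsto_comap_iff, tendsto_pi_nhds]
  exact h

lemma charpoly_bdd {ι : Type*} {l : Filter ι} {x : CharVar Γ G} {ρ : ι → (Γ →* G)}
    (hρ : Tendsto (fun i => point (ρ i)) l (𝓝 x)) (w : Γ) :
    ∃ C : ℝ, 0 ≤ C ∧ ∀ᶠ i in l, ∀ k < n, ‖(mat (ρ i) w).charpoly.coeff k‖ ≤ C := by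
  let c : ℕ → ℂ := fun k => x.val ⟨_, coeff_charpoly_mem w k⟩
  refine ⟨∑ k ∈ Finset.range n, (‖c k‖ + 1), by positivity, ?_⟩
  have h1 : ∀ k ∈ Finset.range n, ∀ᶠ i in l, ‖(mat (ρ i) w).charpoly.coeff k‖ ≤ ‖c k‖ + 1 := by
    intro k _
    have h2 := (tendsto_val hρ ⟨_, coeff_charpoly_mem w k⟩).norm
    have h3 := h2.eventually_le_const (show ‖c k‖ < ‖c k‖ + 1 by linarith)
    exact h3
  rw [← Finset.eventually_all] at h1
  filter_upwards [h1] with i hi k hk
  refine (hi k (Finset.mem_range.mpr hk)).trans ?_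
  exact Finset.single_le_sum (f := fun k => ‖c k‖ + 1) (fun _ _ => by positivity)
    (Finset.mem_range.mpr hk)

lemma Good.bdd {N : Subgroup Γ} [N.Normal] [Fintype (Γ ⧸ N)] {ι : Type*} {l : Filter ι}
    {κ : ι → (Γ →* G)} {b : ι → Γ → Matrix (Fin n) (Fin n) ℂ} (h : ∀ i, Good N (κ i) (b i))
    {x : CharVar Γ G} (hx : Tendsto (fun i => point ((h i).scale 1)) l (𝓝 x)) (γ : Γ) :
    BddAlong l (fun i => b i γ) := by
  have hw : ∀ w ∈ N, BddAlong l (fun i => b i w) := by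
    intro w hw
    obtain ⟨C1, hC1, h1⟩ := charpoly_bdd hx w
    obtain ⟨C2, hC2, h2⟩ := charpoly_bdd hx w⁻¹
    set C : ℝ := max (Real.log (C1 + 1)) (Real.log (C2 + 1)) with hC
    refine ⟨√(∑ _ : Fin n, C ^ 2), ?_⟩
    filter_upwards [h1, h2] with i hi1 hi2
    obtain ⟨P, u, β, hu, hb, hβ⟩ := (h i).local_diag hw
    have hu' : mat ((h i).scale 1) w⁻¹ = cj P (fun j => ((u j)⁻¹ : ℂ)) := by
      have e1 : mat ((h i).scale 1) w * cj P (fun j => ((u j)⁻¹ : ℂ)) = 1 := by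
        rw [hu, cj_mul, ← cj_one P]
        congr 1
        funext j
        simp
      have e2 := mat_inv_mul ((h i).scale 1) w
      calc mat ((h i).scale 1) w⁻¹ = mat ((h i).scale 1) w⁻¹ *
            (mat ((h i).scale 1) w * cj P (fun j => ((u j)⁻¹ : ℂ))) := by rw [e1, mul_one]
        _ = _ := by rw [← mul_assoc, e2, one_mul]
    have hup : ∀ j, β j ≤ Real.log (C1 + 1) := by
      intro j
      have e1 := root_bound hi1 hC1 hu j
      rw [hβ j] at e1
      exact (Real.le_log_iff_exp_le (by linarith)).mpr e1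
    have hlo : ∀ j, -β j ≤ Real.log (C2 + 1) := by
      intro j
      have e1 := root_bound hi2 hC2 hu' j
      rw [norm_inv, hβ j, ← Real.exp_neg] at e1
      exact (Real.le_log_iff_exp_le (by linarith)).mpr e1
    intro a c
    apply norm_le_of_nsq
    have e2 : nsq (b i w) = ∑ j, β j ^ 2 := by
      unfold nsq
      rw [(h i).herm w, hb, cj_mul]
      unfold cj
      rw [Matrix.trace_mul_cycle, coe_inv_mul, one_mul, Matrix.trace_diagonal, Complex.re_sum]
      refine Finset.sum_congr rfl fun j _ => ?_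
      rw [Pi.mul_apply, ← Complex.ofReal_mul, Complex.ofReal_re, sq]
    rw [e2]
    refine Finset.sum_le_sum fun j _ => ?_
    have e3 : |β j| ≤ C := by
      rw [abs_le]
      constructor
      · have := (hlo j).trans (le_max_right (Real.log (C1 + 1)) _)
        linarith
      · exact (hup j).trans (le_max_left _ _)
    rw [← sq_abs]
    exact pow_le_pow_left₀ (abs_nonneg _) e3 2
  have h1 : ∀ i, b i γ = (Fintype.card (Γ ⧸ N) : ℝ)⁻¹ • ∑ q : Γ ⧸ N, b i (wq N q γ) := by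
    intro i
    rw [← (h i).cent γ, smul_smul, inv_mul_cancel₀ (card_ne_zero (N := N)), one_smul]
  choose B hB using fun q : Γ ⧸ N => hw _ (wq_mem N q γ)
  refine ⟨(Fintype.card (Γ ⧸ N) : ℝ)⁻¹ * ∑ q : Γ ⧸ N, B q, ?_⟩
  have h2 : ∀ᶠ i in l, ∀ q, ∀ a c, ‖b i (wq N q γ) a c‖ ≤ B q := by
    rw [Filter.eventually_all]
    exact hB
  filter_upwards [h2] with i hi a c
  rw [h1, Matrix.smul_apply, Matrix.sum_apply, norm_smul, Real.norm_of_nonneg (by positivity)]
  refine mul_le_mul_of_nonneg_left ?_ (by positivity)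
  exact (norm_sum_le _ _).trans (Finset.sum_le_sum fun q _ => hi q a c)

section Lim

attribute [local instance] Matrix.linftyOpNormedRing Matrix.linftyOpNormedAlgebra

lemma tendsto_exp {ι : Type*} {l : Filter ι} {A : ι → Matrix (Fin n) (Fin n) ℂ}
    {A₀ : Matrix (Fin n) (Fin n) ℂ} (h : Tendsto A l (𝓝 A₀)) :
    Tendsto (fun i => NormedSpace.exp (A i)) l (𝓝 (NormedSpace.exp A₀)) :=
  ((NormedSpace.exp_continuous (𝔸 := Matrix (Fin n) (Fin n) ℂ)).tendsto A₀).comp h

end Lim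

lemma Good.lim {N : Subgroup Γ} [N.Normal] [Fintype (Γ ⧸ N)] (hZ : ZariskiClosed G)
    {ι : Type*} {l : Filter ι} [l.NeBot]
    {κ : ι → (Γ →* G)} {b : ι → Γ → Matrix (Fin n) (Fin n) ℂ} (h : ∀ i, Good N (κ i) (b i))
    {κ₀ : Γ →* G} {b₀ : Γ → Matrix (Fin n) (Fin n) ℂ}
    (hκ : ∀ γ, Tendsto (fun i => mat (κ i) γ) l (𝓝 (mat κ₀ γ)))
    (hb : ∀ γ, Tendsto (fun i => b i γ) l (𝓝 (b₀ γ))) : Good N κ₀ b₀ := by
  have hκH : ∀ γ, Tendsto (fun i => (mat (κ i) γ)ᴴ) l (𝓝 ((mat κ₀ γ)ᴴ)) := by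
    intro γ
    have hc : Continuous (fun A : Matrix (Fin n) (Fin n) ℂ => Aᴴ) := by fun_prop
    exact (hc.tendsto _).comp (hκ γ)
  have hbH : ∀ γ, Tendsto (fun i => (b i γ)ᴴ) l (𝓝 ((b₀ γ)ᴴ)) := by
    intro γ
    have hc : Continuous (fun A : Matrix (Fin n) (Fin n) ℂ => Aᴴ) := by fun_prop
    exact (hc.tendsto _).comp (hb γ)
  refine ⟨?_, ?_, ?_, ?_, ?_, ?_, ?_⟩
  · intro γ
    have h1 := (hκ γ).mul (hκH γ)
    have h2 : (fun i => mat (κ i) γ * (mat (κ i) γ)ᴴ) = fun _ => 1 :=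
      funext fun i => (h i).unit γ
    rw [h2] at h1
    exact tendsto_nhds_unique h1 tendsto_const_nhds |>.symm ▸ rfl
  · intro γ
    have h2 : (fun i => (b i γ)ᴴ) = fun i => b i γ := funext fun i => (h i).herm γ
    have h1 := hbH γ
    rw [h2] at h1
    exact tendsto_nhds_unique h1 (hb γ)
  · intro γ τ
    have h1 : ∀ i, ∃ g ∈ G, (g : Matrix (Fin n) (Fin n) ℂ) = NormedSpace.exp (τ • b i γ) :=
      fun i => (h i).exp γ τ
    choose g hg hg' using h1
    refine InG.of_tendsto hZ (l := l) hg (B := NormedSpace.exp (-(τ • b₀ γ))) ?_ ?_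
    · simp only [hg']
      exact tendsto_exp ((hb γ).const_smul τ)
    · have h2 : (fun i => (((g i)⁻¹ : GL (Fin n) ℂ) : Matrix (Fin n) (Fin n) ℂ)) =
          fun i => NormedSpace.exp (-(τ • b i γ)) := funext fun i => exp_neg_inv (hg' i)
      rw [h2]
      exact tendsto_exp ((hb γ).const_smul τ).neg
  · intro γ δ
    have h1 := (hb γ).mul (hb δ)
    have h2 := (hb δ).mul (hb γ)
    have h3 : (fun i => b i γ * b i δ) = fun i => b i δ * b i γ :=
      funext fun i => ((h i).comm γ δ).eq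
    rw [h3] at h1
    exact tendsto_nhds_unique h1 h2
  · intro γ δ
    have h1 := (hκ δ).mul (hb (γ * δ))
    have h2 := ((hb γ).mul (hκ δ)).add ((hκ δ).mul (hb δ))
    have h3 : (fun i => mat (κ i) δ * b i (γ * δ)) =
        fun i => b i γ * mat (κ i) δ + mat (κ i) δ * b i δ :=
      funext fun i => (h i).cocycle γ δ
    rw [h3] at h1
    exact tendsto_nhds_unique h1 h2
  · intro ν hν γ
    have h1 := (hκ ν).mul (hb γ)
    have h2 := (hb γ).mul (hκ ν)
    have h3 : (fun i => mat (κ i) ν * b i γ) = fun i => b i γ * mat (κ i) ν :=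
      funext fun i => ((h i).triv ν hν γ).eq
    rw [h3] at h1
    exact tendsto_nhds_unique h1 h2
  · intro γ
    have h1 := (hb γ).const_smul (Fintype.card (Γ ⧸ N) : ℝ)
    have h2 : Tendsto (fun i => ∑ q : Γ ⧸ N, b i (wq N q γ)) l
        (𝓝 (∑ q : Γ ⧸ N, b₀ (wq N q γ))) := tendsto_finsetSum _ fun q _ => hb _
    have h3 : (fun i => (Fintype.card (Γ ⧸ N) : ℝ) • b i γ) =
        fun i => ∑ q : Γ ⧸ N, b i (wq N q γ) := funext fun i => (h i).cent γ
    rw [h3] at h1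
    exact tendsto_nhds_unique h1 h2

lemma Good.trivial {N : Subgroup Γ} [N.Normal] [Fintype (Γ ⧸ N)] {ρ : Γ →* G}
    (h : ∀ γ, mat ρ γ * (mat ρ γ)ᴴ = 1) : Good N ρ (fun _ => 0) := by
  refine ⟨h, ?_, ?_, ?_, ?_, ?_, ?_⟩
  · intro γ
    exact Matrix.conjTranspose_zero
  · intro γ τ
    rw [smul_zero, NormedSpace.exp_zero]
    exact InG.one
  · intro γ δ
    exact Commute.refl _
  · intro γ δ
    simp
  · intro ν _ γ
    exact Commute.zero_right _
  · intro γ
    simp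

lemma Good.trivial_scale {N : Subgroup Γ} [N.Normal] [Fintype (Γ ⧸ N)] {ρ : Γ →* G}
    (h : Good N ρ (fun _ => (0 : Matrix (Fin n) (Fin n) ℂ))) (τ : ℝ) : h.scale τ = ρ := by
  apply hom_ext
  intro γ
  rw [h.mat_scale, smul_zero, NormedSpace.exp_zero, mul_one]

end Pool.Agent.Lib.MP_a9945b_al
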