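import Mathlib
import Pool.Agent.Lib.MP_a9945b_al.Top

/-!
The deformation retraction for a self-adjoint group.
-/

set_option autoImplicit false

noncomputable section

namespace Pool.Agent.Lib.MP_a9945b_al

open Matrix Filter Topology
open scoped ComplexOrder

variable {Γ : Type} [Group Γ] {n : ℕ} {G : Subgroup (GL (Fin n) ℂ)}

lemma exists_gens (hfg : Group.FG Γ) :
    ∃ T : Finset Γ, Subgroup.closure (T : Set Γ) = ⊤ ∧ ∀ σ ∈ T, σ⁻¹ ∈ T := by
  classical
  obtain ⟨S, hS⟩ := hfg.out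
  refine ⟨S ∪ S.image (fun x => x⁻¹), ?_, ?_⟩
  · rw [eq_top_iff, ← hS]
    apply Subgroup.closure_mono
    intro x hx
    exact Finset.mem_coe.mpr (Finset.mem_union_left _ hx)
  · intro σ hσ
    rw [Finset.mem_union, Finset.mem_image] at hσ ⊢
    rcases hσ with h | ⟨x, hx, rfl⟩
    · exact Or.inr ⟨σ, h, rfl⟩
    · left
      rwa [inv_inv]

/-- existence of good pairs over every point -/
theorem exists_good (hs : Supersolvable Γ) (n : ℕ) :
    ∃ (N : Subgroup Γ) (_ : N.Normal) (_ : Fintype (Γ ⧸ N)),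
      ∀ {G : Subgroup (GL (Fin n) ℂ)} (_ : ZariskiClosed G) (_ : Reductive G)
        (_ : ∀ A, InG G A → InG G Aᴴ) (x : CharVar Γ G),
        ∃ (κ : Γ →* G) (b : Γ → Matrix (Fin n) (Fin n) ℂ) (hg : Good N κ b),
          point (hg.scale 1) = x := by
  obtain ⟨N, hN1, hN2, hN3⟩ := exists_uniform_subgroup hs n
  have hF : Finite (Γ ⧸ N) := inferInstance
  refine ⟨N, hN1, Fintype.ofFinite _, ?_⟩
  intro G hZ hR hstar x
  have hfg : Group.FG Γ := hs.fg
  obtain ⟨ρ₀, rfl⟩ := point_surjective hZ hR x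
  obtain ⟨T, hcl, hinv⟩ := exists_gens hfg
  obtain ⟨m, hm1, hm2⟩ := exists_min hZ hcl hinv ρ₀
  have hmin : ∀ ρ : Γ →* G, point ρ = point m → energy T m ≤ energy T ρ := by
    intro ρ hρ
    exact hm2 ρ (hρ.trans hm1)
  obtain ⟨P, χ, hyp⟩ := hN3 hZ hstar hcl m hmin
  have : Fintype (Γ ⧸ N) := Fintype.ofFinite _
  obtain ⟨κ, b, hg, hp⟩ := @exists_good_of_hyp Γ _ n G m N hN1 (Fintype.ofFinite _) P χ hyp hN2
    hZ hstar T hcl hmin
  exact ⟨κ, b, hg, hp.trans hm1⟩

/-- continuity of the scaling along ultrafilters -/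
theorem scale_tendsto (hZ : ZariskiClosed G) (hR : Reductive G)
    {N : Subgroup Γ} [N.Normal] [Fintype (Γ ⧸ N)]
    {ι : Type} {l : Ultrafilter ι} {κ : ι → (Γ →* G)} {b : ι → Γ → Matrix (Fin n) (Fin n) ℂ}
    (h : ∀ i, Good N (κ i) (b i)) {x : CharVar Γ G}
    (hx : Tendsto (fun i => point ((h i).scale 1)) l (𝓝 x))
    {t : ι → ℝ} {t₀ : ℝ} (ht : Tendsto t l (𝓝 t₀))
    {κ' : Γ →* G} {b' : Γ → Matrix (Fin n) (Fin n) ℂ} (h' : Good N κ' b')
    (hp' : point (h'.scale 1) = x) :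
    Tendsto (fun i => point ((h i).scale (t i))) l (𝓝 (point (h'.scale t₀))) := by
  have hbκ : ∀ γ, BddAlong (l : Filter ι) (fun i => mat (κ i) γ) := by
    intro γ
    refine ⟨√(Fintype.card (Fin n)), Eventually.of_forall fun p a c => ?_⟩
    apply norm_le_of_nsq
    unfold nsq
    rw [(h p).unit γ, Matrix.trace_one]
    simp
  obtain ⟨κ₀, hκ₀⟩ := exists_lim_hom hZ l κ hbκ
  have hbb : ∀ γ, BddAlong (l : Filter ι) (fun i => b i γ) := fun γ => Good.bdd h hx γ
  choose b₀ hb₀ using fun γ => (hbb γ).exists_lim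
  have hgood : Good N κ₀ b₀ := Good.lim hZ h hκ₀ hb₀
  have hsc : ∀ (c : ι → ℝ) (c₀ : ℝ), Tendsto c l (𝓝 c₀) →
      ∀ γ, Tendsto (fun p => mat ((h p).scale (c p)) γ) l
        (𝓝 (mat (hgood.scale c₀) γ)) := by
    intro c c₀ hc γ
    have h1 : (fun p => mat ((h p).scale (c p)) γ) =
        fun p => mat (κ p) γ * NormedSpace.exp (c p • b p γ) :=
      funext fun p => (h p).mat_scale (c p) γ
    rw [h1, hgood.mat_scale]
    exact (hκ₀ γ).mul (tendsto_exp (hc.smul (hb₀ γ)))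
  have hpx : point (hgood.scale 1) = x :=
    point_eq_of_tendsto (hsc (fun _ => 1) 1 tendsto_const_nhds) hx (fun _ => rfl)
  rw [← scale_wd hR hgood h' (hpx.trans hp'.symm) t₀]
  apply tendsto_of_val
  intro f
  exact regHom_tendsto f.2.1 (hsc t t₀ ht)

/-- the retraction in the self-adjoint case -/
theorem retract_sa (hs : Supersolvable Γ) (hZ : ZariskiClosed G) (hR : Reductive G)
    (hstar : ∀ A, InG G A → InG G Aᴴ) :
    StrongDeformationRetract
      {x : CharVar Γ G | ∃ ρ : Γ →* G, (∀ γ, mat ρ γ * (mat ρ γ)ᴴ = 1) ∧ x = point ρ} := by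
  obtain ⟨N, hN1, hN2, hex⟩ := exists_good hs n
  choose κ b hg hp using hex hZ hR hstar
  let H : CharVar Γ G × unitInterval → CharVar Γ G := fun p =>
    point ((hg p.1).scale (1 - (p.2 : ℝ)))
  refine ⟨H, ?_, ?_, ?_, ?_⟩
  · rw [continuous_iff_ultrafilter]
    rintro ⟨x, t⟩ l hl
    have hx : Tendsto (fun p : CharVar Γ G × unitInterval => p.1) l (𝓝 x) :=
      (continuous_fst.tendsto (x, t)).mono_left hl
    have ht : Tendsto (fun p : CharVar Γ G × unitInterval => (1 - (p.2 : ℝ))) l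
        (𝓝 (1 - (t : ℝ))) := by
      have hc : Continuous (fun p : CharVar Γ G × unitInterval => (1 - (p.2 : ℝ))) := by
        fun_prop
      exact (hc.tendsto (x, t)).mono_left hl
    have hx1 : Tendsto (fun p : CharVar Γ G × unitInterval => point ((hg p.1).scale 1)) l
        (𝓝 x) := by
      have : (fun p : CharVar Γ G × unitInterval => point ((hg p.1).scale 1)) =
          fun p => p.1 := funext fun p => hp p.1
      rw [this]
      exact hx
    exact scale_tendsto hZ hR (κ := fun p : CharVar Γ G × unitInterval => κ p.1)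
      (b := fun p : CharVar Γ G × unitInterval => b p.1) (fun p => hg p.1) hx1 ht (hg x) (hp x)
  · intro x
    change point ((hg x).scale (1 - ((0 : unitInterval) : ℝ))) = x
    rw [Set.Icc.coe_zero, sub_zero]
    exact hp x
  · intro x
    refine ⟨κ x, (hg x).unit, ?_⟩
    change point ((hg x).scale (1 - ((1 : unitInterval) : ℝ))) = _
    rw [Set.Icc.coe_one, sub_self, Good.scale_zero]
  · rintro _ ⟨ρ, hρ, rfl⟩ t
    have h0 : Good N ρ (fun _ => (0 : Matrix (Fin n) (Fin n) ℂ)) := Good.trivial hρ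
    change point ((hg (point ρ)).scale (1 - (t : ℝ))) = _
    have h1 : point ((hg (point ρ)).scale 1) = point (h0.scale 1) := by
      rw [hp, h0.trivial_scale]
    rw [scale_wd hR (hg (point ρ)) h0 h1, h0.trivial_scale]

end Pool.Agent.Lib.MP_a9945b_al
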