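import Mathlib
import Pool.Agent.Lib.MP_a9945b_al.Retract

/-!
The general case: transfer to a self-adjoint conjugate.
-/

set_option autoImplicit false

noncomputable section

namespace Pool.Agent.Lib.MP_a9945b_al

open Matrix Filter Topology
open scoped ComplexOrder

variable {Γ : Type} [Group Γ] {n : ℕ} {G : Subgroup (GL (Fin n) ℂ)}

/-! ### Regular functions -/

lemma regGL_conj (h : GL (Fin n) ℂ) {f : GL (Fin n) ℂ → ℂ} (hf : f ∈ regGL n) :
    (fun g => f (h * g * h⁻¹)) ∈ regGL n := by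
  have gen1 : ∀ i j, (fun g : GL (Fin n) ℂ => (g : Matrix (Fin n) (Fin n) ℂ) i j) ∈ regGL n :=
    fun i j => Algebra.subset_adjoin ⟨i, j, Or.inl rfl⟩
  have gen2 : ∀ i j, (fun g : GL (Fin n) ℂ =>
      ((g⁻¹ : GL (Fin n) ℂ) : Matrix (Fin n) (Fin n) ℂ) i j) ∈ regGL n :=
    fun i j => Algebra.subset_adjoin ⟨i, j, Or.inr rfl⟩
  have key : ∀ (u : GL (Fin n) ℂ → Matrix (Fin n) (Fin n) ℂ),
      (∀ i j, (fun g => u g i j) ∈ regGL n) → ∀ i j,
      (fun g => ((h : Matrix (Fin n) (Fin n) ℂ) * u g *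
        ((h⁻¹ : GL (Fin n) ℂ) : Matrix (Fin n) (Fin n) ℂ)) i j) ∈ regGL n := by
    intro u hu i j
    have h1 : (fun g => ((h : Matrix (Fin n) (Fin n) ℂ) * u g *
        ((h⁻¹ : GL (Fin n) ℂ) : Matrix (Fin n) (Fin n) ℂ)) i j) =
        ∑ k, ∑ l, (algebraMap ℂ (GL (Fin n) ℂ → ℂ) ((h : Matrix (Fin n) (Fin n) ℂ) i l) *
          (fun g => u g l k)) *
          algebraMap ℂ (GL (Fin n) ℂ → ℂ)
            (((h⁻¹ : GL (Fin n) ℂ) : Matrix (Fin n) (Fin n) ℂ) k j) := by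
      funext g
      rw [Matrix.mul_apply]
      simp only [Matrix.mul_apply, Finset.sum_mul, Finset.sum_apply, Pi.mul_apply]
      rfl
    rw [h1]
    exact Subalgebra.sum_mem _ fun k _ => Subalgebra.sum_mem _ fun l _ =>
      Subalgebra.mul_mem _ (Subalgebra.mul_mem _ (Subalgebra.algebraMap_mem _ _) (hu l k))
        (Subalgebra.algebraMap_mem _ _)
  induction hf using Algebra.adjoin_induction with
  | mem f hf =>
    obtain ⟨i, j, rfl | rfl⟩ := hf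
    · exact key (fun g => (g : Matrix (Fin n) (Fin n) ℂ)) gen1 i j
    · have h1 := key (fun g => ((g⁻¹ : GL (Fin n) ℂ) : Matrix (Fin n) (Fin n) ℂ)) gen2 i j
      have h2 : (fun g : GL (Fin n) ℂ =>
          (((h * g * h⁻¹)⁻¹ : GL (Fin n) ℂ) : Matrix (Fin n) (Fin n) ℂ) i j) =
          fun g => ((h : Matrix (Fin n) (Fin n) ℂ) *
            ((g⁻¹ : GL (Fin n) ℂ) : Matrix (Fin n) (Fin n) ℂ) *
            ((h⁻¹ : GL (Fin n) ℂ) : Matrix (Fin n) (Fin n) ℂ)) i j := by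
        funext g
        rw [_root_.mul_inv_rev, _root_.mul_inv_rev, inv_inv, Units.val_mul, Units.val_mul,
          mul_assoc]
      change (fun g : GL (Fin n) ℂ =>
          (((h * g * h⁻¹)⁻¹ : GL (Fin n) ℂ) : Matrix (Fin n) (Fin n) ℂ) i j) ∈ _
      rw [h2]
      exact h1
  | algebraMap r => exact Subalgebra.algebraMap_mem _ r
  | add f g _ _ h1 h2 => exact Subalgebra.add_mem _ h1 h2
  | mul f g _ _ h1 h2 => exact Subalgebra.mul_mem _ h1 h2

lemma coe_star (g : GL (Fin n) ℂ) :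
    ((star g : GL (Fin n) ℂ) : Matrix (Fin n) (Fin n) ℂ) = (g : Matrix (Fin n) (Fin n) ℂ)ᴴ := rfl

lemma coe_star_inv (g : GL (Fin n) ℂ) :
    (((star g)⁻¹ : GL (Fin n) ℂ) : Matrix (Fin n) (Fin n) ℂ) =
      ((g⁻¹ : GL (Fin n) ℂ) : Matrix (Fin n) (Fin n) ℂ)ᴴ := by
  rw [← star_inv]
  rfl

lemma regGL_star {f : GL (Fin n) ℂ → ℂ} (hf : f ∈ regGL n) :
    (fun g => star (f (star g))) ∈ regGL n := by
  induction hf using Algebra.adjoin_induction with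
  | mem f hf =>
    obtain ⟨i, j, rfl | rfl⟩ := hf
    · have h1 : (fun g : GL (Fin n) ℂ =>
          star (((star g : GL (Fin n) ℂ) : Matrix (Fin n) (Fin n) ℂ) i j)) =
          fun g : GL (Fin n) ℂ => (g : Matrix (Fin n) (Fin n) ℂ) j i := by
        funext g
        rw [coe_star, Matrix.conjTranspose_apply, star_star]
      rw [h1]
      exact Algebra.subset_adjoin ⟨j, i, Or.inl rfl⟩
    · have h1 : (fun g : GL (Fin n) ℂ =>
          star ((((star g)⁻¹ : GL (Fin n) ℂ) : Matrix (Fin n) (Fin n) ℂ) i j)) =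
          fun g : GL (Fin n) ℂ => ((g⁻¹ : GL (Fin n) ℂ) : Matrix (Fin n) (Fin n) ℂ) j i := by
        funext g
        rw [coe_star_inv, Matrix.conjTranspose_apply, star_star]
      rw [h1]
      exact Algebra.subset_adjoin ⟨j, i, Or.inr rfl⟩
  | algebraMap r => exact Subalgebra.algebraMap_mem _ (star r)
  | add f g _ _ h1 h2 =>
    have : (fun x : GL (Fin n) ℂ => star ((f + g) (star x))) =
        (fun x => star (f (star x))) + fun x => star (g (star x)) := by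
      funext x
      simp
    rw [this]
    exact Subalgebra.add_mem _ h1 h2
  | mul f g _ _ h1 h2 =>
    have : (fun x : GL (Fin n) ℂ => star ((f * g) (star x))) =
        (fun x => star (f (star x))) * fun x => star (g (star x)) := by
      funext x
      simp
    rw [this]
    exact Subalgebra.mul_mem _ h1 h2

/-! ### Conjugate subgroups -/

/-- the conjugate subgroup -/
def cG (h : GL (Fin n) ℂ) (G : Subgroup (GL (Fin n) ℂ)) : Subgroup (GL (Fin n) ℂ) :=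
  G.comap (MulAut.conj h⁻¹).toMonoidHom

lemma mem_cG {h g : GL (Fin n) ℂ} {G : Subgroup (GL (Fin n) ℂ)} :
    g ∈ cG h G ↔ h⁻¹ * g * h ∈ G := by
  unfold cG
  rw [Subgroup.mem_comap]
  have : (MulAut.conj h⁻¹).toMonoidHom g = h⁻¹ * g * h := by
    simp
  rw [this]

lemma conj_mem_cG {h g : GL (Fin n) ℂ} {G : Subgroup (GL (Fin n) ℂ)} (hg : g ∈ G) :
    h * g * h⁻¹ ∈ cG h G := by
  rw [mem_cG]
  have : h⁻¹ * (h * g * h⁻¹) * h = g := by group
  rwa [this]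

lemma isCompact_cG {h : GL (Fin n) ℂ} {C : Subgroup (GL (Fin n) ℂ)}
    (hC : IsCompact (C : Set (GL (Fin n) ℂ))) : IsCompact (cG h C : Set (GL (Fin n) ℂ)) := by
  have h1 : (cG h C : Set (GL (Fin n) ℂ)) = (fun g => h * g * h⁻¹) '' (C : Set _) := by
    ext g
    constructor
    · intro hg
      exact ⟨h⁻¹ * g * h, mem_cG.mp hg, by group⟩
    · rintro ⟨g, hg, rfl⟩
      exact conj_mem_cG hg
  rw [h1]
  apply hC.image
  fun_prop

lemma zariskiClosed_cG (h : GL (Fin n) ℂ) (hZ : ZariskiClosed G) : ZariskiClosed (cG h G) := by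
  intro g hg
  rw [mem_cG]
  apply hZ
  intro f hf hf0
  have h1 := hg (fun x => f (h⁻¹ * x * h⁻¹⁻¹)) (regGL_conj h⁻¹ hf) (fun x hx => by
    rw [inv_inv]
    exact hf0 _ (mem_cG.mp hx))
  change f (h⁻¹ * g * h⁻¹⁻¹) = 0 at h1
  rwa [inv_inv] at h1

lemma dense_cG (h : GL (Fin n) ℂ) {C : Subgroup (GL (Fin n) ℂ)}
    (hd : ∀ f ∈ regGL n, (∀ c ∈ C, f c = 0) → ∀ g ∈ G, f g = 0) :
    ∀ f ∈ regGL n, (∀ c ∈ cG h C, f c = 0) → ∀ g ∈ cG h G, f g = 0 := by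
  intro f hf h0 g hg
  have h1 := hd _ (regGL_conj h hf) (fun c hc => h0 _ (conj_mem_cG hc)) _ (mem_cG.mp hg)
  have h2 : h * (h⁻¹ * g * h) * h⁻¹ = g := by group
  change f (h * (h⁻¹ * g * h) * h⁻¹) = 0 at h1
  rwa [h2] at h1

/-- a group with a Zariski dense unitary subgroup is self-adjoint -/
lemma star_of_dense (hZ : ZariskiClosed G) {C : Subgroup (GL (Fin n) ℂ)} (hCG : C ≤ G)
    (hd : ∀ f ∈ regGL n, (∀ c ∈ C, f c = 0) → ∀ g ∈ G, f g = 0)
    (hu : ∀ c ∈ C, (c : Matrix (Fin n) (Fin n) ℂ) * (c : Matrix (Fin n) (Fin n) ℂ)ᴴ = 1)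
    (A : Matrix (Fin n) (Fin n) ℂ) (hA : InG G A) : InG G Aᴴ := by
  obtain ⟨g, hg, rfl⟩ := hA
  refine ⟨star g, ?_, rfl⟩
  apply hZ
  intro f hf hf0
  have h1 := hd _ (regGL_star hf) (fun c hc => by
    have h2 : star c = c⁻¹ := by
      rw [eq_inv_iff_mul_eq_one]
      apply Units.ext
      rw [Units.val_mul, coe_star, Units.val_one]
      exact mul_eq_one_comm.mp (hu c hc)
    change star (f (star c)) = 0
    rw [h2, hf0 _ (G.inv_mem (hCG hc)), star_zero]) g hg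
  change star (f (star g)) = 0 at h1
  rwa [star_eq_zero] at h1

/-! ### Transfer between conjugate groups -/

section Transfer

variable {G₁ G₂ G₃ : Subgroup (GL (Fin n) ℂ)}

/-- conjugation as a homomorphism between two subgroups -/
def cHom (h : GL (Fin n) ℂ) (hG : ∀ g ∈ G₁, h * g * h⁻¹ ∈ G₂) : G₁ →* G₂ :=
  MonoidHom.mk' (fun g => ⟨h * (g : GL (Fin n) ℂ) * h⁻¹, hG g g.2⟩) (by
    intro a b
    apply Subtype.ext
    change h * ((a : GL (Fin n) ℂ) * b) * h⁻¹ = (h * a * h⁻¹) * (h * b * h⁻¹)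
    group)

lemma cHom_coe (h : GL (Fin n) ℂ) (hG : ∀ g ∈ G₁, h * g * h⁻¹ ∈ G₂) (g : G₁) :
    (cHom h hG g : GL (Fin n) ℂ) = h * (g : GL (Fin n) ℂ) * h⁻¹ := rfl

lemma pull_mem (h : GL (Fin n) ℂ) (hG : ∀ g ∈ G₁, h * g * h⁻¹ ∈ G₂)
    {f : (Γ →* G₂) → ℂ} (hf : f ∈ invHom Γ G₂) :
    (fun ρ : Γ →* G₁ => f ((cHom h hG).comp ρ)) ∈ invHom Γ G₁ := by
  obtain ⟨hf, hf'⟩ := hf
  refine ⟨?_, ?_⟩
  · clear hf'
    induction hf using Algebra.adjoin_induction with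
    | mem f hf =>
      obtain ⟨γ, i, j, rfl⟩ := hf
      have h1 : (fun ρ : Γ →* G₁ => mat ((cHom h hG).comp ρ) γ i j) =
          ∑ k, ∑ l, (algebraMap ℂ ((Γ →* G₁) → ℂ) ((h : Matrix (Fin n) (Fin n) ℂ) i l) *
          (fun ρ : Γ →* G₁ => mat ρ γ l k)) *
          algebraMap ℂ ((Γ →* G₁) → ℂ)
            (((h⁻¹ : GL (Fin n) ℂ) : Matrix (Fin n) (Fin n) ℂ) k j) := by
        funext ρ
        have h2 : mat ((cHom h hG).comp ρ) γ = (h : Matrix (Fin n) (Fin n) ℂ) * mat ρ γ *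
          ((h⁻¹ : GL (Fin n) ℂ) : Matrix (Fin n) (Fin n) ℂ) := rfl
        rw [h2, Matrix.mul_apply]
        simp only [Matrix.mul_apply, Finset.sum_mul, Finset.sum_apply, Pi.mul_apply]
        rfl
      change (fun ρ : Γ →* G₁ => mat ((cHom h hG).comp ρ) γ i j) ∈ _
      rw [h1]
      exact Subalgebra.sum_mem _ fun k _ => Subalgebra.sum_mem _ fun l _ =>
        Subalgebra.mul_mem _ (Subalgebra.mul_mem _ (Subalgebra.algebraMap_mem _ _)
          (Algebra.subset_adjoin ⟨γ, l, k, rfl⟩)) (Subalgebra.algebraMap_mem _ _)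
    | algebraMap r => exact Subalgebra.algebraMap_mem _ r
    | add f g _ _ h1 h2 => exact Subalgebra.add_mem _ h1 h2
    | mul f g _ _ h1 h2 => exact Subalgebra.mul_mem _ h1 h2
  · intro g ρ
    have h1 : (cHom h hG).comp ((MulAut.conj g).toMonoidHom.comp ρ) =
        (MulAut.conj (cHom h hG g)).toMonoidHom.comp ((cHom h hG).comp ρ) := by
      ext γ : 1
      simp [MulAut.conj_apply]
    change f ((cHom h hG).comp ((MulAut.conj g).toMonoidHom.comp ρ)) = _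
    rw [h1]
    exact hf' _ _

/-- pulling back invariants -/
def pull (Γ : Type) [Group Γ] (h : GL (Fin n) ℂ) (hG : ∀ g ∈ G₁, h * g * h⁻¹ ∈ G₂) :
    invHom Γ G₂ →ₐ[ℂ] invHom Γ G₁ where
  toFun f := ⟨fun ρ => f.1 ((cHom h hG).comp ρ), pull_mem h hG f.2⟩
  map_one' := rfl
  map_mul' _ _ := rfl
  map_zero' := rfl
  map_add' _ _ := rfl
  commutes' _ := rfl

/-- the map on character varieties -/
def push (h : GL (Fin n) ℂ) (hG : ∀ g ∈ G₁, h * g * h⁻¹ ∈ G₂) (x : CharVar Γ G₁) :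
    CharVar Γ G₂ :=
  AlgHom.comp (show invHom Γ G₁ →ₐ[ℂ] ℂ from x) (pull Γ h hG)

lemma push_point (h : GL (Fin n) ℂ) (hG : ∀ g ∈ G₁, h * g * h⁻¹ ∈ G₂) (ρ : Γ →* G₁) :
    push h hG (point ρ) = point ((cHom h hG).comp ρ) := rfl

lemma continuous_push (h : GL (Fin n) ℂ) (hG : ∀ g ∈ G₁, h * g * h⁻¹ ∈ G₂) :
    Continuous (push (Γ := Γ) h hG) := by
  rw [continuous_induced_rng, continuous_pi_iff]
  intro f
  exact (continuous_apply (pull Γ h hG f)).comp continuous_induced_dom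

lemma push_push (h : GL (Fin n) ℂ) (hG : ∀ g ∈ G₁, h * g * h⁻¹ ∈ G₂)
    (hG' : ∀ g ∈ G₂, h⁻¹ * g * h⁻¹⁻¹ ∈ G₁) (x : CharVar Γ G₁) :
    push h⁻¹ hG' (push h hG x) = x := by
  apply AlgHom.ext
  intro f
  change (show invHom Γ G₁ →ₐ[ℂ] ℂ from x) (pull Γ h hG (pull Γ h⁻¹ hG' f)) =
    (show invHom Γ G₁ →ₐ[ℂ] ℂ from x) f
  congr 1
  apply Subtype.ext
  funext ρ
  change f.1 ((cHom h⁻¹ hG').comp ((cHom h hG).comp ρ)) = f.1 ρ
  refine congrArg f.1 ?_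
  ext γ : 1
  apply Subtype.ext
  change h⁻¹ * (h * (ρ γ : GL (Fin n) ℂ) * h⁻¹) * h⁻¹⁻¹ = (ρ γ : GL (Fin n) ℂ)
  group

end Transfer

lemma sdr_transfer {X Y : Type} [TopologicalSpace X] [TopologicalSpace Y] {A : Set X}
    {B : Set Y} (φ : X → Y) (ψ : Y → X) (hφ : Continuous φ) (hψ : Continuous ψ)
    (hφψ : ∀ y, φ (ψ y) = y) (hA : ∀ a ∈ A, φ a ∈ B) (hB : ∀ b ∈ B, ψ b ∈ A)
    (h : StrongDeformationRetract A) : StrongDeformationRetract B := by
  obtain ⟨H, h1, h2, h3, h4⟩ := h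
  refine ⟨fun p => φ (H (ψ p.1, p.2)), ?_, ?_, ?_, ?_⟩
  · fun_prop
  · intro x
    change φ (H (ψ x, 0)) = x
    rw [h2, hφψ]
  · intro x
    exact hA _ (h3 _)
  · intro b hb t
    change φ (H (ψ b, t)) = b
    rw [h4 _ (hB b hb), hφψ]

/-! ### Compactness -/

lemma unitary_entry {A : Matrix (Fin n) (Fin n) ℂ} (hA : A * Aᴴ = 1) (i j : Fin n) :
    ‖A i j‖ ≤ √n := by
  apply norm_le_of_nsq
  unfold nsq
  rw [hA, Matrix.trace_one]
  simp

lemma isCompact_unitary :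
    IsCompact {g : GL (Fin n) ℂ |
      (g : Matrix (Fin n) (Fin n) ℂ) * (g : Matrix (Fin n) (Fin n) ℂ)ᴴ = 1} := by
  have hK : IsCompact {A : Matrix (Fin n) (Fin n) ℂ | A * Aᴴ = 1} := by
    have hK1 : IsCompact (Set.univ.pi (fun _ : Fin n => Set.univ.pi
        (fun _ : Fin n => Metric.closedBall (0 : ℂ) (√n)))) :=
      isCompact_univ_pi (fun _ => isCompact_univ_pi (fun _ => isCompact_closedBall _ _))
    refine IsCompact.of_isClosed_subset (s := (Set.univ.pi (fun _ : Fin n => Set.univ.pi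
        (fun _ : Fin n => Metric.closedBall (0 : ℂ) (√n))) : Set (Matrix (Fin n) (Fin n) ℂ)))
        hK1 ?_ ?_
    · exact isClosed_eq (by fun_prop) continuous_const
    · intro A hA i _ j _
      rw [Metric.mem_closedBall, dist_zero_right]
      exact unitary_entry hA i j
  have : CompactSpace {A : Matrix (Fin n) (Fin n) ℂ | A * Aᴴ = 1} :=
    isCompact_iff_compactSpace.mp hK
  let F : {A : Matrix (Fin n) (Fin n) ℂ | A * Aᴴ = 1} → GL (Fin n) ℂ := fun A =>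
    ⟨A.1, (A.1)ᴴ, A.2, mul_eq_one_comm.mp A.2⟩
  have hF : Continuous F := by
    rw [Units.continuous_iff]
    constructor
    · exact continuous_subtype_val
    · change Continuous fun A : {A : Matrix (Fin n) (Fin n) ℂ | A * Aᴴ = 1} => (A.1)ᴴ
      fun_prop
  have h1 : {g : GL (Fin n) ℂ |
      (g : Matrix (Fin n) (Fin n) ℂ) * (g : Matrix (Fin n) (Fin n) ℂ)ᴴ = 1} = Set.range F := by
    ext g
    constructor
    · intro hg
      exact ⟨⟨g, hg⟩, Units.ext rfl⟩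
    · rintro ⟨A, rfl⟩
      exact A.2
  rw [h1]
  exact isCompact_range hF

/-- the unitary group -/
def Un (n : ℕ) : Subgroup (GL (Fin n) ℂ) where
  carrier := {g | (g : Matrix (Fin n) (Fin n) ℂ) * (g : Matrix (Fin n) (Fin n) ℂ)ᴴ = 1}
  mul_mem' := by
    intro a b ha hb
    change ((a * b : GL (Fin n) ℂ) : Matrix (Fin n) (Fin n) ℂ) *
      ((a * b : GL (Fin n) ℂ) : Matrix (Fin n) (Fin n) ℂ)ᴴ = 1
    have ha' : (a : Matrix (Fin n) (Fin n) ℂ) * (a : Matrix (Fin n) (Fin n) ℂ)ᴴ = 1 := ha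
    have hb' : (b : Matrix (Fin n) (Fin n) ℂ) * (b : Matrix (Fin n) (Fin n) ℂ)ᴴ = 1 := hb
    rw [Units.val_mul, Matrix.conjTranspose_mul]
    calc (a : Matrix (Fin n) (Fin n) ℂ) * (b : Matrix (Fin n) (Fin n) ℂ) *
          ((b : Matrix (Fin n) (Fin n) ℂ)ᴴ * (a : Matrix (Fin n) (Fin n) ℂ)ᴴ)
        = (a : Matrix (Fin n) (Fin n) ℂ) * ((b : Matrix (Fin n) (Fin n) ℂ) *
          (b : Matrix (Fin n) (Fin n) ℂ)ᴴ) * (a : Matrix (Fin n) (Fin n) ℂ)ᴴ := by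
          noncomm_ring
      _ = 1 := by rw [hb', mul_one, ha']
  one_mem' := by
    change ((1 : GL (Fin n) ℂ) : Matrix (Fin n) (Fin n) ℂ) *
      ((1 : GL (Fin n) ℂ) : Matrix (Fin n) (Fin n) ℂ)ᴴ = 1
    simp
  inv_mem' := by
    intro a ha
    have ha' : (a : Matrix (Fin n) (Fin n) ℂ) * (a : Matrix (Fin n) (Fin n) ℂ)ᴴ = 1 := ha
    change ((a⁻¹ : GL (Fin n) ℂ) : Matrix (Fin n) (Fin n) ℂ) *
      ((a⁻¹ : GL (Fin n) ℂ) : Matrix (Fin n) (Fin n) ℂ)ᴴ = 1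
    have h1 : star a = a⁻¹ := by
      rw [eq_inv_iff_mul_eq_one]
      apply Units.ext
      rw [Units.val_mul, coe_star, Units.val_one]
      exact mul_eq_one_comm.mp ha'
    rw [← h1, coe_star, Matrix.conjTranspose_conjTranspose]
    exact mul_eq_one_comm.mp ha'

lemma mem_Un {g : GL (Fin n) ℂ} : g ∈ Un n ↔
    (g : Matrix (Fin n) (Fin n) ℂ) * (g : Matrix (Fin n) (Fin n) ℂ)ᴴ = 1 := Iff.rfl

lemma compact_bound {C : Set (GL (Fin n) ℂ)} (hC : IsCompact C) :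
    ∃ B : ℝ, ∀ φ ∈ C, ∀ i j, ‖(φ : Matrix (Fin n) (Fin n) ℂ) i j‖ ≤ B := by
  have h1 : ∀ i j : Fin n, ∃ B : ℝ, ∀ φ ∈ C, ‖(φ : Matrix (Fin n) (Fin n) ℂ) i j‖ ≤ B := by
    intro i j
    apply hC.exists_bound_of_continuousOn
    exact (Units.continuous_val.matrix_elem i j).continuousOn
  choose B hB using h1
  refine ⟨∑ i, ∑ j, |B i j|, ?_⟩
  intro φ hφ i j
  refine ((hB i j φ hφ).trans (le_abs_self _)).trans ?_
  refine (Finset.single_le_sum (f := fun j => |B i j|) (fun _ _ => abs_nonneg _)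
    (Finset.mem_univ j)).trans ?_
  exact Finset.single_le_sum (f := fun i => ∑ j, |B i j|)
    (fun _ _ => Finset.sum_nonneg fun _ _ => abs_nonneg _) (Finset.mem_univ i)

/-- a compact subgroup of a self-adjoint group is conjugate to a unitary one -/
lemma exists_conj_unitary (hZ : ZariskiClosed G) (hstar : ∀ A, InG G A → InG G Aᴴ)
    {C : Subgroup (GL (Fin n) ℂ)} (hCG : C ≤ G) (hC : IsCompact (C : Set (GL (Fin n) ℂ))) :
    ∃ r ∈ G, ∀ φ ∈ C, r⁻¹ * φ * r ∈ Un n := by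
  obtain ⟨B, hB⟩ := compact_bound hC
  obtain ⟨r, ⟨g, hg, hgr⟩, hr, -, hr'⟩ := cartan hZ hstar ∅ C hCG B hB
    (fun _ _ _ _ _ a ha => absurd ha (Set.notMem_empty a))
  refine ⟨g, hg, fun φ hφ => ?_⟩
  have h1 := hr' φ hφ
  rw [← hgr] at h1
  have h2 : ((g : GL (Fin n) ℂ) : Matrix (Fin n) (Fin n) ℂ)ᴴ = (g : Matrix (Fin n) (Fin n) ℂ) := by
    rw [hgr]
    exact hr.isHermitian
  have h3 : star g = g := Units.ext h2
  have h4 : φ * (g * g) * star φ = g * g := by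
    apply Units.ext
    rw [Units.val_mul, Units.val_mul, Units.val_mul, coe_star]
    exact h1
  have h5 : (g⁻¹ * φ * g) * star (g⁻¹ * φ * g) = 1 := by
    rw [star_mul, star_mul, star_inv, h3]
    calc g⁻¹ * φ * g * (g * (star φ * g⁻¹)) = g⁻¹ * (φ * (g * g) * star φ) * g⁻¹ := by group
      _ = 1 := by rw [h4]; group
  rw [mem_Un]
  have h6 := congrArg (fun x : GL (Fin n) ℂ => (x : Matrix (Fin n) (Fin n) ℂ)) h5
  exact h6

/-- supersolvable groups are flawed -/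
theorem flawed_of_supersolvable (hs : Supersolvable Γ) : Flawed Γ := by
  intro n G K hZ hR hK
  obtain ⟨C, hCG, hCc, hCd⟩ := hR
  have hZt : ZariskiClosed (⊤ : Subgroup (GL (Fin n) ℂ)) := fun g _ => Subgroup.mem_top g
  have hst : ∀ A, InG (⊤ : Subgroup (GL (Fin n) ℂ)) A →
      InG (⊤ : Subgroup (GL (Fin n) ℂ)) Aᴴ := by
    rintro A ⟨g, -, rfl⟩
    exact ⟨star g, Subgroup.mem_top _, rfl⟩
  obtain ⟨r, -, hr⟩ := exists_conj_unitary hZt hst le_top hCc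
  obtain ⟨h, rfl⟩ : ∃ h : GL (Fin n) ℂ, r = h⁻¹ := ⟨r⁻¹, (inv_inv r).symm⟩
  rw [inv_inv] at hr
  -- the conjugate group
  have hZ' : ZariskiClosed (cG h G) := zariskiClosed_cG h hZ
  have hCd' := dense_cG h hCd
  have hCG' : cG h C ≤ cG h G := fun g hg => mem_cG.mpr (hCG (mem_cG.mp hg))
  have hR' : Reductive (cG h G) := ⟨cG h C, hCG', isCompact_cG hCc, hCd'⟩
  have hCu : ∀ c ∈ cG h C, (c : Matrix (Fin n) (Fin n) ℂ) *
      (c : Matrix (Fin n) (Fin n) ℂ)ᴴ = 1 := by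
    intro c hc
    have h1 := hr _ (mem_cG.mp hc)
    have h2 : h * (h⁻¹ * c * h) * h⁻¹ = c := by group
    rw [h2] at h1
    exact h1
  have hstar' := star_of_dense hZ' hCG' hCd' hCu
  -- the maximal compact subgroup
  obtain ⟨hKG, hKc, hKm⟩ := hK
  have hKG' : cG h K ≤ cG h G := fun g hg => mem_cG.mpr (hKG (mem_cG.mp hg))
  obtain ⟨r', hr'G, hr'⟩ := exists_conj_unitary hZ' hstar' hKG' (isCompact_cG hKc)
  set s : GL (Fin n) ℂ := h⁻¹ * r' * h with hs'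
  have hsG : s ∈ G := mem_cG.mp hr'G
  set w : GL (Fin n) ℂ := r'⁻¹ * h with hw
  have hK1 : (cG w⁻¹ (Un n) ⊓ G : Subgroup (GL (Fin n) ℂ)) = K := by
    apply hKm
    · intro k hk
      refine ⟨mem_cG.mpr ?_, hKG hk⟩
      have h1 := hr' _ (conj_mem_cG hk)
      have h2 : r'⁻¹ * (h * k * h⁻¹) * r' = w⁻¹⁻¹ * k * w⁻¹ := by
        rw [hw]
        group
      rwa [h2] at h1
    · exact inf_le_right
    · have h1 : IsCompact (cG w⁻¹ (Un n) : Set (GL (Fin n) ℂ)) :=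
        isCompact_cG isCompact_unitary
      exact h1.inter_right (isClosed_aux hZ)
  have hKmem : ∀ g ∈ G, g ∈ K ↔ w * g * w⁻¹ ∈ Un n := by
    intro g hg
    rw [← hK1, Subgroup.mem_inf, mem_cG, inv_inv]
    exact ⟨fun h => h.1, fun h => ⟨h, hg⟩⟩
  -- transfer
  have hG1 : ∀ g ∈ G, h * g * h⁻¹ ∈ cG h G := fun g hg => conj_mem_cG hg
  have hG2 : ∀ g ∈ cG h G, h⁻¹ * g * h⁻¹⁻¹ ∈ G := fun g hg => by
    rw [inv_inv]
    exact mem_cG.mp hg
  refine sdr_transfer (push h⁻¹ hG2) (push h hG1) (continuous_push _ _) (continuous_push _ _)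
    (push_push h hG1 hG2) ?_ ?_ (retract_sa hs hZ' hR' hstar')
  · rintro _ ⟨ρ, hρ, rfl⟩
    rw [push_point]
    refine ⟨(MulAut.conj (⟨s, hsG⟩ : G)).toMonoidHom.comp ((cHom h⁻¹ hG2).comp ρ), ?_,
      (point_conj _ _).symm⟩
    intro γ
    rw [hKmem _ (Subtype.mem _)]
    have h1 : w * ((((MulAut.conj (⟨s, hsG⟩ : G)).toMonoidHom.comp ((cHom h⁻¹ hG2).comp ρ)) γ :
        G) : GL (Fin n) ℂ) * w⁻¹ = (ρ γ : GL (Fin n) ℂ) := by
      change w * (s * (h⁻¹ * (ρ γ : GL (Fin n) ℂ) * h⁻¹⁻¹) * s⁻¹) * w⁻¹ = _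
      rw [hw, hs']
      group
    rw [h1]
    exact hρ γ
  · rintro _ ⟨ρ, hρ, rfl⟩
    refine ⟨(cHom h hG1).comp
      ((MulAut.conj (⟨s⁻¹, G.inv_mem hsG⟩ : G)).toMonoidHom.comp ρ), ?_, ?_⟩
    · intro γ
      have h1 := (hKmem _ (hKG (hρ γ))).mp (hρ γ)
      have h2 : w * (ρ γ : GL (Fin n) ℂ) * w⁻¹ = (((cHom h hG1).comp
        ((MulAut.conj (⟨s⁻¹, G.inv_mem hsG⟩ : G)).toMonoidHom.comp ρ)) γ : GL (Fin n) ℂ) := by
        change _ = h * (s⁻¹ * (ρ γ : GL (Fin n) ℂ) * s⁻¹⁻¹) * h⁻¹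
        rw [hw, hs']
        group
      rw [h2] at h1
      exact h1
    · rw [← push_point, point_conj]

end Pool.Agent.Lib.MP_a9945b_al
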